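import Pool.Agent.Helper228.CkInt.Defs

open scoped ENNReal NNReal Topology
open MeasureTheory Filter Set

namespace Pool.Agent.Helper228.CkInt

/-- real `d`-space -/
abbrev E (d : ℕ) := Fin d → ℝ

theorem norm_le_of_coord {d m : ℕ} (T : ContinuousMultilinearMap ℝ (fun _ : Fin m => E d) ℝ)
    {B : ℝ} (hB : 0 ≤ B) (h : ∀ j : Fin m → Fin d, |T (fun i => Pi.single (j i) 1)| ≤ B) :
    ‖T‖ ≤ (d:ℝ)^m * B := by
  refine ContinuousMultilinearMap.opNorm_le_bound (by positivity) (fun v => ?_)
  have hv : v = fun i => ∑ a : Fin d, v i a • (Pi.single a (1:ℝ) : E d) := by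
    funext i
    funext b
    simp [Finset.sum_apply, Pi.single_apply]
  have h1 : T v = ∑ r : Fin m → Fin d, (∏ i, v i (r i)) * T (fun i => Pi.single (r i) 1) := by
    conv_lhs => rw [hv]
    rw [ContinuousMultilinearMap.map_sum]
    refine Finset.sum_congr rfl (fun r _ => ?_)
    have := T.map_smul_univ (fun i => v i (r i)) (fun i => (Pi.single (r i) (1:ℝ) : E d))
    rw [smul_eq_mul] at this
    exact this
  rw [h1]
  refine (norm_sum_le _ _).trans ?_
  have h2 : ∀ r : Fin m → Fin d, r ∈ Finset.univ →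
      ‖(∏ i, v i (r i)) * T (fun i => Pi.single (r i) 1)‖ ≤ B * ∏ i, ‖v i‖ := by
    intro r _
    rw [norm_mul, mul_comm]
    have h3 : ‖T (fun i => Pi.single (r i) 1)‖ ≤ B := h r
    have h4 : ‖∏ i, v i (r i)‖ ≤ ∏ i, ‖v i‖ := by
      rw [norm_prod]
      exact Finset.prod_le_prod (fun i _ => norm_nonneg _) (fun i _ => norm_le_pi_norm (v i) (r i))
    exact mul_le_mul h3 h4 (norm_nonneg _) hB
  refine (Finset.sum_le_sum h2).trans ?_
  rw [Finset.sum_const, Finset.card_univ, nsmul_eq_mul]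
  simp only [Fintype.card_pi, Fintype.card_fin, Finset.prod_const, Finset.card_univ]
  push_cast
  linarith

end Pool.Agent.Helper228.CkInt
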