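import Pool.Agent.Helper228.CkInt.A

open scoped ENNReal NNReal Topology
open MeasureTheory Filter Set

namespace Pool.Agent.Helper228.CkInt


/-- iterated finite difference -/
def fd {d : ℕ} (h : ℝ) : (m : ℕ) → (Fin m → Fin d) → (E d → ℝ) → E d → ℝ
  | 0, _, f, x => f x
  | (m+1), j, f, x => fd h m (Fin.init j) f (x + h • Pi.single (j (Fin.last m)) 1)
      - fd h m (Fin.init j) f x

theorem fd_zero {d : ℕ} (h : ℝ) (m : ℕ) (j : Fin m → Fin d) (f : E d → ℝ) (x : E d)
    (hf : ∀ a : Fin d → ℕ, (∀ i, a i ≤ m) → f (x + h • (fun i => (a i : ℝ))) = 0) :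
    fd h m j f x = 0 := by
  induction m generalizing x with
  | zero =>
    have := hf (fun _ => 0) (fun _ => le_rfl)
    simp only [fd]
    convert this using 2
    funext i
    simp
  | succ m ih =>
    simp only [fd]
    rw [ih, ih, sub_zero]
    · intro a ha
      exact hf a (fun i => (ha i).trans (Nat.le_succ m))
    · intro a ha
      have := hf (fun i => a i + if i = j (Fin.last m) then 1 else 0) (fun i => by
        have := ha i
        split_ifs <;> omega)
      convert this using 2
      funext i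
      simp only [Pi.add_apply, Pi.smul_apply, smul_eq_mul, Pi.single_apply]
      split_ifs <;> push_cast <;> ring

theorem fd_hasDerivAt {d : ℕ} {h : ℝ} (hh : 0 ≤ h) (m : ℕ) (j : Fin m → Fin d) (f : E d → ℝ)
    (x v : E d) (t : ℝ)
    (hf : ∀ y ∈ Icc (x + t • v) (x + t • v + fun _ => m * h), DifferentiableAt ℝ f y) :
    HasDerivAt (fun t => fd h m j f (x + t • v)) (fd h m j (fun y => fderiv ℝ f y v) (x + t • v)) t := by
  induction m generalizing x with
  | zero =>
    simp only [fd]
    have h1 : DifferentiableAt ℝ f (x + t • v) := hf _ ⟨le_rfl, fun i => by simp⟩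
    have h2 : HasDerivAt (fun t : ℝ => x + t • v) v t := by
      have := ((hasDerivAt_id t).smul_const v).const_add x
      simpa using this
    exact h1.hasFDerivAt.comp_hasDerivAt t h2
  | succ m ih =>
    simp only [fd]
    have e1 : ∀ s : ℝ, x + s • v + h • Pi.single (j (Fin.last m)) 1
        = (x + h • Pi.single (j (Fin.last m)) 1) + s • v := fun s => by abel
    simp only [e1]
    have hs : ∀ i, 0 ≤ (h • (Pi.single (j (Fin.last m)) 1 : E d)) i ∧
        (h • (Pi.single (j (Fin.last m)) 1 : E d)) i ≤ h := by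
      intro i
      simp only [Pi.smul_apply, smul_eq_mul, Pi.single_apply]
      split_ifs <;> simp [hh]
    refine HasDerivAt.sub (ih (Fin.init j) _ ?_) (ih (Fin.init j) _ ?_)
    · intro y hy
      refine hf y ⟨fun i => ?_, fun i => ?_⟩
      · have := hy.1 i
        have h3 := (hs i).1
        simp only [Pi.add_apply] at this ⊢
        linarith
      · have := hy.2 i
        have h3 := (hs i).2
        simp only [Pi.add_apply] at this ⊢
        push_cast
        linarith
    · intro y hy
      refine hf y ⟨hy.1, fun i => ?_⟩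
      have := hy.2 i
      simp only [Pi.add_apply] at this ⊢
      push_cast
      linarith

theorem iter_clm {d m : ℕ} {f : E d → ℝ} {U : Set (E d)} (hU : IsOpen U)
    (hf : ContDiffOn ℝ ((m + 1 : ℕ)) f U) {x : E d} (hx : x ∈ U) (v : Fin m → E d) (w : E d) :
    iteratedFDeriv ℝ m (fun y => fderiv ℝ f y w) x v
      = iteratedFDeriv ℝ (m+1) f x (Fin.snoc v w : Fin (m+1) → E d) := by
  rw [iteratedFDeriv_succ_apply_right]
  simp only [Fin.init_snoc, Fin.snoc_last]
  have h1 : ContDiffOn ℝ m (fun y => fderiv ℝ f y) U :=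
    hf.fderiv_of_isOpen hU (by norm_cast)
  have := iteratedFDerivWithin_clm_apply_const_apply (𝕜 := ℝ) hU.uniqueDiffOn h1 le_rfl hx
    (u := w) (m := v)
  rw [iteratedFDerivWithin_of_isOpen m hU hx, iteratedFDerivWithin_of_isOpen m hU hx] at this
  exact this

theorem fd_mvt {d : ℕ} {h : ℝ} (hh : 0 < h) {U : Set (E d)} (hU : IsOpen U) (m : ℕ)
    (j : Fin m → Fin d) (f : E d → ℝ) (hf : ContDiffOn ℝ m f U) (x : E d)
    (hx : Icc x (x + fun _ => m * h) ⊆ U) :
    ∃ ξ ∈ Icc x (x + fun _ => m * h),
      fd h m j f x = h ^ m * iteratedFDeriv ℝ m f ξ (fun i => Pi.single (j i) 1) := by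
  induction m generalizing f x with
  | zero =>
    refine ⟨x, ⟨le_rfl, fun i => by simp⟩, ?_⟩
    simp [fd]
  | succ m ih =>
    set e : E d := Pi.single (j (Fin.last m)) 1 with he
    have hej : ∀ i, 0 ≤ e i ∧ e i ≤ 1 := by
      intro i
      simp only [he, Pi.single_apply]
      split_ifs <;> simp
    have hdiff : ∀ y ∈ U, DifferentiableAt ℝ f y := fun y hy =>
      (hf.contDiffAt (hU.mem_nhds hy)).differentiableAt (by simp)
    have hsub : ∀ t ∈ Icc (0:ℝ) h, Icc (x + t • e) (x + t • e + fun _ => m * h)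
        ⊆ Icc x (x + fun _ => ((m+1 : ℕ):ℝ) * h) := by
      intro t ht y hy
      refine ⟨fun i => ?_, fun i => ?_⟩
      · have h1 := hy.1 i
        simp only [Pi.add_apply, Pi.smul_apply, smul_eq_mul] at h1
        have := mul_nonneg ht.1 (hej i).1
        linarith
      · have h1 := hy.2 i
        simp only [Pi.add_apply, Pi.smul_apply, smul_eq_mul] at h1 ⊢
        have : t * e i ≤ h * 1 := mul_le_mul ht.2 (hej i).2 (hej i).1 hh.le
        push_cast
        linarith
    have hder : ∀ t ∈ Icc (0:ℝ) h, HasDerivAt (fun t => fd h m (Fin.init j) f (x + t • e))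
        (fd h m (Fin.init j) (fun y => fderiv ℝ f y e) (x + t • e)) t := by
      intro t ht
      exact fd_hasDerivAt hh.le m _ f x e t (fun y hy => hdiff y (hx (hsub t ht hy)))
    obtain ⟨τ, hτ, h2⟩ := exists_hasDerivAt_eq_slope
      (fun t => fd h m (Fin.init j) f (x + t • e))
      (fun t => fd h m (Fin.init j) (fun y => fderiv ℝ f y e) (x + t • e)) hh
      (fun t ht => (hder t ht).continuousAt.continuousWithinAt)
      (fun t ht => hder t ⟨ht.1.le, ht.2.le⟩)
    have hg : ContDiffOn ℝ m (fun y => fderiv ℝ f y e) U :=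
      (hf.fderiv_of_isOpen hU (by norm_cast)).clm_apply contDiffOn_const
    obtain ⟨ξ, hξ, h3⟩ := ih (Fin.init j) (fun y => fderiv ℝ f y e) hg (x + τ • e)
      ((hsub τ ⟨hτ.1.le, hτ.2.le⟩).trans hx)
    refine ⟨ξ, hsub τ ⟨hτ.1.le, hτ.2.le⟩ hξ, ?_⟩
    have h4 : fd h (m+1) j f x = h * fd h m (Fin.init j) (fun y => fderiv ℝ f y e) (x + τ • e) := by
      simp only [fd]
      simp only [zero_smul, add_zero, sub_zero] at h2
      rw [h2]
      field_simp
      rfl
    rw [h4, h3, iter_clm hU hf (hx (hsub τ ⟨hτ.1.le, hτ.2.le⟩ hξ))]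
    have h5 : (Fin.snoc (fun i => Pi.single (Fin.init j i) 1) e : Fin (m+1) → E d)
        = fun i => Pi.single (j i) 1 := by
      funext i
      refine Fin.lastCases ?_ (fun i => ?_) i
      · simp [he]
      · simp [Fin.init]
    rw [h5]
    ring

end Pool.Agent.Helper228.CkInt
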