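import Pool.Agent.Helper228.CkInt.A
import Pool.Agent.Helper228.CkInt.B

open scoped ENNReal NNReal Topology
open MeasureTheory Filter Set

namespace Pool.Agent.Helper228.CkInt

theorem apply_single_le {d m : ℕ} (T : ContinuousMultilinearMap ℝ (fun _ : Fin m => E d) ℝ)
    (j : Fin m → Fin d) : |T (fun i => Pi.single (j i) 1)| ≤ ‖T‖ := by
  have := T.le_opNorm (fun i => (Pi.single (j i) (1:ℝ) : E d))
  have h1 : ∀ i : Fin m, ‖(Pi.single (j i) (1:ℝ) : E d)‖ = 1 := fun i => by
    rw [Pi.norm_single]; simp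
  simp only [h1, Finset.prod_const_one, mul_one, Real.norm_eq_abs] at this
  exact this

theorem top_norm_le {d k : ℕ} {f : E d → ℝ} {x : E d}
    (h : ∀ j : Fin k → Fin d, |iteratedFDeriv ℝ k f x (fun i => Pi.single (j i) 1)| ≤ 1) :
    ‖iteratedFDeriv ℝ k f x‖ ≤ (d:ℝ)^k := by
  simpa using norm_le_of_coord (iteratedFDeriv ℝ k f x) zero_le_one h

/-- smallness of all derivatives on a grid block -/
theorem block_small {d k : ℕ} (hd : 1 ≤ d) {h : ℝ} (hh : 0 < h) {U : Set (E d)} (hU : IsOpen U)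
    {f : E d → ℝ} (hf : ContDiffOn ℝ k f U)
    (hk : ∀ x ∈ U, ∀ j : Fin k → Fin d,
      |iteratedFDeriv ℝ k f x (fun i => Pi.single (j i) 1)| ≤ 1)
    {x₀ : E d} (hx₀ : Icc x₀ (x₀ + fun _ => k * h) ⊆ U)
    (hz : ∀ a : Fin d → ℕ, (∀ i, a i ≤ k) → f (x₀ + h • (fun i => (a i : ℝ))) = 0)
    {m : ℕ} (hm : m ≤ k) {x : E d} (hx : x ∈ Icc x₀ (x₀ + fun _ => k * h)) :
    ‖iteratedFDeriv ℝ m f x‖ ≤ (d:ℝ)^k * ((d:ℝ)^k * k * h)^(k-m) := by
  have key : ∀ n, n ≤ k → ∀ x ∈ Icc x₀ (x₀ + fun _ => k * h),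
      ‖iteratedFDeriv ℝ (k-n) f x‖ ≤ (d:ℝ)^k * ((d:ℝ)^k * k * h)^n := by
    intro n
    induction n with
    | zero =>
      intro _ x hx
      simpa using top_norm_le (hk x (hx₀ hx))
    | succ n ih =>
      intro hn x hx
      have ih' := ih (by omega)
      set m := k - (n+1) with hmdef
      have hm1 : k - n = m + 1 := by omega
      rw [hm1] at ih'
      set B := (d:ℝ)^k * ((d:ℝ)^k * k * h)^n with hB
      have hB0 : 0 ≤ B := by positivity
      have hco : ∀ j : Fin m → Fin d,
          |iteratedFDeriv ℝ m f x (fun i => Pi.single (j i) 1)| ≤ B * (k * h) := by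
        intro j
        have hsub : Icc x₀ (x₀ + fun _ => (m:ℝ) * h) ⊆ Icc x₀ (x₀ + fun _ => (k:ℝ) * h) := by
          refine Icc_subset_Icc le_rfl (fun i => ?_)
          have : (m:ℝ) ≤ k := by exact_mod_cast (show m ≤ k by omega)
          simp only [Pi.add_apply]
          have := mul_le_mul_of_nonneg_right this hh.le
          linarith
        obtain ⟨ξ, hξ, h1⟩ := fd_mvt hh hU m j f
          (hf.of_le (by exact_mod_cast (show m ≤ k by omega))) x₀ (hsub.trans hx₀)
        rw [fd_zero h m j f x₀ (fun a ha => hz a (fun i => (ha i).trans (by omega)))] at h1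
        have h2 : iteratedFDeriv ℝ m f ξ (fun i => Pi.single (j i) 1) = 0 := by
          have : h^m ≠ 0 := by positivity
          rcases mul_eq_zero.1 h1.symm with h3 | h3
          · exact absurd h3 this
          · exact h3
        have hdiff : ∀ y ∈ Icc x₀ (x₀ + fun _ => (k:ℝ) * h),
            DifferentiableAt ℝ (iteratedFDeriv ℝ m f) y := by
          intro y hy
          exact (hf.contDiffAt (hU.mem_nhds (hx₀ hy))).differentiableAt_iteratedFDeriv
            (by exact_mod_cast (show m < k by omega))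
        have h3 := Convex.norm_image_sub_le_of_norm_fderiv_le (𝕜 := ℝ) (C := B) hdiff
          (fun y hy => by rw [norm_fderiv_iteratedFDeriv]; exact ih' y hy)
          (convex_Icc _ _) (hsub hξ) hx
        have h4 : ‖x - ξ‖ ≤ k * h := by
          rw [pi_norm_le_iff_of_nonneg (by positivity)]
          intro i
          rw [Real.norm_eq_abs, abs_le]
          have a1 := hx.1 i
          have a2 := hx.2 i
          have a3 := (hsub hξ).1 i
          have a4 := (hsub hξ).2 i
          simp only [Pi.add_apply, Pi.sub_apply] at *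
          constructor <;> linarith
        have h5 := apply_single_le (iteratedFDeriv ℝ m f x - iteratedFDeriv ℝ m f ξ) j
        rw [_root_.sub_apply, h2, sub_zero] at h5
        exact h5.trans (h3.trans (mul_le_mul_of_nonneg_left h4 hB0))
      have h6 := norm_le_of_coord (iteratedFDeriv ℝ m f x) (by positivity) hco
      refine h6.trans ?_
      have h7 : (d:ℝ)^m ≤ (d:ℝ)^k := pow_le_pow_right₀ (by exact_mod_cast hd) (by omega)
      calc (d:ℝ)^m * (B * (k * h)) ≤ (d:ℝ)^k * (B * (k * h)) :=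
            mul_le_mul_of_nonneg_right h7 (by positivity)
        _ = _ := by rw [hB, pow_succ]; ring
  have := key (k-m) (by omega) x hx
  rwa [show k - (k - m) = m by omega] at this

/-- transport of smallness inside a convex set -/
theorem convex_small {d k : ℕ} {U : Set (E d)} (hU : IsOpen U)
    {f : E d → ℝ} (hf : ContDiffOn ℝ k f U)
    (hk : ∀ x ∈ U, ∀ j : Fin k → Fin d,
      |iteratedFDeriv ℝ k f x (fun i => Pi.single (j i) 1)| ≤ 1)
    {S : Set (E d)} (hS : Convex ℝ S) (hSU : S ⊆ U) {y : E d} (hy : y ∈ S) {a r : ℝ}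
    (ha : 0 ≤ a) (hr : 0 ≤ r)
    (hya : ∀ m ≤ k, ‖iteratedFDeriv ℝ m f y‖ ≤ (d:ℝ)^k * a^(k-m))
    (hSr : ∀ x ∈ S, ‖x - y‖ ≤ r)
    {m : ℕ} (hm : m ≤ k) {x : E d} (hx : x ∈ S) :
    ‖iteratedFDeriv ℝ m f x‖ ≤ (d:ℝ)^k * (a + r)^(k-m) := by
  have key : ∀ n, n ≤ k → ∀ x ∈ S,
      ‖iteratedFDeriv ℝ (k-n) f x‖ ≤ (d:ℝ)^k * (a + r)^n := by
    intro n
    induction n with
    | zero =>
      intro _ x hx
      simpa using top_norm_le (hk x (hSU hx))
    | succ n ih =>
      intro hn x hx
      have ih' := ih (by omega)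
      set m := k - (n+1) with hmdef
      have hm1 : k - n = m + 1 := by omega
      rw [hm1] at ih'
      set B := (d:ℝ)^k * (a + r)^n with hB
      have hB0 : 0 ≤ B := by positivity
      have hdiff : ∀ y ∈ S, DifferentiableAt ℝ (iteratedFDeriv ℝ m f) y := by
        intro y hy
        exact (hf.contDiffAt (hU.mem_nhds (hSU hy))).differentiableAt_iteratedFDeriv
          (by exact_mod_cast (show m < k by omega))
      have h3 := Convex.norm_image_sub_le_of_norm_fderiv_le (𝕜 := ℝ) (C := B) hdiff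
        (fun y hy => by rw [norm_fderiv_iteratedFDeriv]; exact ih' y hy) hS hy hx
      have h4 := hya m (by omega)
      have h5 : k - m = n + 1 := by omega
      rw [h5] at h4
      have h6 : ‖iteratedFDeriv ℝ m f x‖ ≤ ‖iteratedFDeriv ℝ m f y‖
          + ‖iteratedFDeriv ℝ m f x - iteratedFDeriv ℝ m f y‖ := by
        have := norm_add_le (iteratedFDeriv ℝ m f y) (iteratedFDeriv ℝ m f x - iteratedFDeriv ℝ m f y)
        simpa using this
      have h7 : ‖iteratedFDeriv ℝ m f x‖ ≤ (d:ℝ)^k * a^(n+1) + B * r :=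
        h6.trans (add_le_add h4 (h3.trans (mul_le_mul_of_nonneg_left (hSr x hx) hB0)))
      refine h7.trans ?_
      have h8 : a^n ≤ (a+r)^n := pow_le_pow_left₀ ha (by linarith) n
      rw [hB]
      calc (d:ℝ)^k * a^(n+1) + (d:ℝ)^k * (a+r)^n * r
          = (d:ℝ)^k * (a^n * a + (a+r)^n * r) := by ring
        _ ≤ (d:ℝ)^k * ((a+r)^n * a + (a+r)^n * r) := by
            gcongr
        _ = (d:ℝ)^k * (a+r)^(n+1) := by ring
  have := key (k-m) (by omega) x hx
  rwa [show k - (k - m) = m by omega] at this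

end Pool.Agent.Helper228.CkInt
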