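import Pool.Agent.Helper228.CkInt.C

open scoped ENNReal NNReal Topology
open MeasureTheory Filter Set

namespace Pool.Agent.Helper228.CkInt

theorem lower_radius {d : ℕ} {D : Set (E d)} {F : Set (E d → ℝ)} {n : ℕ} {b : ℝ}
    (h : ∀ x : Fin n → D, ∃ f ∈ F, (fun x => - f x) ∈ F ∧ (∀ i, f (x i) = 0) ∧
      b ≤ ∫ y in D, f y) : ENNReal.ofReal b ≤ minError D F n := by
  refine le_iInf (fun x => le_iInf (fun φ => ?_))
  obtain ⟨f, hf, hf', h0, hb⟩ := h x
  have e1 : (fun i => f (x i)) = fun _ => (0:ℝ) := by funext i; exact h0 i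
  have e2 : (fun i => - f (x i)) = fun _ => (0:ℝ) := by funext i; rw [h0 i, neg_zero]
  have h1 := le_iSup₂ (f := fun (f : E d → ℝ) (_ : f ∈ F) =>
    ENNReal.ofReal |(∫ y in D, f y) - φ (fun i => f (x i))|) f hf
  have h2 := le_iSup₂ (f := fun (f : E d → ℝ) (_ : f ∈ F) =>
    ENNReal.ofReal |(∫ y in D, f y) - φ (fun i => f (x i))|) (fun x => - f x) hf'
  rw [e1] at h1
  rw [e2, integral_neg] at h2
  rcases le_total 0 (φ fun _ => 0) with h3 | h3
  · refine le_trans (ENNReal.ofReal_le_ofReal ?_) h2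
    have : (∫ y in D, f y) ≤ |(-∫ y in D, f y) - φ fun _ => 0| := by
      rw [abs_sub_comm]
      refine le_trans ?_ (le_abs_self _)
      linarith
    linarith
  · refine le_trans (ENNReal.ofReal_le_ofReal ?_) h1
    have : (∫ y in D, f y) ≤ |(∫ y in D, f y) - φ fun _ => 0| := by
      refine le_trans ?_ (le_abs_self _)
      linarith
    linarith

theorem upper_radius {d : ℕ} {D : Set (E d)} {F : Set (E d → ℝ)} {n : ℕ} {B : ℝ}
    (hD : D.Nonempty) (hint : ∀ f ∈ F, IntegrableOn f D)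
    (hF : ∀ f ∈ F, ∀ g ∈ F, (fun x => (f x - g x) / 2) ∈ F)
    (P : Finset (E d)) (hP : P.card ≤ n) (hPD : ∀ x ∈ P, x ∈ D)
    (h : ∀ f ∈ F, (∀ x ∈ P, f x = 0) → ∫ y in D, f y ≤ B) :
    minError D F n ≤ ENNReal.ofReal B := by
  classical
  obtain ⟨x0, hx0⟩ := hD
  -- an `n`-tuple covering `P`
  obtain ⟨x, hx⟩ : ∃ x : Fin n → D, ∀ p ∈ P, ∃ i, (x i : E d) = p := by
    let e := P.equivFin
    refine ⟨fun i => if hi : (i : ℕ) < P.card then
      ⟨(e.symm ⟨i, hi⟩ : E d), hPD _ (e.symm ⟨i, hi⟩).2⟩ else ⟨x0, hx0⟩, fun p hp => ?_⟩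
    refine ⟨⟨(e ⟨p, hp⟩ : ℕ), lt_of_lt_of_le (e ⟨p, hp⟩).2 hP⟩, ?_⟩
    simp
  let V : (Fin n → ℝ) → Set ℝ := fun y =>
    {t | ∃ f ∈ F, (fun i => f (x i)) = y ∧ t = ∫ y in D, f y}
  have hV : ∀ y, ∀ s ∈ V y, ∀ t ∈ V y, s - t ≤ 2 * B := by
    rintro y s ⟨f, hf, hfy, rfl⟩ t ⟨g, hg, hgy, rfl⟩
    have h1 := h _ (hF f hf g hg) (fun p hp => by
      obtain ⟨i, hi⟩ := hx p hp
      have := congrFun (hfy.trans hgy.symm) i
      simp only [hi] at this
      rw [this]; simp)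
    have h2 : ∫ y in D, (f y - g y) / 2 = ((∫ y in D, f y) - ∫ y in D, g y) / 2 := by
      rw [integral_div, integral_sub (hint f hf) (hint g hg)]
    rw [h2] at h1
    linarith
  refine iInf_le_of_le x (iInf_le_of_le (fun y => (sSup (V y) + sInf (V y)) / 2) ?_)
  refine iSup₂_le (fun f hf => ENNReal.ofReal_le_ofReal ?_)
  set y := fun i => f (x i) with hy
  have hmem : (∫ y in D, f y) ∈ V y := ⟨f, hf, rfl, rfl⟩
  have hba : BddAbove (V y) := ⟨(∫ y in D, f y) + 2 * B, fun s hs => by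
    have := hV y s hs _ hmem; linarith⟩
  have hbb : BddBelow (V y) := ⟨(∫ y in D, f y) - 2 * B, fun s hs => by
    have := hV y _ hmem s hs; linarith⟩
  have h1 : (∫ y in D, f y) ≤ sSup (V y) := le_csSup hba hmem
  have h2 : sInf (V y) ≤ ∫ y in D, f y := csInf_le hbb hmem
  have h3 : sSup (V y) ≤ sInf (V y) + 2 * B := by
    refine csSup_le ⟨_, hmem⟩ (fun s hs => ?_)
    have : s - 2 * B ≤ sInf (V y) := le_csInf ⟨_, hmem⟩ (fun t ht => by
      have := hV y s hs t ht; linarith)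
    linarith
  rw [abs_le]
  constructor <;> linarith

theorem smoothClass_neg {d k : ℕ} {D : Set (E d)} {f : E d → ℝ} (hf : f ∈ smoothClass k D) :
    (fun x => - f x) ∈ smoothClass k D := by
  refine ⟨hf.1.neg, fun x hx => by rw [abs_neg]; exact hf.2.1 x hx, fun m hm j x hx => ?_⟩
  have h1 : iteratedFDeriv ℝ m (fun x => - f x) x = - iteratedFDeriv ℝ m f x := by
    have := iteratedFDeriv_neg_apply (𝕜 := ℝ) (i := m) (f := f) (x := x)
    exact this
  rw [h1, _root_.neg_apply, abs_neg]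
  exact hf.2.2 m hm j x hx

theorem smoothClass_half_sub {d k : ℕ} {D : Set (E d)} {f g : E d → ℝ}
    (hf : f ∈ smoothClass k D) (hg : g ∈ smoothClass k D) :
    (fun x => (f x - g x) / 2) ∈ smoothClass k D := by
  have e : (fun x => (f x - g x) / 2) = fun x => (2⁻¹:ℝ) • (f x - g x) := by
    funext x; simp [div_eq_inv_mul]
  rw [e]
  refine ⟨(hf.1.sub hg.1).const_smul _, fun x hx => ?_, fun m hm j x hx => ?_⟩
  · have h1 := abs_le.1 (hf.2.1 x hx)
    have h2 := abs_le.1 (hg.2.1 x hx)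
    show |(2⁻¹:ℝ) * (f x - g x)| ≤ 1
    rw [abs_le]
    constructor <;> linarith [h1.1, h1.2, h2.1, h2.2]
  · have hO : interior D ∈ 𝓝 x := isOpen_interior.mem_nhds hx
    have hfx : ContDiffAt ℝ m f x := (hf.1.contDiffAt hO).of_le (by exact_mod_cast hm)
    have hgx : ContDiffAt ℝ m g x := (hg.1.contDiffAt hO).of_le (by exact_mod_cast hm)
    have h1 : iteratedFDeriv ℝ m (fun x => (2⁻¹:ℝ) • (f x - g x)) x
        = (2⁻¹:ℝ) • (iteratedFDeriv ℝ m f x - iteratedFDeriv ℝ m g x) := by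
      have a1 := iteratedFDeriv_const_smul_apply (𝕜 := ℝ) (i := m) (a := (2⁻¹:ℝ)) (x := x)
        (f := f - g) (hfx.sub hgx)
      have a2 := iteratedFDeriv_sub_apply (𝕜 := ℝ) (i := m) hfx hgx
      rw [a2] at a1
      exact a1
    rw [h1]
    have h2 := abs_le.1 (hf.2.2 m hm j x hx)
    have h3 := abs_le.1 (hg.2.2 m hm j x hx)
    simp only [_root_.smul_apply, _root_.sub_apply, smul_eq_mul]
    rw [abs_le]
    constructor <;> linarith [h2.1, h2.2, h3.1, h3.2]

theorem ae_interior {d : ℕ} {D : Set (E d)} (hJ : volume (frontier D) = 0) :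
    D =ᵐ[volume] interior D := by
  refine (ae_eq_set.2 ⟨?_, ?_⟩)
  · refine measure_mono_null ?_ hJ
    exact fun x hx => ⟨subset_closure hx.1, hx.2⟩
  · rw [sdiff_eq_empty.2 interior_subset]; simp

theorem smoothClass_integrable {d k : ℕ} {D : Set (E d)} (hb : Bornology.IsBounded D)
    (hJ : volume (frontier D) = 0) {f : E d → ℝ} (hf : f ∈ smoothClass k D) :
    IntegrableOn f D := by
  have h1 : IntegrableOn f (interior D) := by
    refine IntegrableOn.of_bound (C := 1) ?_ ?_ ?_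
    · exact (hb.subset interior_subset).measure_lt_top
    · exact hf.1.continuousOn.aestronglyMeasurable isOpen_interior.measurableSet
    · refine (ae_restrict_iff' isOpen_interior.measurableSet).2 (ae_of_all _ (fun x hx => ?_))
      exact hf.2.1 x (interior_subset hx)
  exact h1.congr_set_ae (ae_interior hJ)

end Pool.Agent.Helper228.CkInt
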