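import Mathlib

open scoped ENNReal Topology
open MeasureTheory Filter Set

namespace Pool.Agent.Helper228.CkInt

/-- The class `F^k_d(D)`: functions `f` that are `k` times continuously differentiable on the
interior of `D`, satisfy `|f| ≤ 1` on `D`, and for which every mixed coordinate derivative of
order `m ≤ k` is bounded by `1` in absolute value on the interior of `D`. The mixed derivative in
the coordinate directions `j 0, …, j (m-1)` is the value of the `m`-th iterated Frechet derivative
at the coordinate unit vectors `Pi.single (j i) 1`. -/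
def smoothClass {d : ℕ} (k : ℕ) (D : Set (Fin d → ℝ)) : Set ((Fin d → ℝ) → ℝ) :=
  {f | ContDiffOn ℝ k f (interior D) ∧ (∀ x ∈ D, |f x| ≤ 1) ∧
    ∀ m ≤ k, ∀ j : Fin m → Fin d, ∀ x ∈ interior D,
      |iteratedFDeriv ℝ m f x (fun i => Pi.single (j i) 1)| ≤ 1}

/-- The `n`-th minimal worst case error of integration over `D` for the class `F`: infimum over
points `x 0, …, x (n-1)` of `D` and over all maps `φ : ℝ^n → ℝ` of the supremum over `f ∈ F` of
`|∫_D f - φ (f (x 0), …, f (x (n-1)))|`, with values in `[0, ∞]`. -/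
noncomputable def minError {d : ℕ} (D : Set (Fin d → ℝ)) (F : Set ((Fin d → ℝ) → ℝ)) (n : ℕ) :
    ℝ≥0∞ :=
  ⨅ (x : Fin n → D) (φ : (Fin n → ℝ) → ℝ), ⨆ f ∈ F,
    ENNReal.ofReal |(∫ y in D, f y) - φ (fun i => f (x i))|

/-- `D` is bounded and Jordan measurable (its frontier is a Lebesgue null set), and its Lebesgue
measure is `1`. -/
def UnitJordan {d : ℕ} (D : Set (Fin d → ℝ)) : Prop :=
  Bornology.IsBounded D ∧ volume (frontier D) = 0 ∧ volume D = 1

/-- Interior cone condition: there are `r, c > 0` such that every point `x` of the interior of `D`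
is the vertex of a truncated cone `{x + t (v + c u) : 0 < t ≤ r, ‖u‖ ≤ 1}`, with an axis
direction `v` of norm `1` that may depend on `x`, contained in the interior of `D`. -/
def InteriorCone {d : ℕ} (D : Set (Fin d → ℝ)) : Prop :=
  ∃ r > 0, ∃ c > 0, ∀ x ∈ interior D, ∃ v : Fin d → ℝ, ‖v‖ = 1 ∧
    ∀ t, 0 < t → t ≤ r → Metric.closedBall (x + t • v) (c * t) ⊆ interior D

/-- The scaled error `e(n, F^k_d(D)) · n^(k/d)`. -/
noncomputable def scaledError {d : ℕ} (k : ℕ) (D : Set (Fin d → ℝ)) (n : ℕ) : ℝ :=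
  (minError D (smoothClass k D) n).toReal * (n : ℝ) ^ ((k : ℝ) / d)

end Pool.Agent.Helper228.CkInt
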