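import Pool.Agent.Helper228.CkInt.D

open scoped ENNReal NNReal Topology
open MeasureTheory Filter Set

namespace Pool.Agent.Helper228.CkInt

/-- open unit cube -/
def cube (d : ℕ) : Set (E d) := {y | ∀ i, 0 < y i ∧ y i < 1}

theorem cube_eq (d : ℕ) : cube d = Set.pi univ (fun _ => Ioo (0:ℝ) 1) := by
  ext y; simp [cube, Set.mem_pi]

theorem isOpen_cube (d : ℕ) : IsOpen (cube d) := by
  rw [cube_eq]; exact isOpen_set_pi finite_univ (fun _ _ => isOpen_Ioo)

theorem volume_cube (d : ℕ) : volume (cube d) = 1 := by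
  rw [cube_eq, Real.volume_pi_Ioo]; simp

theorem cube_subset_Icc (d : ℕ) : cube d ⊆ Icc (0 : E d) 1 := fun y hy =>
  ⟨fun i => (hy i).1.le, fun i => (hy i).2.le⟩

/-- compactly supported competitors on the unit cube -/
def G (d k : ℕ) : Set (E d → ℝ) :=
  {g | ContDiff ℝ k g ∧ tsupport g ⊆ cube d ∧ ∀ j : Fin k → Fin d, ∀ x,
    |iteratedFDeriv ℝ k g x (fun i => Pi.single (j i) 1)| ≤ 1}

theorem iter_eq_zero {d m : ℕ} {g : E d → ℝ} (hs : tsupport g ⊆ cube d) {x : E d}
    (hx : x ∉ cube d) : iteratedFDeriv ℝ m g x = 0 := by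
  by_contra h
  exact hx (hs (support_iteratedFDeriv_subset m h))

theorem lower_orders {d k : ℕ} (hd : 1 ≤ d) {g : E d → ℝ} (hg : ContDiff ℝ k g)
    (hs : tsupport g ⊆ cube d) {B : ℝ} (hB : 0 ≤ B)
    (hk : ∀ j : Fin k → Fin d, ∀ x, |iteratedFDeriv ℝ k g x (fun i => Pi.single (j i) 1)| ≤ B)
    {m : ℕ} (hm : m ≤ k) (j : Fin m → Fin d) (x : E d) :
    |iteratedFDeriv ℝ m g x (fun i => Pi.single (j i) 1)| ≤ B := by
  have key : ∀ n, n ≤ k → ∀ j : Fin (k-n) → Fin d, ∀ x,
      |iteratedFDeriv ℝ (k-n) g x (fun i => Pi.single (j i) 1)| ≤ B := by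
    intro n
    induction n with
    | zero => intro _ j x; exact hk j x
    | succ n ih =>
      intro hn
      have ih' := ih (by omega)
      set m := k - (n+1) with hmdef
      have hm1 : k - n = m + 1 := by omega
      rw [hm1] at ih'
      intro j x
      by_cases hx : x ∈ cube d
      · set i0 : Fin d := ⟨0, hd⟩ with hi0
        set e : E d := Pi.single i0 1 with he
        set v : Fin m → E d := fun i => Pi.single (j i) 1 with hv
        have hder : ∀ t : ℝ, HasDerivAt (fun t : ℝ => iteratedFDeriv ℝ m g (x + t • e) v)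
            (iteratedFDeriv ℝ (m+1) g (x + t • e)
              (fun i => Pi.single ((Fin.cons i0 j : Fin (m+1) → Fin d) i) 1)) t := by
          intro t
          have h1 : DifferentiableAt ℝ (iteratedFDeriv ℝ m g) (x + t • e) :=
            hg.contDiffAt.differentiableAt_iteratedFDeriv
              (by exact_mod_cast (show m < k by omega))
          have h2 : HasDerivAt (fun t : ℝ => x + t • e) e t := by
            have := ((hasDerivAt_id t).smul_const e).const_add x
            simpa using this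
          have h3 := h1.hasFDerivAt.comp_hasDerivAt t h2
          have h4 := (ContinuousMultilinearMap.apply ℝ (fun _ : Fin m => E d) ℝ v).hasFDerivAt
            (x := iteratedFDeriv ℝ m g (x + t • e))
          have h5 := h4.comp_hasDerivAt t h3
          refine HasDerivAt.congr_deriv (f' := ((fderiv ℝ (iteratedFDeriv ℝ m g) (x + t • e)) e) v)
            h5 ?_
          rw [iteratedFDeriv_succ_apply_left]
          congr 1
        have h6 := Convex.norm_image_sub_le_of_norm_hasDerivWithin_le (C := B)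
          (fun t (_ : t ∈ (univ : Set ℝ)) => (hder t).hasDerivWithinAt)
          (fun t _ => ih' (Fin.cons i0 j) (x + t • e)) convex_univ (mem_univ (- x i0))
          (mem_univ 0)
        have hx' : x + (- x i0) • e ∉ cube d := by
          intro h
          have := (h i0).1
          simp [he] at this
        rw [iter_eq_zero hs hx'] at h6
        simp only [zero_smul, add_zero, _root_.zero_apply, sub_zero,
          zero_sub, norm_neg, neg_neg, Real.norm_eq_abs] at h6
        refine h6.trans ?_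
        have := hx i0
        rw [abs_of_pos this.1]
        nlinarith [this.2]
      · rw [iter_eq_zero hs hx]; simpa using hB
  have h1 := key (k-m) (by omega)
  rw [show k - (k - m) = m by omega] at h1
  exact h1 j x

theorem G_abs_le {d k : ℕ} (hd : 1 ≤ d) {g : E d → ℝ} (hg : g ∈ G d k) (x : E d) :
    |g x| ≤ 1 := by
  have := lower_orders hd hg.1 hg.2.1 zero_le_one hg.2.2 (Nat.zero_le k) (fun i => i.elim0) x
  simpa using this

theorem zero_mem_G (d k : ℕ) : (fun _ => 0 : E d → ℝ) ∈ G d k := by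
  refine ⟨contDiff_const, ?_, fun j x => ?_⟩
  · have : tsupport (fun _ => 0 : E d → ℝ) = ∅ := tsupport_eq_empty_iff.2 rfl
    rw [this]; exact empty_subset _
  · have : iteratedFDeriv ℝ k (fun _ => 0 : E d → ℝ) = 0 := iteratedFDeriv_fun_zero
    rw [this]; simp

theorem G_compact {d k : ℕ} {g : E d → ℝ} (hg : g ∈ G d k) : HasCompactSupport g :=
  (isCompact_Icc (a := (0 : E d)) (b := 1)).of_isClosed_subset (isClosed_tsupport g)
    (hg.2.1.trans (cube_subset_Icc d))

theorem G_integrable {d k : ℕ} {g : E d → ℝ} (hg : g ∈ G d k) : Integrable g :=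
  hg.1.continuous.integrable_of_hasCompactSupport (G_compact hg)

theorem G_integral_eq {d : ℕ} {g : E d → ℝ} (hg : tsupport g ⊆ cube d) :
    ∫ y, g y = ∫ y in cube d, g y := by
  rw [setIntegral_eq_integral_of_forall_compl_eq_zero]
  intro x hx
  by_contra h
  exact hx (hg (subset_tsupport g h))

theorem integral_abs_le {d : ℕ} {g : E d → ℝ} (hg : tsupport g ⊆ cube d) {B : ℝ}
    (hB : ∀ x, |g x| ≤ B) : |∫ y, g y| ≤ B := by
  rw [G_integral_eq hg]
  have h1 : volume (cube d) < ⊤ := by rw [volume_cube]; simp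
  have := norm_setIntegral_le_of_norm_le_const (μ := volume) (f := g) h1 (fun x _ => hB x)
  rw [measureReal_def, volume_cube] at this
  simpa using this

/-- radius of information for the zero-boundary class, for the point set `P` -/
noncomputable def r0 (d k : ℕ) (P : Finset (E d)) : ℝ :=
  sSup {I : ℝ | ∃ g ∈ G d k, (∀ x ∈ P, g x = 0) ∧ I = ∫ y, g y}

theorem r0_bdd {d k : ℕ} (hd : 1 ≤ d) (P : Finset (E d)) :
    BddAbove {I : ℝ | ∃ g ∈ G d k, (∀ x ∈ P, g x = 0) ∧ I = ∫ y, g y} := by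
  refine ⟨1, ?_⟩
  rintro I ⟨g, hg, _, rfl⟩
  exact (le_abs_self _).trans (integral_abs_le hg.2.1 (G_abs_le hd hg))

theorem le_r0 {d k : ℕ} (hd : 1 ≤ d) {P : Finset (E d)} {g : E d → ℝ} (hg : g ∈ G d k)
    (hP : ∀ x ∈ P, g x = 0) : ∫ y, g y ≤ r0 d k P :=
  le_csSup (r0_bdd hd P) ⟨g, hg, hP, rfl⟩

theorem r0_nonneg {d k : ℕ} (hd : 1 ≤ d) (P : Finset (E d)) : 0 ≤ r0 d k P := by
  have := le_r0 hd (zero_mem_G d k) (P := P) (fun _ _ => rfl)
  simpa using this

theorem r0_le {d k : ℕ} {P : Finset (E d)} {B : ℝ}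
    (h : ∀ g ∈ G d k, (∀ x ∈ P, g x = 0) → ∫ y, g y ≤ B) : r0 d k P ≤ B := by
  refine csSup_le ⟨0, fun _ => 0, zero_mem_G d k, fun _ _ => rfl, by simp⟩ ?_
  rintro I ⟨g, hg, hP, rfl⟩
  exact h g hg hP

theorem exists_r0 {d k : ℕ} (P : Finset (E d)) {η : ℝ} (hη : 0 < η) :
    ∃ g ∈ G d k, (∀ x ∈ P, g x = 0) ∧ r0 d k P - η < ∫ y, g y := by
  obtain ⟨I, ⟨g, hg, hP, rfl⟩, h⟩ := exists_lt_of_lt_csSup
    (s := {I : ℝ | ∃ g ∈ G d k, (∀ x ∈ P, g x = 0) ∧ I = ∫ y, g y})
    ⟨0, fun _ => 0, zero_mem_G d k, fun _ _ => rfl, by simp⟩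
    (show r0 d k P - η < sSup _ from sub_lt_self _ hη)
  exact ⟨g, hg, hP, h⟩

/-- minimal radius with at most `n` points -/
noncomputable def e0 (d k n : ℕ) : ℝ :=
  sInf {r : ℝ | ∃ P : Finset (E d), P.card ≤ n ∧ r = r0 d k P}

theorem e0_le {d k n : ℕ} (hd : 1 ≤ d) {P : Finset (E d)} (hP : P.card ≤ n) :
    e0 d k n ≤ r0 d k P :=
  csInf_le ⟨0, by rintro r ⟨P, _, rfl⟩; exact r0_nonneg hd P⟩ ⟨P, hP, rfl⟩

theorem e0_nonneg {d k : ℕ} (hd : 1 ≤ d) (n : ℕ) : 0 ≤ e0 d k n :=
  le_csInf ⟨_, ∅, by simp, rfl⟩ (by rintro r ⟨P, _, rfl⟩; exact r0_nonneg hd P)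

theorem e0_anti {d k : ℕ} (hd : 1 ≤ d) {m n : ℕ} (h : m ≤ n) : e0 d k n ≤ e0 d k m := by
  refine le_csInf ⟨_, ∅, by simp, rfl⟩ ?_
  rintro r ⟨P, hP, rfl⟩
  exact e0_le hd (hP.trans h)

theorem exists_e0 {d k n : ℕ} {c : ℝ} (h : e0 d k n < c) :
    ∃ P : Finset (E d), P.card ≤ n ∧ r0 d k P < c := by
  obtain ⟨r, ⟨P, hP, rfl⟩, h⟩ := exists_lt_of_csInf_lt
    (s := {r : ℝ | ∃ P : Finset (E d), P.card ≤ n ∧ r = r0 d k P}) ⟨_, ∅, by simp, rfl⟩ h
  exact ⟨P, hP, h⟩

end Pool.Agent.Helper228.CkInt
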