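import Pool.Agent.Helper228.CkInt.F

open scoped ENNReal NNReal Topology
open MeasureTheory Filter Set

namespace Pool.Agent.Helper228.CkInt

theorem iter_scale {d m : ℕ} {f : E d → ℝ} {s : ℝ} (hs : s ≠ 0) (c : ℝ) (z y : E d)
    (hf : ContDiffAt ℝ m f (s • (y + z))) (v : Fin m → E d) :
    iteratedFDeriv ℝ m (fun y => c * f (s • (y + z))) y v
      = c * s ^ m * iteratedFDeriv ℝ m f (s • (y + z)) v := by
  -- the linear equivalence `y ↦ s • y`
  let L : E d ≃L[ℝ] E d := ContinuousLinearEquiv.smulLeft (Units.mk0 s hs)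
  have hL : ∀ y, L y = s • y := fun y => rfl
  have h1 : iteratedFDeriv ℝ m (fun y => f (s • y)) (y + z)
      = (iteratedFDeriv ℝ m f (s • (y + z))).compContinuousLinearMap fun _ => (L : E d →L[ℝ] E d) := by
    have := L.iteratedFDerivWithin_comp_right f (s := univ) uniqueDiffOn_univ (x := y + z)
      (mem_univ _) m
    simp only [preimage_univ, iteratedFDerivWithin_univ] at this
    exact this
  have h2 : ContDiffAt ℝ m (fun y => f (s • (y + z))) y := by
    refine ContDiffAt.comp y hf ?_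
    exact (contDiffAt_id.add contDiffAt_const).const_smul s
  have h3 : iteratedFDeriv ℝ m (fun y => c * f (s • (y + z))) y
      = c • iteratedFDeriv ℝ m (fun y => f (s • (y + z))) y :=
    iteratedFDeriv_const_smul_apply (𝕜 := ℝ) (i := m) (a := c) (x := y) h2
  have h4 : iteratedFDeriv ℝ m (fun y => f (s • (y + z))) y
      = iteratedFDeriv ℝ m (fun y => f (s • y)) (y + z) :=
    iteratedFDeriv_comp_add_right (𝕜 := ℝ) (f := fun y => f (s • y)) m z y
  rw [h3, h4, h1]
  simp only [_root_.smul_apply, smul_eq_mul, ContinuousMultilinearMap.compContinuousLinearMap_apply]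
  have h5 := (iteratedFDeriv ℝ m f (s • (y + z))).map_smul_univ (fun _ => s) v
  simp only [Finset.prod_const, Finset.card_univ, Fintype.card_fin, smul_eq_mul] at h5
  have h6 : (iteratedFDeriv ℝ m f (s • (y + z))) (fun i => (L : E d →L[ℝ] E d) (v i))
      = s ^ m * iteratedFDeriv ℝ m f (s • (y + z)) v := h5
  rw [h6]; ring

theorem norm_iter_scale {d m : ℕ} {f : E d → ℝ} {s : ℝ} (hs : 0 < s) {c : ℝ} (hc : 0 ≤ c) (z y : E d)
    (hf : ContDiffAt ℝ m f (s • (y + z))) :
    ‖iteratedFDeriv ℝ m (fun y => c * f (s • (y + z))) y‖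
      ≤ c * s ^ m * ‖iteratedFDeriv ℝ m f (s • (y + z))‖ := by
  refine ContinuousMultilinearMap.opNorm_le_bound (by positivity) (fun v => ?_)
  rw [iter_scale hs.ne' c z y hf v, norm_mul, norm_mul, norm_pow, Real.norm_of_nonneg hc,
    Real.norm_of_nonneg hs.le, mul_assoc (c * s^m)]
  exact mul_le_mul_of_nonneg_left ((iteratedFDeriv ℝ m f (s • (y + z))).le_opNorm v) (by positivity)

/-! cells -/

/-- half-open cell -/
def cell {d : ℕ} (s : ℝ) (z : Fin d → ℤ) : Set (E d) :=
  {x | ∀ i, s * z i ≤ x i ∧ x i < s * (z i + 1)}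

/-- closed cell -/
def ccell {d : ℕ} (s : ℝ) (z : Fin d → ℤ) : Set (E d) :=
  {x | ∀ i, s * z i ≤ x i ∧ x i ≤ s * (z i + 1)}

theorem cell_subset_ccell {d : ℕ} (s : ℝ) (z : Fin d → ℤ) : cell s z ⊆ ccell s z :=
  fun _ hx i => ⟨(hx i).1, (hx i).2.le⟩

/-- index of the cell -/
noncomputable def idx {d : ℕ} (s : ℝ) (x : E d) : Fin d → ℤ := fun i => ⌊x i / s⌋

theorem mem_cell_iff {d : ℕ} {s : ℝ} (hs : 0 < s) {z : Fin d → ℤ} {x : E d} :
    x ∈ cell s z ↔ idx s x = z := by
  constructor
  · intro h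
    funext i
    rw [idx, Int.floor_eq_iff, le_div_iff₀ hs, div_lt_iff₀ hs]
    have := h i
    constructor <;> linarith [this.1, this.2]
  · rintro rfl i
    have h1 := Int.floor_le (x i / s)
    have h2 := Int.lt_floor_add_one (x i / s)
    rw [le_div_iff₀ hs] at h1
    rw [div_lt_iff₀ hs] at h2
    simp only [idx]
    constructor <;> linarith

theorem cell_eq {d : ℕ} (s : ℝ) (z : Fin d → ℤ) :
    cell s z = Set.pi univ (fun i => Ico (s * z i) (s * (z i + 1))) := by
  ext y; simp [cell, Set.mem_pi]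

theorem measurableSet_cell {d : ℕ} (s : ℝ) (z : Fin d → ℤ) : MeasurableSet (cell s z) := by
  rw [cell_eq]; exact MeasurableSet.univ_pi (fun _ => measurableSet_Ico)

theorem volume_cell {d : ℕ} {s : ℝ} (hs : 0 < s) (z : Fin d → ℤ) :
    volume (cell s z) = ENNReal.ofReal (s ^ d) := by
  rw [cell_eq, Real.volume_pi_Ico]
  have : ∀ i, s * ((z i : ℝ) + 1) - s * z i = s := fun i => by ring
  simp only [this, Finset.prod_const, Finset.card_univ, Fintype.card_fin]
  rw [ENNReal.ofReal_pow hs.le]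

theorem cell_disj {d : ℕ} {s : ℝ} (hs : 0 < s) {z z' : Fin d → ℤ} (h : z ≠ z') :
    Disjoint (cell s z) (cell s z') := by
  rw [Set.disjoint_left]
  intro x h1 h2
  rw [mem_cell_iff hs] at h1 h2
  exact h (h1.symm.trans h2)

theorem volume_cells {d : ℕ} {s : ℝ} (hs : 0 < s) (Z : Finset (Fin d → ℤ)) :
    volume (⋃ z ∈ Z, cell s z) = ENNReal.ofReal (Z.card * s ^ d) := by
  rw [measure_biUnion_finset (fun a _ b _ hab => cell_disj hs hab)
    (fun z _ => measurableSet_cell s z)]
  simp only [volume_cell hs, Finset.sum_const, nsmul_eq_mul]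
  rw [ENNReal.ofReal_mul (by positivity)]
  simp

theorem card_mul_le {d : ℕ} {s : ℝ} (hs : 0 < s) (Z : Finset (Fin d → ℤ)) {W : Set (E d)}
    {V : ℝ} (hV : 0 ≤ V) (hW : volume W ≤ ENNReal.ofReal V) (h : ∀ z ∈ Z, cell s z ⊆ W) :
    Z.card * s ^ d ≤ V := by
  have h1 : volume (⋃ z ∈ Z, cell s z) ≤ volume W :=
    measure_mono (iUnion₂_subset h)
  rw [volume_cells hs] at h1
  exact (ENNReal.ofReal_le_ofReal_iff hV).1 (h1.trans hW)

theorem dist_ccell {d : ℕ} {s : ℝ} (hs : 0 < s) {z : Fin d → ℤ} {x y : E d} (hx : x ∈ ccell s z)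
    (hy : y ∈ ccell s z) : dist x y ≤ s := by
  rw [dist_pi_le_iff hs.le]
  intro i
  rw [Real.dist_eq, abs_le]
  have a1 := hx i
  have a2 := hy i
  constructor <;> nlinarith [a1.1, a1.2, a2.1, a2.2]

/-- a point of an open set at distance `≤ s` of a point outside is near the frontier -/
theorem near_frontier {d : ℕ} {D : Set (E d)} {x y : E d} (hx : x ∈ interior D)
    (hy : y ∉ interior D) : x ∈ Metric.cthickening (dist x y) (frontier D) := by
  have h1 : IsPreconnected (segment ℝ x y) := (convex_segment x y).isPreconnected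
  obtain ⟨p, hp1, hp2⟩ : ∃ p ∈ segment ℝ x y, p ∈ frontier (interior D) := by
    by_contra hcon
    push Not at hcon
    have h2 : segment ℝ x y ⊆ interior D ∪ (closure (interior D))ᶜ := by
      intro p hp
      by_cases hpc : p ∈ closure (interior D)
      · left
        by_contra hpi
        exact hcon p hp ⟨hpc, by rwa [interior_interior]⟩
      · right; exact hpc
    have h3 : y ∉ closure (interior D) := fun hyc =>
      hcon y (right_mem_segment ℝ x y) ⟨hyc, by rwa [interior_interior]⟩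
    obtain ⟨p, _, hp1, hp2⟩ := h1 _ _ isOpen_interior isClosed_closure.isOpen_compl h2
      ⟨x, left_mem_segment ℝ x y, hx⟩ ⟨y, right_mem_segment ℝ x y, h3⟩
    exact hp2 (subset_closure hp1)
  have hp3 : p ∈ frontier D := frontier_interior_subset hp2
  refine Metric.mem_cthickening_of_dist_le x p _ _ hp3 ?_
  have := dist_add_dist_of_mem_segment hp1
  linarith [dist_nonneg (x := p) (y := y)]

theorem finite_cells {d : ℕ} {s : ℝ} (hs : 0 < s) {D : Set (E d)} (hb : Bornology.IsBounded D) :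
    {z : Fin d → ℤ | (cell s z ∩ D).Nonempty}.Finite := by
  obtain ⟨R, hR⟩ := hb.subset_closedBall 0
  refine Set.Finite.subset (Set.Finite.pi' (fun _ : Fin d => Set.finite_Icc (⌊-R/s⌋) (⌊R/s⌋))) ?_
  rintro z ⟨x, hx, hxD⟩ i
  have h1 := hR hxD
  rw [mem_closedBall_zero_iff, pi_norm_le_iff_of_nonneg] at h1
  · have h2 := abs_le.1 (h1 i)
    rw [mem_cell_iff hs] at hx
    rw [← hx]
    simp only [idx]
    constructor
    · apply Int.floor_le_floor
      gcongr
      exact h2.1
    · apply Int.floor_le_floor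
      gcongr
      exact h2.2
  · exact (norm_nonneg x).trans (by simpa using hR hxD)

/-- indices of closed cells inside the interior of `D` -/
noncomputable def core {d : ℕ} (s : ℝ) (D : Set (E d)) : Set (Fin d → ℤ) :=
  {z | ccell s z ⊆ interior D}

theorem corner_mem {d : ℕ} {s : ℝ} (hs : 0 < s) (z : Fin d → ℤ) :
    (fun i => s * (z i : ℝ)) ∈ cell s z := fun i => ⟨le_rfl, by nlinarith⟩

theorem core_finite {d : ℕ} {s : ℝ} (hs : 0 < s) {D : Set (E d)} (hb : Bornology.IsBounded D) :
    (core s D).Finite := by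
  refine (finite_cells hs hb).subset (fun z hz => ?_)
  exact ⟨_, corner_mem hs z, interior_subset (hz (cell_subset_ccell s z (corner_mem hs z)))⟩

/-- not covered by core cells -/
theorem uncovered {d : ℕ} {s : ℝ} (hs : 0 < s) {D : Set (E d)} {x : E d} (hx : x ∈ interior D)
    (h : idx s x ∉ core s D) : x ∈ Metric.cthickening s (frontier D) := by
  have h1 : ∃ y ∈ ccell s (idx s x), y ∉ interior D := by
    by_contra hcon
    push Not at hcon
    exact h hcon
  obtain ⟨y, hy, hyD⟩ := h1
  have hx' : x ∈ ccell s (idx s x) := cell_subset_ccell _ _ ((mem_cell_iff hs).2 rfl)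
  exact Metric.cthickening_mono (dist_ccell hs hx' hy) _ (near_frontier hx hyD)

end Pool.Agent.Helper228.CkInt
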