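import Pool.Agent.Helper228.CkInt.H

open scoped ENNReal NNReal Topology
open MeasureTheory Filter Set

namespace Pool.Agent.Helper228.CkInt

/-- integer vector as a real vector -/
def zv {d : ℕ} (z : Fin d → ℤ) : E d := fun i => (z i : ℝ)

/-- the rescaled competitor living in the cell `z` -/
noncomputable def resc {d : ℕ} (k : ℕ) (s : ℝ) (z : Fin d → ℤ) (g : E d → ℝ) : E d → ℝ :=
  fun x => s ^ k * g (s⁻¹ • (x + -(s • zv z)))

theorem mem_cube_idx {d : ℕ} {s : ℝ} (hs : 0 < s) {z : Fin d → ℤ} {x : E d}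
    (h : s⁻¹ • (x + -(s • zv z)) ∈ cube d) : idx s x = z := by
  rw [← mem_cell_iff hs]
  intro i
  have := h i
  simp only [Pi.smul_apply, Pi.add_apply, Pi.neg_apply, smul_eq_mul, zv] at this
  rw [inv_mul_eq_div, lt_div_iff₀ hs, div_lt_iff₀ hs] at this
  constructor <;> nlinarith [this.1, this.2]

theorem resc_contDiff {d k : ℕ} {s : ℝ} {z : Fin d → ℤ} {g : E d → ℝ}
    (hg : ContDiff ℝ k g) : ContDiff ℝ k (resc k s z g) := by
  refine contDiff_const.mul (hg.comp ?_)
  exact (contDiff_id.add contDiff_const).const_smul _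

theorem resc_iter {d k m : ℕ} {s : ℝ} (hs : 0 < s) {z : Fin d → ℤ} {g : E d → ℝ}
    (hg : ContDiff ℝ k g) (hm : m ≤ k) (x : E d) (v : Fin m → E d) :
    iteratedFDeriv ℝ m (resc k s z g) x v
      = s ^ (k-m) * iteratedFDeriv ℝ m g (s⁻¹ • (x + -(s • zv z))) v := by
  have h := iter_scale (f := g) (inv_ne_zero hs.ne') (s^k) (-(s • zv z)) x
    ((hg.of_le (by exact_mod_cast hm)).contDiffAt) v
  have e : s ^ (k-m) = s^k * (s⁻¹)^m := by
    rw [inv_pow, pow_sub₀ s hs.ne' hm]
  rw [e]
  exact h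

theorem resc_integral {d k : ℕ} {s : ℝ} (hs : 0 < s) {z : Fin d → ℤ} {g : E d → ℝ} :
    ∫ x, resc k s z g x = s ^ k * (s ^ d * ∫ y, g y) := by
  unfold resc
  rw [integral_const_mul]
  congr 1
  have h1 : ∫ x : E d, g (s⁻¹ • (x + -(s • zv z))) = ∫ x : E d, g (s⁻¹ • x) :=
    integral_add_right_eq_self (μ := (volume : Measure (E d))) (fun x => g (s⁻¹ • x)) _
  rw [h1, Measure.integral_comp_smul]
  simp [abs_of_pos hs]

/-- the superposition lemma: lower bound for the error -/
theorem superpose {d k n : ℕ} (hd : 1 ≤ d) {D : Set (E d)} {s : ℝ}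
    (hs : 0 < s) (hs1 : s ≤ 1) (Z : Finset (Fin d → ℤ)) (hZ : ∀ z ∈ Z, ccell s z ⊆ interior D)
    {b : ℝ} (hb : ∀ ν : (Fin d → ℤ) → ℕ, ∑ z ∈ Z, ν z ≤ n →
      b < s ^ k * (s ^ d * ∑ z ∈ Z, e0 d k (ν z))) :
    ENNReal.ofReal b ≤ minError D (smoothClass k D) n := by
  classical
  refine lower_radius (fun x => ?_)
  -- the number of points per cell
  let S : (Fin d → ℤ) → Finset (Fin n) := fun z => Finset.univ.filter (fun i => idx s (x i : E d) = z)
  let ν : (Fin d → ℤ) → ℕ := fun z => (S z).card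
  have hν : ∑ z ∈ Z, ν z ≤ n := by
    have h1 : ∑ z ∈ Z, ν z = (Z.biUnion S).card := by
      rw [Finset.card_biUnion]
      intro a _ b _ hab
      rw [Function.onFun, Finset.disjoint_left]
      intro i hi hi'
      simp only [S, Finset.mem_filter, Finset.mem_univ, true_and] at hi hi'
      exact hab (hi.symm.trans hi')
    rw [h1]
    simpa using Finset.card_le_univ (Z.biUnion S)
  have hb' := hb ν hν
  let P : (Fin d → ℤ) → Finset (E d) := fun z =>
    (S z).image (fun i => s⁻¹ • ((x i : E d) + -(s • zv z)))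
  have hP : ∀ z, (P z).card ≤ ν z := fun z => Finset.card_image_le
  -- choose `η`
  obtain ⟨η, hη, hη2⟩ : ∃ η > 0, b ≤ s ^ k * (s ^ d * (∑ z ∈ Z, e0 d k (ν z) - Z.card * η)) := by
    set T := ∑ z ∈ Z, e0 d k (ν z) with hT
    have hpos : 0 < s ^ k * s ^ d * (Z.card + 1) := by positivity
    refine ⟨(s ^ k * (s ^ d * T) - b) / (s ^ k * s ^ d * (Z.card + 1)),
      div_pos (by linarith) hpos, ?_⟩
    have h1 : s ^ k * s ^ d * Z.card * ((s ^ k * (s ^ d * T) - b) / (s ^ k * s ^ d * (Z.card + 1)))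
        ≤ s ^ k * (s ^ d * T) - b := by
      rw [← mul_div_assoc, div_le_iff₀ hpos]
      have : 0 ≤ s ^ k * s ^ d := by positivity
      nlinarith
    linarith
  have hex : ∀ z, ∃ g ∈ G d k, (∀ y ∈ P z, g y = 0) ∧ r0 d k (P z) - η < ∫ y, g y :=
    fun z => exists_r0 (P z) hη
  choose g hgG hgP hgI using hex
  set f : E d → ℝ := fun y => ∑ z ∈ Z, resc k s z (g z) y with hf
  have hsupp : ∀ z y, idx s y ≠ z → ∀ m ≤ k, ∀ v : Fin m → E d,
      iteratedFDeriv ℝ m (resc k s z (g z)) y v = 0 := by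
    intro z y hy m hm v
    rw [resc_iter hs (hgG z).1 hm, iter_eq_zero (hgG z).2.1 (fun h => hy (mem_cube_idx hs h))]
    simp
  have hsupp0 : ∀ z y, idx s y ≠ z → resc k s z (g z) y = 0 := by
    intro z y hy
    have := hsupp z y hy 0 (Nat.zero_le _) (fun i => i.elim0)
    simpa using this
  have hbound : ∀ m ≤ k, ∀ j : Fin m → Fin d, ∀ y,
      |iteratedFDeriv ℝ m f y (fun i => Pi.single (j i) 1)| ≤ 1 := by
    intro m hm j y
    have h1 : iteratedFDeriv ℝ m f y = ∑ z ∈ Z, iteratedFDeriv ℝ m (resc k s z (g z)) y := by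
      have := iteratedFDeriv_sum (𝕜 := ℝ) (i := m) (u := Z) (f := fun z => resc k s z (g z))
        (fun z _ => (resc_contDiff (hgG z).1).of_le (by exact_mod_cast hm))
      rw [hf, this, Finset.sum_apply]
    rw [h1, _root_.sum_apply]
    by_cases hy : idx s y ∈ Z
    · rw [Finset.sum_eq_single_of_mem _ hy (fun z _ hz => hsupp z y hz.symm m hm _)]
      rw [resc_iter hs (hgG _).1 hm, abs_mul, abs_of_nonneg (by positivity)]
      have h2 := lower_orders hd (hgG (idx s y)).1 (hgG _).2.1 zero_le_one (hgG _).2.2 hm j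
        (s⁻¹ • (y + -(s • zv (idx s y))))
      calc _ ≤ (1:ℝ) * 1 := mul_le_mul (pow_le_one₀ hs.le hs1) h2 (abs_nonneg _) zero_le_one
        _ = 1 := one_mul 1
    · rw [Finset.sum_eq_zero (fun z hz => hsupp z y (fun h => hy (h ▸ hz)) m hm _)]
      simp
  have hfF : f ∈ smoothClass k D := by
    refine ⟨?_, fun y _ => ?_, fun m hm j y _ => hbound m hm j y⟩
    · exact (ContDiff.sum (fun z _ => resc_contDiff (hgG z).1)).contDiffOn
    · have := hbound 0 (Nat.zero_le _) (fun i => i.elim0) y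
      simpa using this
  refine ⟨f, hfF, smoothClass_neg hfF, fun i => ?_, ?_⟩
  · refine Finset.sum_eq_zero (fun z _ => ?_)
    by_cases hz : idx s (x i : E d) = z
    · have : s⁻¹ • ((x i : E d) + -(s • zv z)) ∈ P z :=
        Finset.mem_image_of_mem _ (by simp [S, hz])
      simp only [resc, hgP z _ this, mul_zero]
    · exact hsupp0 z _ hz
  · have h1 : ∫ y in D, f y = ∑ z ∈ Z, ∫ y, resc k s z (g z) y := by
      rw [hf, integral_finsetSum]
      · refine Finset.sum_congr rfl (fun z hz => ?_)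
        refine setIntegral_eq_integral_of_forall_compl_eq_zero (fun y hy => hsupp0 z y (fun h => ?_))
        exact hy (interior_subset (hZ z hz (cell_subset_ccell _ _ ((mem_cell_iff hs).2 h))))
      · intro z _
        refine Integrable.integrableOn ?_
        refine (resc_contDiff (hgG z).1).continuous.integrable_of_hasCompactSupport ?_
        have hI : IsCompact (ccell s z) := by
          have : ccell s z = Icc (fun i => s * (z i : ℝ)) (fun i => s * ((z i : ℝ) + 1)) := by
            ext y; simp only [ccell, mem_Icc, Pi.le_def, Set.mem_ofPred_eq]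
            exact forall_and
          rw [this]; exact isCompact_Icc
        refine HasCompactSupport.intro hI (fun y hy => hsupp0 z y (fun h => ?_))
        exact hy (cell_subset_ccell _ _ ((mem_cell_iff hs).2 h))
    rw [h1]
    simp only [resc_integral hs]
    rw [← Finset.mul_sum, ← Finset.mul_sum]
    refine hη2.trans ?_
    have h2 : ∑ z ∈ Z, e0 d k (ν z) - Z.card * η ≤ ∑ z ∈ Z, ∫ y, g z y := by
      rw [← nsmul_eq_mul, ← Finset.sum_const, ← Finset.sum_sub_distrib]
      refine Finset.sum_le_sum (fun z _ => ?_)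
      have := e0_le hd (hP z) (k := k)
      linarith [hgI z]
    gcongr

end Pool.Agent.Helper228.CkInt
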