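import Pool.Agent.Helper228.CkInt.I

open scoped ENNReal NNReal Topology
open MeasureTheory Filter Set

namespace Pool.Agent.Helper228.CkInt

theorem jensen_sum {ι : Type*} {Z : Finset ι} {t : ι → ℝ} (ht : ∀ z ∈ Z, 0 < t z) {A p : ℝ}
    (hA : 0 < A) (hp : 0 ≤ p) (hsum : ∑ z ∈ Z, t z ≤ Z.card * A) :
    Z.card * A ^ (-p) ≤ ∑ z ∈ Z, (t z) ^ (-p) := by
  have h1 : ∀ z ∈ Z, A ^ (-p) * (1 - p * (t z / A - 1)) ≤ (t z) ^ (-p) := by
    intro z hz
    have hu : 0 < t z / A := div_pos (ht z hz) hA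
    have e : (t z) ^ (-p) = A ^ (-p) * (t z / A) ^ (-p) := by
      rw [← Real.mul_rpow hA.le hu.le, mul_div_cancel₀ _ hA.ne']
    rw [e]
    refine mul_le_mul_of_nonneg_left ?_ (Real.rpow_nonneg hA.le _)
    rw [Real.rpow_def_of_pos hu]
    have h2 := Real.add_one_le_exp (Real.log (t z / A) * -p)
    have h3 := Real.log_le_sub_one_of_pos hu
    have h4 : p * Real.log (t z / A) ≤ p * (t z / A - 1) := mul_le_mul_of_nonneg_left h3 hp
    linarith
  refine le_trans ?_ (Finset.sum_le_sum h1)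
  rw [← Finset.mul_sum, mul_comm]
  refine mul_le_mul_of_nonneg_left ?_ (Real.rpow_nonneg hA.le _)
  rw [Finset.sum_sub_distrib, ← Finset.mul_sum, Finset.sum_sub_distrib, ← Finset.sum_div]
  simp only [Finset.sum_const, nsmul_eq_mul, mul_one]
  have h5 : (∑ z ∈ Z, t z) / A ≤ Z.card := by rwa [div_le_iff₀ hA]
  nlinarith

/-- volume of the closed thickening of the frontier -/
noncomputable def tau {d : ℕ} (D : Set (E d)) (s : ℝ) : ℝ :=
  (volume (Metric.cthickening s (frontier D))).toReal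

theorem frontier_compact {d : ℕ} {D : Set (E d)} (hb : Bornology.IsBounded D) :
    IsCompact (frontier D) :=
  Metric.isCompact_of_isClosed_isBounded isClosed_frontier
    (hb.closure.subset frontier_subset_closure)

theorem thick_lt_top {d : ℕ} {D : Set (E d)} (hb : Bornology.IsBounded D) (s : ℝ) :
    volume (Metric.cthickening s (frontier D)) < ⊤ :=
  ((frontier_compact hb).isBounded.cthickening).measure_lt_top

theorem tau_tendsto {d : ℕ} {D : Set (E d)} (hb : Bornology.IsBounded D)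
    (hJ : volume (frontier D) = 0) : Tendsto (tau D) (𝓝 0) (𝓝 0) := by
  have h1 := tendsto_measure_cthickening_of_isCompact (μ := (volume : Measure (E d)))
    (frontier_compact hb)
  rw [hJ] at h1
  have := (ENNReal.tendsto_toReal (by simp : (0:ℝ≥0∞) ≠ ⊤)).comp h1
  rw [ENNReal.toReal_zero] at this
  exact this

theorem tau_nonneg {d : ℕ} (D : Set (E d)) (s : ℝ) : 0 ≤ tau D s := ENNReal.toReal_nonneg

theorem volume_interior {d : ℕ} {D : Set (E d)} (hJ : volume (frontier D) = 0)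
    (hv : volume D = 1) : volume (interior D) = 1 := by
  rw [← hv]; exact (measure_congr (ae_interior hJ)).symm

theorem core_card_le {d : ℕ} {D : Set (E d)} {s : ℝ} (hs : 0 < s) (hb : Bornology.IsBounded D)
    (hJ : volume (frontier D) = 0) (hv : volume D = 1) :
    ((core_finite hs hb).toFinset.card : ℝ) * s ^ d ≤ 1 := by
  refine card_mul_le hs _ zero_le_one (W := interior D) ?_ ?_
  · rw [volume_interior hJ hv]; simp
  · intro z hz
    rw [Set.Finite.mem_toFinset] at hz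
    exact (cell_subset_ccell s z).trans hz

theorem core_card_ge {d : ℕ} {D : Set (E d)} {s : ℝ} (hs : 0 < s) (hb : Bornology.IsBounded D)
    (hJ : volume (frontier D) = 0) (hv : volume D = 1) :
    1 - tau D s ≤ ((core_finite hs hb).toFinset.card : ℝ) * s ^ d := by
  set Z := (core_finite hs hb).toFinset with hZ
  have h1 : interior D ⊆ (⋃ z ∈ Z, cell s z) ∪ Metric.cthickening s (frontier D) := by
    intro x hx
    by_cases h : idx s x ∈ core s D
    · left
      rw [Set.mem_iUnion₂]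
      exact ⟨idx s x, by rw [hZ, Set.Finite.mem_toFinset]; exact h, (mem_cell_iff hs).2 rfl⟩
    · right; exact uncovered hs hx h
  have h2 := (measure_mono h1).trans (measure_union_le (μ := (volume : Measure (E d))) _ _)
  rw [volume_interior hJ hv, volume_cells hs] at h2
  have h3 : volume (Metric.cthickening s (frontier D)) = ENNReal.ofReal (tau D s) :=
    (ENNReal.ofReal_toReal (thick_lt_top hb s).ne).symm
  rw [h3, ← ENNReal.ofReal_add (by positivity) (tau_nonneg D s)] at h2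
  have h4 := (ENNReal.one_le_ofReal).1 h2
  linarith

/-- side length as a function of `n` -/
noncomputable def side (d : ℕ) (L : ℝ) (n : ℕ) : ℝ := (L / n) ^ ((d : ℝ)⁻¹)

theorem side_pos {d : ℕ} {L : ℝ} (hL : 0 < L) {n : ℕ} (hn : 1 ≤ n) : 0 < side d L n := by
  have : (0:ℝ) < n := by exact_mod_cast hn
  exact Real.rpow_pos_of_pos (by positivity) _

theorem side_pow {d : ℕ} (hd : 1 ≤ d) {L : ℝ} (hL : 0 < L) (n : ℕ) :
    side d L n ^ d = L / n := by
  unfold side
  exact Real.rpow_inv_natCast_pow (by positivity) (by omega)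

theorem side_pow_k {d : ℕ} (k : ℕ) {L : ℝ} (hL : 0 < L) (n : ℕ) :
    side d L n ^ k = (L / n) ^ ((k:ℝ) / d) := by
  unfold side
  rw [← Real.rpow_natCast, ← Real.rpow_mul (by positivity)]
  congr 1; ring

theorem side_tendsto {d : ℕ} (hd : 1 ≤ d) (L : ℝ) : Tendsto (side d L) atTop (𝓝 0) := by
  have h1 : Tendsto (fun n : ℕ => L / (n:ℝ)) atTop (𝓝 0) :=
    tendsto_const_div_atTop_nhds_zero_nat L
  have h2 : (0:ℝ) < (d:ℝ)⁻¹ := by
    have : (0:ℝ) < d := by exact_mod_cast hd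
    positivity
  have h3 := h1.rpow_const (p := (d:ℝ)⁻¹) (Or.inr h2.le)
  rw [Real.zero_rpow h2.ne'] at h3
  exact h3

theorem mu_tendsto {d : ℕ} (hd : 1 ≤ d) {D : Set (E d)} (hb : Bornology.IsBounded D)
    (hJ : volume (frontier D) = 0) (L : ℝ) :
    Tendsto (fun n => tau D (side d L n)) atTop (𝓝 0) :=
  (tau_tendsto hb hJ).comp (side_tendsto hd L)

/-- lower bound, asymptotic form -/
theorem lower_asymp {d k : ℕ} (hd : 1 ≤ d) {D : Set (E d)} (hb : Bornology.IsBounded D)
    (hJ : volume (frontier D) = 0) (hv : volume D = 1) {c c' : ℝ} (hc : 0 < c) (hc' : c' < c)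
    {m0 : ℕ} (hm0 : 1 ≤ m0) (he : ∀ m, m0 ≤ m → c * (m:ℝ) ^ (-((k:ℝ)/d)) ≤ e0 d k m) :
    ∀ᶠ n : ℕ in atTop, ENNReal.ofReal (c' * (n:ℝ) ^ (-((k:ℝ)/d)))
      ≤ minError D (smoothClass k D) n := by
  set p : ℝ := (k:ℝ)/d with hp
  have hp0 : 0 ≤ p := by positivity
  -- choose `L`
  obtain ⟨L, hL, hLc⟩ : ∃ L : ℝ, 0 < L ∧ c' < c * (1 + m0 / L) ^ (-p) := by
    have h1 : Tendsto (fun L : ℝ => c * (1 + m0 / L) ^ (-p)) atTop (𝓝 (c * (1 + 0) ^ (-p))) := by
      refine Tendsto.const_mul c ?_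
      refine Tendsto.rpow_const (tendsto_const_nhds.add (tendsto_const_nhds.div_atTop tendsto_id))
        (Or.inl (by norm_num))
    have h2 : c' < c * (1 + 0) ^ (-p) := by simpa using hc'
    have h3 := (h1.eventually (lt_mem_nhds h2)).and (eventually_gt_atTop 0)
    obtain ⟨L, h4, h5⟩ := h3.exists
    exact ⟨L, h5, h4⟩
  have hm0' : (0:ℝ) < m0 := by exact_mod_cast hm0
  -- behaviour of `μ`
  have h1 : Tendsto (fun μ : ℝ => c * μ * (1 / μ + m0 / L) ^ (-p)) (𝓝 1)
      (𝓝 (c * 1 * (1 / 1 + m0 / L) ^ (-p))) := by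
    refine Tendsto.mul (tendsto_const_nhds.mul tendsto_id) ?_
    refine Tendsto.rpow_const ?_ (Or.inl (by positivity))
    exact (tendsto_const_nhds.div tendsto_id (by norm_num)).add tendsto_const_nhds
  have h2 : ∀ᶠ μ : ℝ in 𝓝 1, c' < c * μ * (1 / μ + m0 / L) ^ (-p) := by
    refine h1.eventually (lt_mem_nhds ?_)
    simpa using hLc
  obtain ⟨δ, hδ, hδ2⟩ := Metric.eventually_nhds_iff.1 h2
  have h3 : ∀ᶠ n : ℕ in atTop, tau D (side d L n) < min δ 1 := by
    refine (mu_tendsto hd hb hJ L).eventually (gt_mem_nhds (lt_min hδ zero_lt_one))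
  have h4 : ∀ᶠ n : ℕ in atTop, side d L n < 1 :=
    (side_tendsto hd L).eventually (gt_mem_nhds zero_lt_one)
  filter_upwards [h3, h4, eventually_ge_atTop 1] with n h3 h4 hn
  have hn0 : (0:ℝ) < n := by exact_mod_cast hn
  have hs := side_pos (d := d) hL hn
  set s := side d L n with hsdef
  set Z := (core_finite hs hb).toFinset with hZ
  have hu := core_card_le hs hb hJ hv
  have hl := core_card_ge hs hb hJ hv
  rw [← hZ] at hu hl
  set μ : ℝ := (Z.card : ℝ) * s ^ d with hμ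
  have hμ1 : dist μ 1 < δ := by
    rw [Real.dist_eq, abs_lt]
    have := lt_of_lt_of_le h3 (min_le_left _ _)
    constructor <;> linarith
  have hμ0 : 0 < μ := by
    have := lt_of_lt_of_le h3 (min_le_right _ _)
    linarith
  have hM0 : (0:ℝ) < Z.card := by
    by_contra hcon
    have : (Z.card : ℝ) = 0 := le_antisymm (not_lt.1 hcon) (Nat.cast_nonneg _)
    rw [hμ, this, zero_mul] at hμ0
    exact lt_irrefl _ hμ0
  have h5 := hδ2 hμ1
  refine superpose hd hs h4.le Z (fun z hz => by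
    rw [hZ, Set.Finite.mem_toFinset] at hz; exact hz) (fun ν hν => ?_)
  set A : ℝ := n / Z.card + m0 with hA
  have hA0 : 0 < A := by positivity
  have h6 : (Z.card : ℝ) * A ^ (-p) ≤ ∑ z ∈ Z, ((ν z : ℝ) + m0) ^ (-p) := by
    refine jensen_sum (fun z _ => by positivity) hA0 hp0 ?_
    rw [Finset.sum_add_distrib, Finset.sum_const, nsmul_eq_mul, hA, mul_add,
      mul_div_cancel₀ _ hM0.ne']
    have : (∑ z ∈ Z, (ν z : ℝ)) ≤ n := by exact_mod_cast hν
    linarith
  have h7 : c * ∑ z ∈ Z, ((ν z : ℝ) + m0) ^ (-p) ≤ ∑ z ∈ Z, e0 d k (ν z) := by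
    rw [Finset.mul_sum]
    refine Finset.sum_le_sum (fun z _ => ?_)
    have h8 := he (ν z + m0) (Nat.le_add_left _ _)
    push_cast at h8
    exact h8.trans (e0_anti hd (Nat.le_add_right _ _))
  have h8 : s ^ k * (s ^ d * (c * (Z.card * A ^ (-p)))) = c * μ * (1 / μ + m0 / L) ^ (-p)
      * (n:ℝ) ^ (-p) := by
    have e1 : A = L * (1 / μ + m0 / L) := by
      have e2 : s ^ d = L / n := side_pow hd hL n
      have e3 : (Z.card : ℝ) = μ * n / L := by
        rw [hμ, e2]; field_simp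
      rw [hA, e3]; field_simp
    have e4 : s ^ k = L ^ p * (n:ℝ) ^ (-p) := by
      rw [hsdef, side_pow_k k hL n, Real.div_rpow hL.le hn0.le, Real.rpow_neg hn0.le]
      rfl
    rw [e1, Real.mul_rpow hL.le (by positivity), e4, Real.rpow_neg hL.le]
    have e5 : L ^ p ≠ 0 := (Real.rpow_pos_of_pos hL p).ne'
    rw [hμ]
    field_simp
  have h9 : c' * (n:ℝ) ^ (-p) < c * μ * (1 / μ + m0 / L) ^ (-p) * (n:ℝ) ^ (-p) :=
    mul_lt_mul_of_pos_right h5 (Real.rpow_pos_of_pos hn0 _)
  rw [← h8] at h9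
  refine h9.trans_le ?_
  have h10 : c * (Z.card * A ^ (-p)) ≤ ∑ z ∈ Z, e0 d k (ν z) :=
    (mul_le_mul_of_nonneg_left h6 hc.le).trans h7
  gcongr

end Pool.Agent.Helper228.CkInt
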