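import Pool.Agent.Helper228.CkInt.J

open scoped ENNReal NNReal Topology
open MeasureTheory Filter Set

namespace Pool.Agent.Helper228.CkInt

/-- one dimensional cutoff -/
noncomputable def phi (w t : ℝ) : ℝ :=
  Real.smoothTransition (3 * t / w - 1) * Real.smoothTransition (3 * (1 - t) / w - 1)

/-- cutoff on the cube -/
noncomputable def chi (d : ℕ) (w : ℝ) (y : E d) : ℝ := ∏ i, phi w (y i)

theorem phi_nonneg (w t : ℝ) : 0 ≤ phi w t :=
  mul_nonneg (Real.smoothTransition.nonneg _) (Real.smoothTransition.nonneg _)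

theorem phi_le_one (w t : ℝ) : phi w t ≤ 1 :=
  mul_le_one₀ (Real.smoothTransition.le_one _) (Real.smoothTransition.nonneg _)
    (Real.smoothTransition.le_one _)

theorem phi_contDiff (w : ℝ) (n : ℕ) : ContDiff ℝ n (phi w) := by
  unfold phi
  refine ContDiff.mul ?_ ?_
  · exact Real.smoothTransition.contDiff.comp (by fun_prop)
  · exact Real.smoothTransition.contDiff.comp (by fun_prop)

theorem chi_contDiff (d : ℕ) (w : ℝ) (n : ℕ) : ContDiff ℝ n (chi d w) := by
  unfold chi
  refine contDiff_prod (fun i _ => ?_)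
  exact (phi_contDiff w n).comp (contDiff_apply ℝ ℝ i)

theorem chi_nonneg {d : ℕ} (w : ℝ) (y : E d) : 0 ≤ chi d w y :=
  Finset.prod_nonneg (fun _ _ => phi_nonneg w _)

theorem chi_le_one {d : ℕ} (w : ℝ) (y : E d) : chi d w y ≤ 1 :=
  Finset.prod_le_one (fun _ _ => phi_nonneg w _) (fun _ _ => phi_le_one w _)

theorem chi_eq_one {d : ℕ} {w : ℝ} (hw : 0 < w) {y : E d} (hy : ∀ i, w ≤ y i ∧ y i ≤ 1 - w) :
    chi d w y = 1 := by
  unfold chi
  refine Finset.prod_eq_one (fun i _ => ?_)
  unfold phi
  rw [Real.smoothTransition.one_of_one_le, Real.smoothTransition.one_of_one_le, mul_one]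
  · have := (hy i).2
    have : 2 ≤ 3 * (1 - y i) / w := by rw [le_div_iff₀ hw]; linarith
    linarith
  · have := (hy i).1
    have : 2 ≤ 3 * y i / w := by rw [le_div_iff₀ hw]; linarith
    linarith

theorem chi_tsupport {d : ℕ} {w : ℝ} (hw : 0 < w) : tsupport (chi d w) ⊆ cube d := by
  have h1 : tsupport (chi d w) ⊆ Icc (fun _ => w / 3) (fun _ => 1 - w / 3) := by
    refine closure_minimal ?_ isClosed_Icc
    intro y hy
    by_contra hcon
    apply hy
    have : ∃ i, y i < w / 3 ∨ 1 - w / 3 < y i := by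
      by_contra h
      push Not at h
      exact hcon ⟨fun i => (h i).1, fun i => (h i).2⟩
    obtain ⟨i, hi⟩ := this
    refine Finset.prod_eq_zero (Finset.mem_univ i) ?_
    unfold phi
    rcases hi with hi | hi
    · rw [Real.smoothTransition.zero_of_nonpos, zero_mul]
      have : 3 * y i / w ≤ 1 := by rw [div_le_one hw]; linarith
      linarith
    · rw [Real.smoothTransition.zero_of_nonpos (x := 3 * (1 - y i) / w - 1), mul_zero]
      have : 3 * (1 - y i) / w ≤ 1 := by rw [div_le_one hw]; linarith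
      linarith
  refine h1.trans (fun y hy i => ?_)
  have h2 := hy.1 i
  have h3 := hy.2 i
  simp only at h2 h3
  constructor <;> linarith

theorem chi_bound (d k : ℕ) {w : ℝ} (hw : 0 < w) :
    ∃ K : ℝ, 0 < K ∧ ∀ i ≤ k, ∀ y : E d, ‖iteratedFDeriv ℝ i (chi d w) y‖ ≤ K := by
  have h1 : HasCompactSupport (chi d w) :=
    (isCompact_Icc (a := (0 : E d)) (b := 1)).of_isClosed_subset (isClosed_tsupport _)
      ((chi_tsupport hw).trans (cube_subset_Icc d))
  have h2 : ∀ i : ℕ, ∃ C : ℝ, ∀ y, ‖iteratedFDeriv ℝ i (chi d w) y‖ ≤ C := by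
    intro i
    have h3 : Continuous (iteratedFDeriv ℝ i (chi d w)) :=
      (chi_contDiff d w i).continuous_iteratedFDeriv le_rfl
    exact h3.bounded_above_of_compact_support (h1.iteratedFDeriv (𝕜 := ℝ) i)
  choose C hC using h2
  refine ⟨1 + ∑ i ∈ Finset.range (k+1), |C i|, by positivity, fun i hi y => ?_⟩
  have h4 : |C i| ≤ ∑ i ∈ Finset.range (k+1), |C i| :=
    Finset.single_le_sum (f := fun i => |C i|) (fun i _ => abs_nonneg _) (Finset.mem_range.2 (by omega))
  have h5 := (hC i y).trans (le_abs_self _)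
  linarith

/-- cutting off costs little, if the function is small near the boundary of the unit cube -/
theorem cut_mem {d k : ℕ} (hd : 1 ≤ d) {w : ℝ} (hw : 0 < w) {K : ℝ}
    (hK : ∀ i ≤ k, ∀ y : E d, ‖iteratedFDeriv ℝ i (chi d w) y‖ ≤ K)
    {U : Set (E d)} (hU : IsOpen U) (hcU : cube d ⊆ U) {F : E d → ℝ} (hF : ContDiffOn ℝ k F U)
    (hk : ∀ x ∈ U, ∀ j : Fin k → Fin d,
      |iteratedFDeriv ℝ k F x (fun i => Pi.single (j i) 1)| ≤ 1)
    {a : ℝ} (ha0 : 0 ≤ a) (ha1 : a ≤ 1)
    (hlay : ∀ y ∈ cube d, (∃ i, y i ≤ w ∨ 1 - w ≤ y i) → ∀ m ≤ k,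
      ‖iteratedFDeriv ℝ m F y‖ ≤ (d:ℝ)^k * a^(k-m)) :
    ContDiff ℝ k (fun y => chi d w y * F y) ∧
    tsupport (fun y => chi d w y * F y) ⊆ cube d ∧
    ∀ j : Fin k → Fin d, ∀ x, |iteratedFDeriv ℝ k (fun y => chi d w y * F y) x
      (fun i => Pi.single (j i) 1)| ≤ 1 + (2 ^ k * K * (d:ℝ)^k) * a := by
  have hK0 : 0 ≤ K := (norm_nonneg _).trans (hK 0 (Nat.zero_le _) 0)
  have hloc : ∀ y, y ∉ tsupport (chi d w) → (fun y => chi d w y * F y) =ᶠ[𝓝 y] fun _ => 0 := by
    intro y hy
    filter_upwards [notMem_tsupport_iff_eventuallyEq.1 hy] with x hx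
    rw [hx]; simp
  have hts : tsupport (fun y => chi d w y * F y) ⊆ tsupport (chi d w) := by
    intro y hy
    by_contra hcon
    exact hy |> (notMem_tsupport_iff_eventuallyEq.2 (hloc y hcon))
  refine ⟨?_, hts.trans (chi_tsupport hw), fun j y => ?_⟩
  · rw [contDiff_iff_contDiffAt]
    intro y
    by_cases hy : y ∈ tsupport (chi d w)
    · have hyU : U ∈ 𝓝 y := hU.mem_nhds (hcU (chi_tsupport hw hy))
      exact ((chi_contDiff d w k).contDiffAt).mul (hF.contDiffAt hyU)
    · exact contDiffAt_const.congr_of_eventuallyEq (hloc y hy)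
  · have hpos : 0 ≤ 2 ^ k * K * (d:ℝ)^k * a := by positivity
    by_cases hyc : y ∈ cube d
    · have hyU := hcU hyc
      by_cases hlayer : ∃ i, y i ≤ w ∨ 1 - w ≤ y i
      · -- layer case
        have hl := hlay y hyc hlayer
        have hχ : ContDiffOn ℝ k (fun x => chi d w x - chi d w y) U :=
          ((chi_contDiff d w k).sub contDiff_const).contDiffOn
        have e1 : (fun x => chi d w x * F x)
            = (fun x => chi d w y • F x) + fun x => (chi d w x - chi d w y) * F x := by
          funext x; simp only [Pi.add_apply, smul_eq_mul]; ring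
        have hFy : ContDiffAt ℝ k F y := hF.contDiffAt (hU.mem_nhds hyU)
        have hRy : ContDiffAt ℝ k (fun x => (chi d w x - chi d w y) * F x) y :=
          (hχ.contDiffAt (hU.mem_nhds hyU)).mul hFy
        have e2 : iteratedFDeriv ℝ k (fun x => chi d w x * F x) y
            = chi d w y • iteratedFDeriv ℝ k F y
              + iteratedFDeriv ℝ k (fun x => (chi d w x - chi d w y) * F x) y := by
          have e2a := iteratedFDeriv_add_apply (𝕜 := ℝ) (i := k) (x := y)
            (f := fun x => chi d w y • F x) (g := fun x => (chi d w x - chi d w y) * F x)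
            (hFy.const_smul (chi d w y)) hRy
          have e2b : iteratedFDeriv ℝ k (fun x => chi d w y • F x) y
              = chi d w y • iteratedFDeriv ℝ k F y :=
            iteratedFDeriv_const_smul_apply (𝕜 := ℝ) (a := chi d w y) hFy
          rw [e1, e2a, e2b]
        have h1 := norm_iteratedFDerivWithin_mul_le (𝕜 := ℝ) hχ hF hU.uniqueDiffOn hyU
          (n := k) le_rfl
        rw [iteratedFDerivWithin_of_isOpen k hU hyU] at h1
        have h2 : ‖iteratedFDeriv ℝ k (fun x => (chi d w x - chi d w y) * F x) y‖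
            ≤ 2 ^ k * K * (d:ℝ)^k * a := by
          refine h1.trans ?_
          have h3 : ∀ i ∈ Finset.range (k+1), (k.choose i : ℝ)
              * ‖iteratedFDerivWithin ℝ i (fun x => chi d w x - chi d w y) U y‖
              * ‖iteratedFDerivWithin ℝ (k - i) F U y‖ ≤ (k.choose i : ℝ) * (K * (d:ℝ)^k * a) := by
            intro i hi
            have hik : i ≤ k := by have := Finset.mem_range.1 hi; omega
            rw [iteratedFDerivWithin_of_isOpen _ hU hyU, iteratedFDerivWithin_of_isOpen _ hU hyU,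
              mul_assoc]
            refine mul_le_mul_of_nonneg_left ?_ (Nat.cast_nonneg _)
            rcases Nat.eq_zero_or_pos i with rfl | hi0
            · have : ‖iteratedFDeriv ℝ 0 (fun x => chi d w x - chi d w y) y‖ = 0 := by
                simp
              rw [this, zero_mul]
              positivity
            · have h4 : iteratedFDeriv ℝ i (fun x => chi d w x - chi d w y) y
                  = iteratedFDeriv ℝ i (chi d w) y := by
                have := iteratedFDeriv_sub_apply (𝕜 := ℝ) (i := i) (x := y)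
                  ((chi_contDiff d w i).contDiffAt) (contDiffAt_const (c := chi d w y))
                have h5 : iteratedFDeriv ℝ i (fun _ : E d => chi d w y) y = 0 := by
                  rw [iteratedFDeriv_const_of_ne (by omega)]; rfl
                rw [h5, sub_zero] at this
                exact this
              rw [h4]
              have h6 := hl (k - i) (by omega)
              rw [show k - (k - i) = i by omega] at h6
              have h7 : a ^ i ≤ a := by
                calc a ^ i ≤ a ^ 1 := pow_le_pow_of_le_one ha0 ha1 hi0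
                  _ = a := pow_one a
              calc _ ≤ K * ((d:ℝ)^k * a ^ i) :=
                    mul_le_mul (hK i hik y) h6 (norm_nonneg _) hK0
                _ ≤ K * ((d:ℝ)^k * a) := by gcongr
                _ = _ := by ring
          refine (Finset.sum_le_sum h3).trans ?_
          rw [← Finset.sum_mul]
          have h8 : (∑ i ∈ Finset.range (k+1), (k.choose i : ℝ)) = 2 ^ k := by
            exact_mod_cast Nat.sum_range_choose k
          rw [h8]
          apply le_of_eq; ring
        rw [e2]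
        simp only [_root_.add_apply, _root_.smul_apply, smul_eq_mul]
        refine (abs_add_le _ _).trans (add_le_add ?_ ((apply_single_le _ _).trans h2))
        rw [abs_mul, abs_of_nonneg (chi_nonneg w y)]
        exact mul_le_one₀ (chi_le_one w y) (abs_nonneg _) (hk y hyU j)
      · -- inner case
        push Not at hlayer
        have h1 : (fun x => chi d w x * F x) =ᶠ[𝓝 y] F := by
          have h2 : ∀ᶠ x in 𝓝 y, ∀ i, w < x i ∧ x i < 1 - w := by
            rw [eventually_all]
            intro i
            have h3 : Tendsto (fun x : E d => x i) (𝓝 y) (𝓝 (y i)) :=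
              (continuous_apply i).continuousAt
            exact (h3.eventually (lt_mem_nhds (hlayer i).1)).and
              (h3.eventually (gt_mem_nhds (hlayer i).2))
          filter_upwards [h2] with x hx
          rw [chi_eq_one hw (fun i => ⟨(hx i).1.le, (hx i).2.le⟩), one_mul]
        have h2 := (h1.iteratedFDeriv ℝ k).eq_of_nhds
        rw [h2]
        have := hk y hyU j
        linarith
    · rw [iter_eq_zero (hts.trans (chi_tsupport hw)) hyc]
      simp only [_root_.zero_apply, abs_zero]
      linarith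

/-- integral form of the cutoff lemma -/
theorem cut_integral {d k : ℕ} (hd : 1 ≤ d) {w : ℝ} (hw : 0 < w) {K : ℝ}
    (hK : ∀ i ≤ k, ∀ y : E d, ‖iteratedFDeriv ℝ i (chi d w) y‖ ≤ K)
    {U : Set (E d)} (hU : IsOpen U) (hcU : cube d ⊆ U) {F : E d → ℝ} (hF : ContDiffOn ℝ k F U)
    (hk : ∀ x ∈ U, ∀ j : Fin k → Fin d,
      |iteratedFDeriv ℝ k F x (fun i => Pi.single (j i) 1)| ≤ 1)
    {a : ℝ} (ha0 : 0 ≤ a) (ha1 : a ≤ 1)
    (hlay : ∀ y ∈ cube d, (∃ i, y i ≤ w ∨ 1 - w ≤ y i) → ∀ m ≤ k,
      ‖iteratedFDeriv ℝ m F y‖ ≤ (d:ℝ)^k * a^(k-m))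
    (P : Finset (E d)) (hP : ∀ y ∈ P, y ∈ cube d → F y = 0) :
    ∫ y, chi d w y * F y ≤ (1 + (2 ^ k * K * (d:ℝ)^k) * a) * r0 d k P := by
  have hK0 : 0 ≤ K := (norm_nonneg _).trans (hK 0 (Nat.zero_le _) 0)
  obtain ⟨h1, h2, h3⟩ := cut_mem hd hw hK hU hcU hF hk ha0 ha1 hlay
  set B := 1 + (2 ^ k * K * (d:ℝ)^k) * a with hB
  have hB0 : 0 < B := by positivity
  have h4 : (fun y => B⁻¹ • (chi d w y * F y)) ∈ G d k := by
    refine ⟨h1.const_smul _, ?_, fun j x => ?_⟩
    · refine (closure_mono ?_).trans h2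
      intro y hy hy2
      apply hy
      have hy3 : chi d w y * F y = 0 := hy2
      simp only [smul_eq_mul]
      rw [hy3, mul_zero]
    · have h6 : iteratedFDeriv ℝ k (fun y => B⁻¹ • (chi d w y * F y)) x
          = B⁻¹ • iteratedFDeriv ℝ k (fun y => chi d w y * F y) x :=
        iteratedFDeriv_const_smul_apply (𝕜 := ℝ) (i := k) (a := B⁻¹) (x := x) h1.contDiffAt
      rw [h6, _root_.smul_apply, smul_eq_mul, abs_mul, abs_of_pos (inv_pos.2 hB0),
        inv_mul_le_iff₀ hB0, mul_one]
      exact h3 j x
  have h5 := le_r0 hd h4 (P := P) (fun y hy => by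
    by_cases hc : y ∈ cube d
    · simp [hP y hy hc]
    · have : chi d w y = 0 := by
        by_contra h
        exact hc (chi_tsupport hw (subset_tsupport _ h))
      simp [this])
  simp only [smul_eq_mul] at h5
  rw [integral_const_mul, inv_mul_le_iff₀ hB0] at h5
  exact h5

end Pool.Agent.Helper228.CkInt
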