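import Pool.Agent.Helper228.CkInt.K

open scoped ENNReal NNReal Topology
open MeasureTheory Filter Set

namespace Pool.Agent.Helper228.CkInt

/-- indices of the grid points in the boundary layer of the unit cube -/
noncomputable def layerIdx (d q : ℕ) (w : ℝ) : Finset (Fin d → ℕ) :=
  (Fintype.piFinset (fun _ : Fin d => Finset.range (q+1))).filter
    (fun a => ∃ i, (a i : ℝ) ≤ 2 * w * q ∨ (q:ℝ) - a i ≤ 2 * w * q)

/-- grid points in the boundary layer of the unit cube -/
noncomputable def layerGrid (d q : ℕ) (w : ℝ) : Finset (E d) :=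
  (layerIdx d q w).image (fun a => ((q:ℝ)⁻¹) • (fun i => (a i : ℝ) : E d))

theorem layerIdx_card (d q : ℕ) {w : ℝ} (hw : 0 ≤ w) (hd : 1 ≤ d) :
    ((layerIdx d q w).card : ℝ) ≤ d * (2 * (2 * w * q + 1)) * ((q:ℝ) + 1) ^ (d-1) := by
  classical
  set b : ℕ := ⌊2 * w * q⌋₊ + 1 with hb
  set bad : Finset ℕ := Finset.range b ∪ (Finset.range b).image (fun t => q - t) with hbad
  have hbadc : bad.card ≤ 2 * b := by
    refine (Finset.card_union_le _ _).trans ?_
    have := Finset.card_image_le (s := Finset.range b) (f := fun t => q - t)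
    rw [Finset.card_range] at *
    omega
  have hsub : layerIdx d q w ⊆ Finset.univ.biUnion (fun i : Fin d =>
      Fintype.piFinset (Function.update (fun _ : Fin d => Finset.range (q+1)) i bad)) := by
    intro a ha
    simp only [layerIdx, Finset.mem_filter, Fintype.mem_piFinset] at ha
    obtain ⟨h1, i, hi⟩ := ha
    simp only [Finset.mem_biUnion, Finset.mem_univ, true_and, Fintype.mem_piFinset]
    refine ⟨i, fun j => ?_⟩
    by_cases hj : j = i
    · subst hj
      rw [Function.update_self, hbad, Finset.mem_union]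
      have h2 := Finset.mem_range.1 (h1 j)
      rcases hi with hi | hi
      · left
        rw [Finset.mem_range, hb, Nat.lt_add_one_iff]
        exact Nat.le_floor hi
      · right
        rw [Finset.mem_image]
        refine ⟨q - a j, ?_, by omega⟩
        rw [Finset.mem_range, hb, Nat.lt_add_one_iff]
        refine Nat.le_floor ?_
        rw [Nat.cast_sub (by omega)]
        exact hi
    · rw [Function.update_of_ne hj]; exact h1 j
  have h1 : (layerIdx d q w).card ≤ ∑ i : Fin d, bad.card * (q+1)^(d-1) := by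
    refine (Finset.card_le_card hsub).trans (Finset.card_biUnion_le.trans ?_)
    refine Finset.sum_le_sum (fun i _ => ?_)
    rw [Fintype.card_piFinset]
    have : ∀ j : Fin d, (Function.update (fun _ : Fin d => Finset.range (q+1)) i bad j).card
        = Function.update (fun _ : Fin d => q + 1) i bad.card j := by
      intro j
      by_cases hj : j = i
      · subst hj; simp
      · simp [hj]
    simp only [this]
    rw [Finset.prod_update_of_mem (Finset.mem_univ i)]
    have hcard : (Finset.univ \ {i} : Finset (Fin d)).card = d - 1 := by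
      rw [Finset.card_sdiff_of_subset (by simp)]; simp
    rw [Finset.prod_const, hcard]
  have h2 : (layerIdx d q w).card ≤ d * (2 * b * (q+1)^(d-1)) := by
    refine h1.trans ?_
    simp only [Finset.sum_const, Finset.card_univ, Fintype.card_fin, smul_eq_mul]
    gcongr
  have h3 : ((layerIdx d q w).card : ℝ) ≤ d * (2 * b * ((q:ℝ)+1)^(d-1)) := by exact_mod_cast h2
  refine h3.trans ?_
  have h4 : (b : ℝ) ≤ 2 * w * q + 1 := by
    rw [hb]; push_cast
    have := Nat.floor_le (show 0 ≤ 2 * w * q by positivity)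
    linarith
  calc (d:ℝ) * (2 * b * ((q:ℝ)+1)^(d-1)) = (2 * b) * (d * ((q:ℝ)+1)^(d-1)) := by ring
    _ ≤ (2 * (2 * w * q + 1)) * (d * ((q:ℝ)+1)^(d-1)) := by gcongr
    _ = _ := by ring

theorem layerGrid_card (d q : ℕ) {w : ℝ} (hw : 0 ≤ w) (hd : 1 ≤ d) :
    ((layerGrid d q w).card : ℝ) ≤ d * (2 * (2 * w * q + 1)) * ((q:ℝ) + 1) ^ (d-1) := by
  refine le_trans ?_ (layerIdx_card d q hw hd)
  exact_mod_cast Finset.card_image_le

theorem layerGrid_mem_Icc {d q : ℕ} (hq : 1 ≤ q) {w : ℝ} {y : E d} (hy : y ∈ layerGrid d q w) :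
    ∀ i, 0 ≤ y i ∧ y i ≤ 1 := by
  have hq0 : (0:ℝ) < q := by exact_mod_cast hq
  simp only [layerGrid, layerIdx, Finset.mem_image, Finset.mem_filter, Fintype.mem_piFinset,
    Finset.mem_range] at hy
  obtain ⟨a, ⟨h1, _⟩, rfl⟩ := hy
  intro i
  simp only [Pi.smul_apply, smul_eq_mul]
  have : (a i : ℝ) ≤ q := by exact_mod_cast (Nat.lt_succ_iff.1 (h1 i))
  constructor
  · positivity
  · rw [inv_mul_le_iff₀ hq0]; linarith

/-- smallness of a function in the layer of the unit cube -/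
theorem layer_small {d k q : ℕ} (hd : 1 ≤ d) (hk1 : 1 ≤ k) {w : ℝ} (hw : 0 < w)
    (hkq : (k:ℝ) ≤ w * q) (hw2 : w ≤ 1)
    {U : Set (E d)} (hU : IsOpen U) (hcU : Icc (0 : E d) 1 ⊆ U) {F : E d → ℝ}
    (hF : ContDiffOn ℝ k F U)
    (hk : ∀ x ∈ U, ∀ j : Fin k → Fin d,
      |iteratedFDeriv ℝ k F x (fun i => Pi.single (j i) 1)| ≤ 1)
    (hz : ∀ y ∈ layerGrid d q w, F y = 0)
    {y : E d} (hy : y ∈ Icc (0 : E d) 1) (hlay : ∃ i, y i ≤ w ∨ 1 - w ≤ y i)
    {m : ℕ} (hm : m ≤ k) :
    ‖iteratedFDeriv ℝ m F y‖ ≤ (d:ℝ)^k * ((d:ℝ)^k * k * (q:ℝ)⁻¹)^(k-m) := by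
  have hk0 : (1:ℝ) ≤ k := by exact_mod_cast hk1
  have hq0 : (0:ℝ) < q := by
    by_contra hcon
    have : (q:ℝ) = 0 := le_antisymm (not_lt.1 hcon) (Nat.cast_nonneg _)
    rw [this] at hkq
    linarith
  have hkq' : k ≤ q := by
    have : (k:ℝ) ≤ q := hkq.trans (by nlinarith)
    exact_mod_cast this
  set a : Fin d → ℕ := fun i => min ⌊(q:ℝ) * y i⌋₊ (q - k) with ha
  have ha1 : ∀ i, (a i : ℝ) ≤ q * y i := by
    intro i
    have h1 : (a i : ℝ) ≤ (⌊(q:ℝ) * y i⌋₊ : ℝ) := by exact_mod_cast min_le_left _ _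
    exact h1.trans (Nat.floor_le (mul_nonneg hq0.le (hy.1 i)))
  have ha2 : ∀ i, (q:ℝ) * y i ≤ a i + k := by
    intro i
    rcases min_choice ⌊(q:ℝ) * y i⌋₊ (q - k) with h1 | h1
    · have h2 : a i = ⌊(q:ℝ) * y i⌋₊ := h1
      rw [h2]
      have := Nat.lt_floor_add_one ((q:ℝ) * y i)
      linarith
    · have h2 : a i = q - k := h1
      rw [h2, Nat.cast_sub hkq']
      have := hy.2 i
      simp only [Pi.one_apply] at this
      nlinarith
  have ha3 : ∀ i, a i ≤ q - k := fun i => min_le_right _ _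
  have ha4 : ∀ i, (q:ℝ) * y i - 1 ≤ a i ∨ (q:ℝ) - k ≤ a i := by
    intro i
    rcases min_choice ⌊(q:ℝ) * y i⌋₊ (q - k) with h1 | h1
    · left
      have h2 : a i = ⌊(q:ℝ) * y i⌋₊ := h1
      rw [h2]
      have := Nat.lt_floor_add_one ((q:ℝ) * y i)
      linarith
    · right
      have h2 : a i = q - k := h1
      rw [h2, Nat.cast_sub hkq']
  set x₀ : E d := (q:ℝ)⁻¹ • (fun i => (a i : ℝ)) with hx₀
  have hblock : Icc x₀ (x₀ + fun _ => (k:ℝ) * (q:ℝ)⁻¹) ⊆ Icc (0 : E d) 1 := by
    refine Icc_subset_Icc (fun i => ?_) (fun i => ?_)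
    · simp only [hx₀, Pi.smul_apply, smul_eq_mul, Pi.zero_apply]; positivity
    · simp only [hx₀, Pi.add_apply, Pi.smul_apply, smul_eq_mul, Pi.one_apply]
      have h1 : (a i : ℝ) ≤ (q:ℝ) - k := by
        rw [← Nat.cast_sub hkq']; exact_mod_cast ha3 i
      have : (q:ℝ)⁻¹ * (a i : ℝ) + k * (q:ℝ)⁻¹ = (a i + k) / q := by ring
      rw [this, div_le_one hq0]; linarith
  refine block_small hd (inv_pos.2 hq0) hU hF hk (hblock.trans hcU) ?_ hm ?_
  · intro t ht
    refine hz _ ?_
    have e : x₀ + (q:ℝ)⁻¹ • (fun i => (t i : ℝ)) = (q:ℝ)⁻¹ • (fun i => ((a i + t i : ℕ) : ℝ) : E d) := by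
      funext i
      simp only [hx₀, Pi.add_apply, Pi.smul_apply, smul_eq_mul]
      push_cast; ring
    rw [e]
    refine Finset.mem_image_of_mem (fun a : Fin d → ℕ => ((q:ℝ)⁻¹) • (fun i => (a i : ℝ) : E d)) ?_
    simp only [layerIdx, Finset.mem_filter, Fintype.mem_piFinset, Finset.mem_range]
    refine ⟨fun i => ?_, ?_⟩
    · have := ha3 i
      have := ht i
      omega
    · obtain ⟨i, hi⟩ := hlay
      refine ⟨i, ?_⟩
      have h2 : (t i : ℝ) ≤ k := by exact_mod_cast ht i
      have h3 := ha1 i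
      push_cast
      rcases hi with hi | hi
      · left
        have : (q:ℝ) * y i ≤ w * q := by nlinarith
        linarith
      · right
        have h5 : (0:ℝ) ≤ t i := Nat.cast_nonneg _
        have h6 : (q:ℝ) * (1 - w) ≤ q * y i := by nlinarith
        rcases ha4 i with h4 | h4 <;> nlinarith
  · refine ⟨fun i => ?_, fun i => ?_⟩
    · simp only [hx₀, Pi.smul_apply, smul_eq_mul]
      rw [inv_mul_le_iff₀ hq0]; exact ha1 i
    · simp only [hx₀, Pi.add_apply, Pi.smul_apply, smul_eq_mul]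
      have : (q:ℝ)⁻¹ * (a i : ℝ) + k * (q:ℝ)⁻¹ = (a i + k) / q := by ring
      rw [this, le_div_iff₀ hq0]; linarith [ha2 i]

/-- indices of the fine grid near the frontier of `D` -/
def bdIdx {d : ℕ} (D : Set (E d)) (s ρ : ℝ) : Set (Fin d → ℤ) :=
  {a | ρ • zv a ∈ interior D ∩ Metric.cthickening (2 * s) (frontier D)}

theorem smul_zv_mem_cell {d : ℕ} {ρ : ℝ} (hρ : 0 < ρ) (a : Fin d → ℤ) : ρ • zv a ∈ cell ρ a :=
  corner_mem hρ a

theorem bdIdx_finite {d : ℕ} {D : Set (E d)} (hb : Bornology.IsBounded D) (s : ℝ) {ρ : ℝ}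
    (hρ : 0 < ρ) : (bdIdx D s ρ).Finite :=
  (finite_cells hρ hb).subset (fun a ha => ⟨_, smul_zv_mem_cell hρ a, interior_subset ha.1⟩)

theorem bdIdx_card {d : ℕ} {D : Set (E d)} (hb : Bornology.IsBounded D) {s ρ : ℝ} (hs : 0 < s)
    (hρ : 0 < ρ) (hρs : ρ ≤ s) :
    ((bdIdx_finite hb s hρ).toFinset.card : ℝ) * ρ ^ d ≤ tau D (3 * s) := by
  refine card_mul_le hρ _ (tau_nonneg _ _) (W := Metric.cthickening (3 * s) (frontier D)) ?_ ?_
  · exact (ENNReal.ofReal_toReal (thick_lt_top hb _).ne).ge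
  · intro a ha x hx
    rw [Set.Finite.mem_toFinset] at ha
    have h1 : dist x (ρ • zv a) ≤ s := (dist_ccell hρ (cell_subset_ccell _ _ hx)
      (cell_subset_ccell _ _ (smul_zv_mem_cell hρ a))).trans hρs
    have h2 : x ∈ Metric.cthickening s (Metric.cthickening (2 * s) (frontier D)) :=
      Metric.mem_cthickening_of_dist_le x _ _ _ ha.2 h1
    have h3 := Metric.cthickening_cthickening_subset hs.le (by positivity : 0 ≤ 2 * s) _ h2
    rwa [show s + 2 * s = 3 * s by ring] at h3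

/-- smallness near the frontier of `D` from the cone condition -/
theorem boundary_small {d k : ℕ} (hd : 1 ≤ d) (hk1 : 1 ≤ k) {D : Set (E d)} {r c : ℝ}
    (hc : 0 < c) (hc1 : c ≤ 1)
    (hcone : ∀ x ∈ interior D, ∃ v : E d, ‖v‖ = 1 ∧
      ∀ t, 0 < t → t ≤ r → Metric.closedBall (x + t • v) (c * t) ⊆ interior D)
    {s ρ : ℝ} (hs : 0 < s) (hρ : 0 < ρ) (h1 : k * ρ / c ≤ r) (h2 : 2 * (k * ρ / c) ≤ s)
    {f : E d → ℝ} (hf : f ∈ smoothClass k D) (hz : ∀ a ∈ bdIdx D s ρ, f (ρ • zv a) = 0)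
    {x : E d} (hx : x ∈ interior D) (hxs : x ∈ Metric.cthickening s (frontier D)) :
    |f x| ≤ (d:ℝ)^k * (((d:ℝ)^k * k + k / c) * ρ)^k := by
  have hk0 : (1:ℝ) ≤ k := by exact_mod_cast hk1
  obtain ⟨v, hv, hball⟩ := hcone x hx
  set t : ℝ := k * ρ / c with ht
  have ht0 : 0 < t := by positivity
  have hct : c * t = k * ρ := by rw [ht]; field_simp
  have hB := hball t ht0 h1
  rw [hct] at hB
  set y := x + t • v with hy
  have hkρ : k * ρ ≤ t := by rw [← hct]; nlinarith
  -- block around `y`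
  set a : Fin d → ℤ := idx ρ y with ha
  have hya : y ∈ cell ρ a := (mem_cell_iff hρ).2 rfl
  have hyb : y ∈ Icc (ρ • zv a) (ρ • zv a + fun _ => k * ρ) := by
    refine ⟨fun i => (hya i).1, fun i => ?_⟩
    have := (hya i).2
    simp only [Pi.add_apply, Pi.smul_apply, smul_eq_mul, zv]
    nlinarith
  have hdist : ∀ b ∈ Icc (ρ • zv a) (ρ • zv a + fun _ => k * ρ), dist b y ≤ k * ρ := by
    intro b hb
    rw [dist_pi_le_iff (by positivity)]
    intro i
    rw [Real.dist_eq, abs_le]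
    have a1 := hb.1 i
    have a2 := hb.2 i
    have a3 := hyb.1 i
    have a4 := hyb.2 i
    simp only [Pi.add_apply] at a1 a2 a3 a4
    constructor <;> linarith
  have hsub : Icc (ρ • zv a) (ρ • zv a + fun _ => k * ρ) ⊆ interior D := fun b hb =>
    hB (Metric.mem_closedBall.2 (hdist b hb))
  have hxy : dist y x = t := by
    rw [dist_eq_norm, hy, add_sub_cancel_left, norm_smul, hv, mul_one, Real.norm_of_nonneg ht0.le]
  have hker := hf.2.2 k le_rfl
  have hfk : ∀ x ∈ interior D, ∀ j : Fin k → Fin d,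
      |iteratedFDeriv ℝ k f x (fun i => Pi.single (j i) 1)| ≤ 1 := fun x hx j => hker j x hx
  have hys : ∀ m ≤ k, ‖iteratedFDeriv ℝ m f y‖ ≤ (d:ℝ)^k * ((d:ℝ)^k * k * ρ)^(k-m) := by
    intro m hm
    refine block_small hd hρ isOpen_interior hf.1 hfk hsub ?_ hm hyb
    intro b hb
    have hmem : ρ • zv a + ρ • (fun i => (b i : ℝ)) ∈
        Icc (ρ • zv a) (ρ • zv a + fun _ => (k:ℝ) * ρ) := by
      refine ⟨fun i => ?_, fun i => ?_⟩
      · simp only [Pi.add_apply, Pi.smul_apply, smul_eq_mul]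
        have : 0 ≤ ρ * (b i : ℝ) := by positivity
        linarith
      · simp only [Pi.add_apply, Pi.smul_apply, smul_eq_mul]
        have : (b i : ℝ) ≤ k := by exact_mod_cast hb i
        nlinarith
    have e : ρ • zv a + ρ • (fun i => (b i : ℝ)) = ρ • zv (fun i => a i + (b i : ℤ)) := by
      funext i
      simp only [zv, Pi.add_apply, Pi.smul_apply, smul_eq_mul]
      push_cast; ring
    have hd2 := hdist _ hmem
    have hin := hsub hmem
    rw [e] at hd2 hin ⊢
    refine hz _ ⟨hin, ?_⟩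
    have h3 : dist (ρ • zv (fun i => a i + (b i : ℤ))) x ≤ s := by
      have := dist_triangle (ρ • zv (fun i => a i + (b i : ℤ))) y x
      linarith
    have h4 := Metric.mem_cthickening_of_dist_le _ x _ _ hxs h3
    have h5 := Metric.cthickening_cthickening_subset hs.le hs.le _ h4
    rwa [show s + s = 2 * s by ring] at h5
  -- the segment
  have hseg : segment ℝ x y ⊆ interior D := by
    intro z hz
    rw [segment_eq_image'] at hz
    obtain ⟨θ, hθ, rfl⟩ := hz
    rcases eq_or_lt_of_le hθ.1 with h0 | h0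
    · simp only [← h0]; simpa using hx
    · have e : x + θ • (y - x) = x + (θ * t) • v := by
        rw [hy, add_sub_cancel_left, smul_smul]
      simp only [e]
      refine hball (θ * t) (by positivity) ?_ (Metric.mem_closedBall_self (by positivity))
      nlinarith [hθ.2]
  have hfin := convex_small isOpen_interior hf.1 hfk (convex_segment x y) hseg
    (right_mem_segment ℝ x y) (a := (d:ℝ)^k * k * ρ) (r := t) (by positivity) ht0.le hys
    (fun z hz => by
      rw [← dist_eq_norm]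
      have := dist_add_dist_of_mem_segment hz
      rw [dist_comm y x] at hxy
      linarith [dist_nonneg (x := x) (y := z)]) (Nat.zero_le k) (left_mem_segment ℝ x y)
  rw [norm_iteratedFDeriv_zero, Real.norm_eq_abs, Nat.sub_zero] at hfin
  refine hfin.trans (le_of_eq ?_)
  congr 2
  rw [ht]; ring

end Pool.Agent.Helper228.CkInt
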