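import Pool.Agent.Helper228.CkInt.L

open scoped ENNReal NNReal Topology
open MeasureTheory Filter Set

namespace Pool.Agent.Helper228.CkInt

/-- the function `f` seen from the cell `z` -/
noncomputable def up {d : ℕ} (k : ℕ) (s : ℝ) (z : Fin d → ℤ) (f : E d → ℝ) : E d → ℝ :=
  fun y => (s ^ k)⁻¹ * f (s • (y + zv z))

theorem icc_to_ccell {d : ℕ} {s : ℝ} (hs : 0 < s) (z : Fin d → ℤ) {y : E d}
    (hy : y ∈ Icc (0 : E d) 1) : s • (y + zv z) ∈ ccell s z := by
  intro i
  have h1 := hy.1 i
  have h2 := hy.2 i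
  simp only [Pi.zero_apply, Pi.one_apply, Pi.smul_apply, Pi.add_apply, smul_eq_mul, zv] at *
  constructor <;> nlinarith

/-- layer part of a cell -/
def layerCell {d : ℕ} (s w : ℝ) (z : Fin d → ℤ) : Set (E d) :=
  {x ∈ cell s z | ∃ i, x i ≤ s * (z i + w) ∨ s * (z i + (1 - w)) ≤ x i}

theorem layerCell_eq {d : ℕ} (s w : ℝ) (z : Fin d → ℤ) :
    layerCell s w z = cell s z \ Set.pi univ (fun i => Ioo (s * (z i + w)) (s * (z i + (1 - w)))) := by
  ext x
  simp only [layerCell, Set.mem_ofPred_eq, Set.mem_sdiff, Set.mem_pi, mem_univ, true_imp_iff, mem_Ioo,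
    not_forall, not_and_or, not_lt]

theorem layerCell_volume {d : ℕ} {s w : ℝ} (hs : 0 < s) (hw : 0 < w) (hw2 : w < 1/2)
    (z : Fin d → ℤ) : volume (layerCell s w z) ≤ ENNReal.ofReal (s ^ d * (2 * d * w)) := by
  have h1 : Set.pi univ (fun i => Ioo (s * (z i + w)) (s * (z i + (1 - w)))) ⊆ cell s z := by
    intro x hx i
    have := hx i (mem_univ i)
    constructor <;> nlinarith [this.1, this.2]
  have h2 : MeasurableSet (Set.pi univ (fun i => Ioo (s * ((z i : ℝ) + w)) (s * (z i + (1 - w))))) :=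
    MeasurableSet.univ_pi (fun _ => measurableSet_Ioo)
  have h3 : volume (Set.pi univ (fun i => Ioo (s * ((z i : ℝ) + w)) (s * (z i + (1 - w)))))
      = ENNReal.ofReal ((s * (1 - 2 * w)) ^ d) := by
    rw [Real.volume_pi_Ioo]
    have : ∀ i, s * ((z i : ℝ) + (1 - w)) - s * (z i + w) = s * (1 - 2 * w) := fun i => by ring
    simp only [this, Finset.prod_const, Finset.card_univ, Fintype.card_fin]
    rw [ENNReal.ofReal_pow]
    have : 0 < 1 - 2 * w := by linarith
    positivity
  rw [layerCell_eq, measure_sdiff h1 h2.nullMeasurableSet (by rw [h3]; exact ENNReal.ofReal_ne_top), h3, volume_cell hs,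
    ← ENNReal.ofReal_sub _ (by have : 0 < 1 - 2 * w := by linarith
                               positivity)]
  refine ENNReal.ofReal_le_ofReal ?_
  rw [mul_pow]
  have h4 := one_add_mul_le_pow (show (-2:ℝ) ≤ -(2 * w) by linarith) d
  have h5 : (0:ℝ) ≤ s ^ d := by positivity
  have h6 : (1:ℝ) + -(2 * w) = 1 - 2 * w := by ring
  rw [h6] at h4
  nlinarith

theorem upper_estimate {d k n q : ℕ} (hd : 1 ≤ d) (hk1 : 1 ≤ k) {D : Set (E d)}
    (hb : Bornology.IsBounded D) (hJ : volume (frontier D) = 0) (hv : volume D = 1)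
    {r c : ℝ} (hc : 0 < c) (hc1 : c ≤ 1)
    (hcone : ∀ x ∈ interior D, ∃ v : E d, ‖v‖ = 1 ∧
      ∀ t, 0 < t → t ≤ r → Metric.closedBall (x + t • v) (c * t) ⊆ interior D)
    {w : ℝ} (hw : 0 < w) (hw2 : w < 1/2) (hq : 1 ≤ q) (hkq : (k:ℝ) ≤ w * q)
    {K : ℝ} (hK : ∀ i ≤ k, ∀ y : E d, ‖iteratedFDeriv ℝ i (chi d w) y‖ ≤ K)
    (ha1 : (d:ℝ)^k * k * (q:ℝ)⁻¹ ≤ 1)
    {s : ℝ} (hs : 0 < s) (h1 : k * (s * (q:ℝ)⁻¹) / c ≤ r) (h2 : 2 * (k * (s * (q:ℝ)⁻¹) / c) ≤ s)
    (P : Finset (E d))
    (hcard : ((core_finite hs hb).toFinset.card : ℝ) * (P.card + (layerGrid d q w).card)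
      + ((bdIdx_finite hb s (mul_pos hs (inv_pos.2 (Nat.cast_pos.2 hq)))).toFinset.card : ℝ) ≤ n) :
    minError D (smoothClass k D) n ≤ ENNReal.ofReal
      (s ^ k * ((1 + (2 ^ k * K * (d:ℝ)^k) * ((d:ℝ)^k * k * (q:ℝ)⁻¹)) * r0 d k P)
        + (d:ℝ)^k * (((d:ℝ)^k * k + k / c) * (s * (q:ℝ)⁻¹))^k * (2 * d * w + tau D s)) := by
  classical
  have hq0 : (0:ℝ) < q := by exact_mod_cast hq
  set ρ : ℝ := s * (q:ℝ)⁻¹ with hρ
  have hρ0 : 0 < ρ := mul_pos hs (inv_pos.2 hq0)
  set Z := (core_finite hs hb).toFinset with hZ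
  set B := (bdIdx_finite hb s (mul_pos hs (inv_pos.2 (Nat.cast_pos.2 hq)))).toFinset with hB
  have hZmem : ∀ z, z ∈ Z ↔ ccell s z ⊆ interior D := fun z => by
    rw [hZ, Set.Finite.mem_toFinset]; rfl
  have hBmem : ∀ a, a ∈ B ↔ a ∈ bdIdx D s ρ := fun a => by
    rw [hB, Set.Finite.mem_toFinset]
  set P' : Finset (E d) := P.filter (· ∈ cube d) ∪ layerGrid d q w with hP'
  have hP'Icc : ∀ y ∈ P', y ∈ Icc (0 : E d) 1 := by
    intro y hy
    rw [hP', Finset.mem_union, Finset.mem_filter] at hy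
    rcases hy with ⟨_, hy⟩ | hy
    · exact cube_subset_Icc d hy
    · exact ⟨fun i => (layerGrid_mem_Icc hq hy i).1, fun i => (layerGrid_mem_Icc hq hy i).2⟩
  set X : Finset (E d) := (Z ×ˢ P').image (fun zy => s • (zy.2 + zv zy.1))
    ∪ B.image (fun a => ρ • zv a) with hX
  have hXcard : X.card ≤ n := by
    have a1 : X.card ≤ Z.card * (P.card + (layerGrid d q w).card) + B.card := by
      refine (Finset.card_union_le _ _).trans (add_le_add ?_ Finset.card_image_le)
      refine Finset.card_image_le.trans ?_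
      rw [Finset.card_product]
      refine Nat.mul_le_mul_left _ ((Finset.card_union_le _ _).trans ?_)
      exact Nat.add_le_add_right (Finset.card_filter_le _ _) _
    have a2 : ((Z.card * (P.card + (layerGrid d q w).card) + B.card : ℕ) : ℝ) ≤ n := by
      push_cast; exact hcard
    exact a1.trans (by exact_mod_cast a2)
  have hXD : ∀ x ∈ X, x ∈ D := by
    intro x hx
    rw [hX, Finset.mem_union, Finset.mem_image, Finset.mem_image] at hx
    rcases hx with ⟨⟨z, y⟩, hzy, rfl⟩ | ⟨a, ha, rfl⟩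
    · rw [Finset.mem_product] at hzy
      exact interior_subset ((hZmem z).1 hzy.1 (icc_to_ccell hs z (hP'Icc y hzy.2)))
    · exact interior_subset ((hBmem a).1 ha).1
  have hDne : D.Nonempty := by
    rw [Set.nonempty_iff_ne_empty]
    rintro rfl
    simp at hv
  refine upper_radius hDne (fun f hf => smoothClass_integrable hb hJ hf)
    (fun f hf g hg => smoothClass_half_sub hf hg) X hXcard hXD (fun f hf hfX => ?_)
  have hfk : ∀ x ∈ interior D, ∀ j : Fin k → Fin d,
      |iteratedFDeriv ℝ k f x (fun i => Pi.single (j i) 1)| ≤ 1 :=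
    fun x hx j => hf.2.2 k le_rfl j x hx
  set a : ℝ := (d:ℝ)^k * k * (q:ℝ)⁻¹ with ha
  have ha0 : 0 ≤ a := by positivity
  set M : ℝ := (d:ℝ)^k * (((d:ℝ)^k * k + k / c) * ρ)^k with hM
  have hM0 : 0 ≤ M := by positivity
  -- properties of the rescaled function
  set U : (Fin d → ℤ) → Set (E d) := fun z => {y | s • (y + zv z) ∈ interior D} with hU
  have hcont : ∀ z : Fin d → ℤ, ContDiff ℝ k (fun y : E d => s • (y + zv z)) :=
    fun z => (contDiff_id.add contDiff_const).const_smul s
  have hUo : ∀ z, IsOpen (U z) := fun z => isOpen_interior.preimage (hcont z).continuous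
  have hUI : ∀ z ∈ Z, Icc (0 : E d) 1 ⊆ U z := fun z hz y hy =>
    (hZmem z).1 hz (icc_to_ccell hs z hy)
  have hFc : ∀ z, ContDiffOn ℝ k (up k s z f) (U z) := fun z =>
    contDiffOn_const.mul (hf.1.comp (hcont z).contDiffOn (fun y hy => hy))
  have hFat : ∀ z, ∀ y ∈ U z, ContDiffAt ℝ k f (s • (y + zv z)) := fun z y hy =>
    hf.1.contDiffAt (isOpen_interior.mem_nhds hy)
  have hFk : ∀ z, ∀ y ∈ U z, ∀ j : Fin k → Fin d,
      |iteratedFDeriv ℝ k (up k s z f) y (fun i => Pi.single (j i) 1)| ≤ 1 := by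
    intro z y hy j
    have e := iter_scale hs.ne' (s ^ k)⁻¹ (zv z) y (hFat z y hy) (fun i => Pi.single (j i) 1)
    have e2 : iteratedFDeriv ℝ k (up k s z f) y (fun i => Pi.single (j i) 1)
      = iteratedFDeriv ℝ k f (s • (y + zv z)) (fun i => Pi.single (j i) 1) := by
      refine Eq.trans e ?_
      rw [inv_mul_cancel₀ (pow_pos hs k).ne', one_mul]
    rw [e2]; exact hfk _ hy j
  have hFX : ∀ z ∈ Z, ∀ y ∈ P', up k s z f y = 0 := by
    intro z hz y hy
    have : s • (y + zv z) ∈ X := by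
      rw [hX, Finset.mem_union]
      left
      exact Finset.mem_image.2 ⟨(z, y), Finset.mem_product.2 ⟨hz, hy⟩, rfl⟩
    show (s ^ k)⁻¹ * f (s • (y + zv z)) = 0
    rw [hfX _ this, mul_zero]
  have hlay : ∀ z ∈ Z, ∀ y ∈ Icc (0 : E d) 1, (∃ i, y i ≤ w ∨ 1 - w ≤ y i) → ∀ m ≤ k,
      ‖iteratedFDeriv ℝ m (up k s z f) y‖ ≤ (d:ℝ)^k * a^(k-m) := by
    intro z hz y hy hl m hm
    exact layer_small hd hk1 hw hkq (by linarith) (hUo z) (hUI z hz) (hFc z) (hFk z)
      (fun y hy => hFX z hz y (Finset.mem_union_right _ hy)) hy hl hm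
  -- the localised pieces
  set R : (Fin d → ℤ) → E d → ℝ := fun z => resc k s z (fun y => chi d w y * up k s z f y) with hR
  have hRx : ∀ z x, R z x = chi d w (s⁻¹ • (x + -(s • zv z))) * f x := by
    intro z x
    have e : s • (s⁻¹ • (x + -(s • zv z)) + zv z) = x := by
      rw [smul_add, smul_smul, mul_inv_cancel₀ hs.ne', one_smul]; abel
    simp only [hR, resc, up]
    rw [e]
    have : s ^ k ≠ 0 := (pow_pos hs k).ne'
    field_simp
  have hRzero : ∀ z x, idx s x ≠ z → R z x = 0 := by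
    intro z x hx
    rw [hRx]
    have : chi d w (s⁻¹ • (x + -(s • zv z))) = 0 := by
      by_contra h
      exact hx (mem_cube_idx hs (chi_tsupport hw (subset_tsupport _ h)))
    rw [this, zero_mul]
  have hcut : ∀ z ∈ Z, ContDiff ℝ k (fun y => chi d w y * up k s z f y) := fun z hz =>
    (cut_mem hd hw hK (hUo z) ((cube_subset_Icc d).trans (hUI z hz)) (hFc z) (hFk z) ha0 ha1
      (fun y hy hl m hm => hlay z hz y (cube_subset_Icc d hy) hl m hm)).1
  have hRint : ∀ z ∈ Z, ∫ x, R z x ≤ s ^ k * (s ^ d *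
      ((1 + (2 ^ k * K * (d:ℝ)^k) * a) * r0 d k P)) := by
    intro z hz
    rw [hR]
    simp only [resc_integral hs]
    have := cut_integral hd hw hK (hUo z) ((cube_subset_Icc d).trans (hUI z hz)) (hFc z) (hFk z)
      ha0 ha1 (fun y hy hl m hm => hlay z hz y (cube_subset_Icc d hy) hl m hm) P
      (fun y hy hyc => hFX z hz y (Finset.mem_union_left _ (Finset.mem_filter.2 ⟨hy, hyc⟩)))
    gcongr
  have hRI : ∀ z ∈ Z, Integrable (R z) := by
    intro z hz
    refine (resc_contDiff (hcut z hz)).continuous.integrable_of_hasCompactSupport ?_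
    have hI : IsCompact (ccell s z) := by
      have : ccell s z = Icc (fun i => s * (z i : ℝ)) (fun i => s * ((z i : ℝ) + 1)) := by
        ext y; simp only [ccell, mem_Icc, Pi.le_def, Set.mem_ofPred_eq]
        exact forall_and
      rw [this]; exact isCompact_Icc
    refine HasCompactSupport.intro hI (fun y hy => hRzero z y (fun h => ?_))
    exact hy (cell_subset_ccell _ _ ((mem_cell_iff hs).2 h))
  have hRset : ∀ z ∈ Z, ∫ x in interior D, R z x = ∫ x, R z x := by
    intro z hz
    refine setIntegral_eq_integral_of_forall_compl_eq_zero (fun y hy => hRzero z y (fun h => ?_))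
    exact hy ((hZmem z).1 hz (cell_subset_ccell _ _ ((mem_cell_iff hs).2 h)))
  -- the remainder
  have hsum : ∀ x, ∑ z ∈ Z, R z x = if idx s x ∈ Z then R (idx s x) x else 0 := by
    intro x
    split_ifs with h
    · exact Finset.sum_eq_single_of_mem _ h (fun z _ hz => hRzero z x hz.symm)
    · exact Finset.sum_eq_zero (fun z hz => hRzero z x (fun h2 => h (h2 ▸ hz)))
  set W : Set (E d) := (⋃ z ∈ Z, layerCell s w z) ∪ Metric.cthickening s (frontier D) with hW
  have hWv : volume W ≤ ENNReal.ofReal (2 * d * w + tau D s) := by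
    refine (measure_union_le _ _).trans ?_
    rw [ENNReal.ofReal_add (by positivity) (tau_nonneg _ _)]
    refine add_le_add ?_ (ENNReal.ofReal_toReal (thick_lt_top hb _).ne).ge
    refine (measure_biUnion_finset_le _ _).trans ?_
    refine (Finset.sum_le_sum (fun z _ => layerCell_volume hs hw hw2 z)).trans ?_
    rw [Finset.sum_const, nsmul_eq_mul]
    have h3 : ((Z.card : ℕ) : ℝ≥0∞) = ENNReal.ofReal (Z.card : ℝ) := by simp
    rw [h3, ← ENNReal.ofReal_mul (by positivity)]
    refine ENNReal.ofReal_le_ofReal ?_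
    have h4 := core_card_le hs hb hJ hv
    rw [← hZ] at h4
    have h5 : (0:ℝ) ≤ 2 * d * w := by positivity
    nlinarith
  have hWm : MeasurableSet W := by
    refine MeasurableSet.union (Finset.measurableSet_biUnion _ (fun z _ => ?_))
      Metric.isClosed_cthickening.measurableSet
    rw [layerCell_eq]
    exact (measurableSet_cell s z).diff (MeasurableSet.univ_pi (fun _ => measurableSet_Ioo))
  have hrem : ∀ x ∈ interior D, |f x - ∑ z ∈ Z, R z x| ≤ W.indicator (fun _ => M) x := by
    intro x hx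
    rw [hsum]
    set y : E d := s⁻¹ • (x + -(s • zv (idx s x))) with hy
    have hyi : ∀ i, y i = s⁻¹ * (x i + -(s * (idx s x i : ℝ))) := fun i => by
      rw [hy]; rfl
    have hcellx : x ∈ cell s (idx s x) := (mem_cell_iff hs).2 rfl
    have hyI : y ∈ Icc (0 : E d) 1 := by
      refine ⟨fun i => ?_, fun i => ?_⟩
      · rw [hyi]
        have := (hcellx i).1
        have h3 : 0 ≤ s⁻¹ := (inv_pos.2 hs).le
        simp only [Pi.zero_apply]
        exact mul_nonneg h3 (by linarith)
      · rw [hyi, inv_mul_le_iff₀ hs]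
        have := (hcellx i).2
        simp only [Pi.one_apply]
        linarith
    have hfy : s • (y + zv (idx s x)) = x := by
      rw [hy, smul_add, smul_smul, mul_inv_cancel₀ hs.ne', one_smul]; abel
    by_cases hxZ : idx s x ∈ Z
    · rw [if_pos hxZ, hRx, ← hy]
      by_cases hl : ∃ i, y i ≤ w ∨ 1 - w ≤ y i
      · have hxW : x ∈ W := by
          left
          rw [Set.mem_iUnion₂]
          refine ⟨idx s x, hxZ, hcellx, ?_⟩
          obtain ⟨i, hi⟩ := hl
          refine ⟨i, ?_⟩
          rw [hyi, inv_mul_le_iff₀ hs, le_inv_mul_iff₀ hs] at hi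
          rcases hi with hi | hi
          · left; linarith
          · right; linarith
        rw [Set.indicator_of_mem hxW]
        have h3 := hlay _ hxZ y hyI hl 0 (Nat.zero_le k)
        rw [norm_iteratedFDeriv_zero, Real.norm_eq_abs, Nat.sub_zero] at h3
        simp only [up] at h3
        rw [hfy, abs_mul, abs_of_pos (inv_pos.2 (pow_pos hs k)),
          inv_mul_le_iff₀ (pow_pos hs k)] at h3
        have h4 : |f x| ≤ M := by
          refine h3.trans ?_
          rw [hM, ha, hρ]
          have : s ^ k * ((d:ℝ) ^ k * ((d:ℝ) ^ k * k * (q:ℝ)⁻¹) ^ k)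
              = (d:ℝ) ^ k * (((d:ℝ) ^ k * k) * (s * (q:ℝ)⁻¹)) ^ k := by
            rw [mul_pow, mul_pow ((d:ℝ) ^ k * k), mul_pow s]; ring
          rw [this]
          have h6 : (0:ℝ) ≤ k / c := by positivity
          gcongr
          linarith
        have h5 : f x - chi d w y * f x = (1 - chi d w y) * f x := by ring
        rw [h5, abs_mul]
        have h6 : |1 - chi d w y| ≤ 1 := by
          rw [abs_le]; constructor <;> linarith [chi_nonneg w y, chi_le_one w y]
        calc _ ≤ 1 * M := mul_le_mul h6 h4 (abs_nonneg _) zero_le_one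
          _ = M := one_mul M
      · push Not at hl
        rw [chi_eq_one hw (fun i => ⟨(hl i).1.le, (hl i).2.le⟩), one_mul, sub_self, abs_zero]
        exact Set.indicator_nonneg (fun _ _ => hM0) x
    · rw [if_neg hxZ, sub_zero]
      have hxc : x ∈ Metric.cthickening s (frontier D) :=
        uncovered hs hx (fun h => hxZ ((hZmem _).2 h))
      rw [Set.indicator_of_mem (show x ∈ W from Or.inr hxc)]
      exact boundary_small hd hk1 hc hc1 hcone hs hρ0 h1 h2 hf (fun a ha => hfX _ (by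
        rw [hX, Finset.mem_union]
        right
        exact Finset.mem_image_of_mem _ ((hBmem a).2 ha))) hx hxc
  -- assembling
  have hfint : IntegrableOn f (interior D) :=
    (smoothClass_integrable hb hJ hf).mono_set interior_subset
  have hRsumI : IntegrableOn (fun x => ∑ z ∈ Z, R z x) (interior D) :=
    integrable_finsetSum _ (fun z hz => (hRI z hz).integrableOn)
  have e1 : ∫ x in D, f x = ∫ x in interior D, f x := setIntegral_congr_set (ae_interior hJ)
  have e2 : ∫ x in interior D, f x = ∑ z ∈ Z, (∫ x, R z x)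
      + ∫ x in interior D, (f x - ∑ z ∈ Z, R z x) := by
    rw [integral_sub hfint hRsumI, integral_finsetSum _ (fun z hz => (hRI z hz).integrableOn)]
    rw [Finset.sum_congr rfl hRset]; ring
  have e3 : ∑ z ∈ Z, (∫ x, R z x) ≤ s ^ k * ((1 + (2 ^ k * K * (d:ℝ)^k) * a) * r0 d k P) := by
    refine (Finset.sum_le_sum hRint).trans ?_
    rw [Finset.sum_const, nsmul_eq_mul]
    have h4 := core_card_le hs hb hJ hv
    rw [← hZ] at h4
    have hK0 : 0 ≤ K := (norm_nonneg _).trans (hK 0 (Nat.zero_le _) 0)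
    have h5 : 0 ≤ (1 + (2 ^ k * K * (d:ℝ)^k) * a) * r0 d k P :=
      mul_nonneg (by positivity) (r0_nonneg hd P)
    have h6 : 0 ≤ s ^ k * ((1 + (2 ^ k * K * (d:ℝ)^k) * a) * r0 d k P) := by positivity
    calc (Z.card : ℝ) * (s ^ k * (s ^ d * ((1 + (2 ^ k * K * (d:ℝ)^k) * a) * r0 d k P)))
        = (Z.card * s ^ d) * (s ^ k * ((1 + (2 ^ k * K * (d:ℝ)^k) * a) * r0 d k P)) := by ring
      _ ≤ 1 * (s ^ k * ((1 + (2 ^ k * K * (d:ℝ)^k) * a) * r0 d k P)) := by gcongr
      _ = _ := one_mul _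
  have e4 : ∫ x in interior D, (f x - ∑ z ∈ Z, R z x) ≤ M * (2 * d * w + tau D s) := by
    have h3 : ∫ x in interior D, (f x - ∑ z ∈ Z, R z x)
        ≤ ∫ x in interior D, W.indicator (fun _ => M) x := by
      refine setIntegral_mono_on (hfint.sub hRsumI) ?_ isOpen_interior.measurableSet
        (fun x hx => (le_abs_self _).trans (hrem x hx))
      refine Integrable.integrableOn ?_
      rw [integrable_indicator_iff hWm]
      exact integrableOn_const (lt_of_le_of_lt hWv ENNReal.ofReal_lt_top).ne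
    refine h3.trans ?_
    rw [setIntegral_indicator hWm, setIntegral_const, smul_eq_mul, mul_comm]
    refine mul_le_mul_of_nonneg_left ?_ hM0
    rw [measureReal_def]
    refine ENNReal.toReal_le_of_le_ofReal (by have := tau_nonneg D s; positivity) ?_
    exact (measure_mono inter_subset_right).trans hWv
  rw [e1, e2]
  exact add_le_add e3 e4

end Pool.Agent.Helper228.CkInt
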