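import Pool.Agent.Helper228.CkInt.M

open scoped ENNReal NNReal Topology
open MeasureTheory Filter Set

namespace Pool.Agent.Helper228.CkInt

theorem e0_zero_pos {d k : ℕ} (hd : 1 ≤ d) : 0 < e0 d k 0 := by
  have hw : (0:ℝ) < 1/4 := by norm_num
  obtain ⟨K, hK, hKb⟩ := chi_bound d k hw
  have hg : (fun y => K⁻¹ • chi d (1/4) y) ∈ G d k := by
    refine ⟨(chi_contDiff d _ k).const_smul _, ?_, fun j x => ?_⟩
    · refine (closure_mono ?_).trans (chi_tsupport hw)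
      intro y hy hy2
      apply hy
      simp only [smul_eq_mul]
      rw [hy2, mul_zero]
    · have h6 : iteratedFDeriv ℝ k (fun y => K⁻¹ • chi d (1/4) y) x
          = K⁻¹ • iteratedFDeriv ℝ k (chi d (1/4)) x :=
        iteratedFDeriv_const_smul_apply (𝕜 := ℝ) (i := k) (a := K⁻¹) (x := x)
          (chi_contDiff d _ k).contDiffAt
      rw [h6, _root_.smul_apply, smul_eq_mul, abs_mul, abs_of_pos (inv_pos.2 hK),
        inv_mul_le_iff₀ hK, mul_one]
      exact (apply_single_le _ j).trans (hKb k le_rfl x)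
  have hpos : 0 < ∫ y, chi d (1/4) y := by
    refine Continuous.integral_pos_of_hasCompactSupport_nonneg_nonzero
      (chi_contDiff d (1/4) 0).continuous ?_ (chi_nonneg _) (x := fun _ => 1/2) ?_
    · exact (isCompact_Icc (a := (0 : E d)) (b := 1)).of_isClosed_subset (isClosed_tsupport _)
        ((chi_tsupport hw).trans (cube_subset_Icc d))
    · rw [chi_eq_one hw (fun i => by norm_num)]; norm_num
  have h1 : ∀ P : Finset (E d), P.card ≤ 0 → K⁻¹ * ∫ y, chi d (1/4) y ≤ r0 d k P := by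
    intro P hP
    have hP0 : P = ∅ := Finset.card_eq_zero.1 (Nat.le_zero.1 hP)
    have := le_r0 hd hg (P := P) (fun x hx => by rw [hP0] at hx; simp at hx)
    simp only [smul_eq_mul] at this
    rwa [integral_const_mul] at this
  have h2 : K⁻¹ * ∫ y, chi d (1/4) y ≤ e0 d k 0 :=
    le_csInf ⟨_, ∅, by simp, rfl⟩ (by rintro r ⟨P, hP, rfl⟩; exact h1 P hP)
  exact lt_of_lt_of_le (by positivity) h2

/-- positivity of the asymptotic lower bound -/
theorem lower_pos {d k : ℕ} (hd : 1 ≤ d) {D : Set (E d)} (hb : Bornology.IsBounded D)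
    (hJ : volume (frontier D) = 0) (hv : volume D = 1) :
    ∃ c : ℝ, 0 < c ∧ ∀ᶠ n : ℕ in atTop, ENNReal.ofReal (c * (n:ℝ) ^ (-((k:ℝ)/d)))
      ≤ minError D (smoothClass k D) n := by
  have he := e0_zero_pos (k := k) hd
  have hL : (0:ℝ) < 1/4 := by norm_num
  refine ⟨e0 d k 0 / 8 * (1/4:ℝ) ^ ((k:ℝ)/d), by positivity, ?_⟩
  have h3 : ∀ᶠ n : ℕ in atTop, tau D (side d (1/4) n) < 1/2 :=
    (mu_tendsto hd hb hJ (1/4)).eventually (gt_mem_nhds (by norm_num))
  have h4 : ∀ᶠ n : ℕ in atTop, side d (1/4) n < 1 :=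
    (side_tendsto hd (1/4)).eventually (gt_mem_nhds zero_lt_one)
  filter_upwards [h3, h4, eventually_ge_atTop 1] with n h3 h4 hn
  have hn0 : (0:ℝ) < n := by exact_mod_cast hn
  have hs := side_pos (d := d) hL hn
  set s := side d (1/4) n with hsdef
  set Z := (core_finite hs hb).toFinset with hZ
  have hl := core_card_ge hs hb hJ hv
  rw [← hZ] at hl
  have hsd : s ^ d = 1/4 / n := side_pow hd hL n
  have hM : 2 * (n:ℝ) ≤ Z.card := by
    have h5 : (1:ℝ)/2 ≤ Z.card * s ^ d := by linarith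
    rw [hsd] at h5
    have h6 : (Z.card : ℝ) * (1/4 / n) = Z.card / (4 * n) := by field_simp
    rw [h6, le_div_iff₀ (by positivity)] at h5
    linarith
  refine superpose hd hs h4.le Z (fun z hz => by
    rw [hZ, Set.Finite.mem_toFinset] at hz; exact hz) (fun ν hν => ?_)
  have h5 : e0 d k 0 * (Z.card - n) ≤ ∑ z ∈ Z, e0 d k (ν z) := by
    have h6 : ∀ z ∈ Z, e0 d k 0 * (1 - (ν z : ℝ)) ≤ e0 d k (ν z) := by
      intro z _
      rcases Nat.eq_zero_or_pos (ν z) with h0 | h0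
      · rw [h0]; simp
      · have : (1:ℝ) ≤ ν z := by exact_mod_cast h0
        have h7 := e0_nonneg (k := k) hd (ν z)
        nlinarith
    refine le_trans ?_ (Finset.sum_le_sum h6)
    rw [← Finset.mul_sum, Finset.sum_sub_distrib]
    refine mul_le_mul_of_nonneg_left ?_ he.le
    simp only [Finset.sum_const, nsmul_eq_mul, mul_one]
    have : (∑ z ∈ Z, (ν z : ℝ)) ≤ n := by exact_mod_cast hν
    linarith
  have h6 : e0 d k 0 * (Z.card / 2) ≤ ∑ z ∈ Z, e0 d k (ν z) := by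
    refine le_trans ?_ h5
    refine mul_le_mul_of_nonneg_left ?_ he.le
    linarith
  have h7 : e0 d k 0 / 4 ≤ s ^ d * ∑ z ∈ Z, e0 d k (ν z) := by
    calc e0 d k 0 / 4 ≤ (Z.card * s ^ d) * (e0 d k 0 / 2) := by
          have : (1:ℝ)/2 ≤ Z.card * s ^ d := by linarith
          nlinarith
      _ = s ^ d * (e0 d k 0 * (Z.card / 2)) := by ring
      _ ≤ _ := by gcongr
  have h8 : s ^ k = (1/4:ℝ) ^ ((k:ℝ)/d) * (n:ℝ) ^ (-((k:ℝ)/d)) := by
    rw [hsdef, side_pow_k k hL n, Real.div_rpow hL.le hn0.le, Real.rpow_neg hn0.le]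
    rfl
  have hsk : 0 < s ^ k := pow_pos hs k
  calc e0 d k 0 / 8 * (1/4:ℝ) ^ ((k:ℝ)/d) * (n:ℝ) ^ (-((k:ℝ)/d))
      = s ^ k * (e0 d k 0 / 8) := by rw [h8]; ring
    _ < s ^ k * (e0 d k 0 / 4) := by
        apply mul_lt_mul_of_pos_left _ hsk
        linarith
    _ ≤ _ := by gcongr

/-- frequent upper bound for the minimal radii -/
theorem e0_upper {d k q : ℕ} (hd : 1 ≤ d) (hk1 : 1 ≤ k) (hq : 2 * k ≤ q) :
    e0 d k (2 * d * (q+1)^d) ≤ (d:ℝ)^k * ((d:ℝ)^k * k * (q:ℝ)⁻¹)^k := by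
  have hq1 : 1 ≤ q := by omega
  have hcard : (layerGrid d q (1/2)).card ≤ 2 * d * (q+1)^d := by
    have h1 := layerGrid_card d q (w := 1/2) (by norm_num) hd
    have h2 : (d:ℝ) * (2 * (2 * (1/2) * q + 1)) * ((q:ℝ) + 1) ^ (d-1) = 2 * d * ((q:ℝ)+1)^d := by
      have : ((q:ℝ)+1)^d = ((q:ℝ)+1)^(d-1) * ((q:ℝ)+1) := by
        rw [← pow_succ]; congr 1; omega
      rw [this]; ring
    rw [h2] at h1
    exact_mod_cast h1
  refine (e0_le hd hcard).trans (r0_le (fun g hg hz => ?_))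
  refine (le_abs_self _).trans (integral_abs_le hg.2.1 (fun x => ?_))
  by_cases hx : x ∈ cube d
  · have := layer_small (U := univ) hd hk1 (w := 1/2) (by norm_num)
      (by have : (2:ℝ) * k ≤ q := by exact_mod_cast hq
          linarith) (by norm_num) isOpen_univ (subset_univ _) hg.1.contDiffOn
      (fun x _ j => hg.2.2 j x) hz (cube_subset_Icc d hx)
      ⟨⟨0, hd⟩, by rcases le_total (x ⟨0, hd⟩) (1/2) with h | h
                   · left; exact h
                   · right; linarith⟩ (Nat.zero_le k)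
    rw [norm_iteratedFDeriv_zero, Real.norm_eq_abs, Nat.sub_zero] at this
    exact this
  · have : g x = 0 := by
      by_contra h
      exact hx (hg.2.1 (subset_tsupport _ h))
    rw [this, abs_zero]; positivity

/-- normalised minimal radii -/
noncomputable def nrm (d k m : ℕ) : ℝ := e0 d k m * (m:ℝ) ^ ((k:ℝ)/d)

/-- the asymptotic constant -/
noncomputable def C0 (d k : ℕ) : ℝ := sSup {c : ℝ | ∀ᶠ m : ℕ in atTop, c ≤ nrm d k m}

theorem nrm_frequently {d k : ℕ} (hd : 1 ≤ d) (hk1 : 1 ≤ k) :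
    ∃ C : ℝ, ∃ᶠ m : ℕ in atTop, nrm d k m ≤ C := by
  refine ⟨(d:ℝ)^k * ((d:ℝ)^k * k)^k * ((2 * d : ℝ) ^ ((k:ℝ)/d) * 2 ^ k), ?_⟩
  rw [frequently_atTop]
  intro m0
  set q : ℕ := 2 * k + m0 with hq
  refine ⟨2 * d * (q+1)^d, ?_, ?_⟩
  · have h1 : q + 1 ≤ (q+1)^d := Nat.le_self_pow (by omega) _
    nlinarith
  · have h1 := e0_upper hd hk1 (show 2 * k ≤ q by omega)
    have hq0 : (0:ℝ) < q := by exact_mod_cast (show 0 < q by omega)
    have hd0 : (0:ℝ) < d := by exact_mod_cast hd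
    have h2 : ((2 * d * (q+1)^d : ℕ) : ℝ) ^ ((k:ℝ)/d) = (2 * d : ℝ) ^ ((k:ℝ)/d) * ((q:ℝ)+1)^k := by
      push_cast
      rw [Real.mul_rpow (by positivity) (by positivity)]
      congr 1
      rw [← Real.rpow_natCast, ← Real.rpow_mul (by positivity), mul_div_cancel₀ _ hd0.ne',
        Real.rpow_natCast]
    unfold nrm
    rw [h2]
    have h3 : ((q:ℝ)+1)^k ≤ (2 * q)^k := by
      have : (1:ℝ) ≤ q := by exact_mod_cast (show 1 ≤ q by omega)
      gcongr
      linarith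
    calc e0 d k (2 * d * (q+1)^d) * ((2 * d : ℝ) ^ ((k:ℝ)/d) * ((q:ℝ)+1)^k)
        ≤ ((d:ℝ)^k * ((d:ℝ)^k * k * (q:ℝ)⁻¹)^k) * ((2 * d : ℝ) ^ ((k:ℝ)/d) * (2 * q)^k) := by
          gcongr
      _ = _ := by
          rw [mul_pow ((d:ℝ)^k * k), mul_pow 2 (q:ℝ), inv_pow]
          have : (q:ℝ)^k ≠ 0 := by positivity
          field_simp

theorem C0_bdd {d k : ℕ} (hd : 1 ≤ d) (hk1 : 1 ≤ k) :
    BddAbove {c : ℝ | ∀ᶠ m : ℕ in atTop, c ≤ nrm d k m} := by
  obtain ⟨C, hC⟩ := nrm_frequently hd hk1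
  refine ⟨C, fun c hc => ?_⟩
  obtain ⟨m, h1, h2⟩ := (hC.and_eventually hc).exists
  exact h2.trans h1

theorem lt_C0 {d k : ℕ} (hd : 1 ≤ d) {c : ℝ} (hc : c < C0 d k) :
    ∀ᶠ m : ℕ in atTop, c < nrm d k m := by
  obtain ⟨c', h1, h2⟩ := exists_lt_of_lt_csSup (s := {c : ℝ | ∀ᶠ m : ℕ in atTop, c ≤ nrm d k m})
    ⟨0, Eventually.of_forall (fun m => mul_nonneg (e0_nonneg hd m) (by positivity))⟩ hc
  have h3 : ∀ᶠ m : ℕ in atTop, c' ≤ nrm d k m := h1
  filter_upwards [h3] with m hm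
  linarith

theorem C0_lt {d k : ℕ} (hd : 1 ≤ d) (hk1 : 1 ≤ k) {c : ℝ} (hc : C0 d k < c) :
    ∃ᶠ m : ℕ in atTop, nrm d k m < c := by
  by_contra hcon
  rw [not_frequently] at hcon
  have h1 : c ∈ {c : ℝ | ∀ᶠ m : ℕ in atTop, c ≤ nrm d k m} := by
    show ∀ᶠ m : ℕ in atTop, c ≤ nrm d k m
    filter_upwards [hcon] with m hm
    exact not_lt.1 hm
  exact absurd (le_csSup (C0_bdd hd hk1) h1) (not_le.2 hc)

end Pool.Agent.Helper228.CkInt
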