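import Pool.Agent.Helper228.CkInt.N

open scoped ENNReal NNReal Topology
open MeasureTheory Filter Set

namespace Pool.Agent.Helper228.CkInt

/-- number of layer points versus `N` -/
theorem layer_count {d k q N : ℕ} (hd : 1 ≤ d) (hk1 : 1 ≤ k) {w : ℝ} (hw : 0 < w)
    (hkq : (k:ℝ) ≤ w * q) (hqN : (q:ℝ)^d ≤ 2^d * N) :
    ((layerGrid d q w).card : ℝ) ≤ 3 * d * 4^d * w * N := by
  have hk0 : (1:ℝ) ≤ k := by exact_mod_cast hk1
  have hq1 : (1:ℝ) ≤ q := by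
    have : (0:ℝ) < q := by
      by_contra hcon
      have : (q:ℝ) = 0 := le_antisymm (not_lt.1 hcon) (Nat.cast_nonneg _)
      rw [this] at hkq
      linarith
    exact_mod_cast this
  refine (layerGrid_card d q hw.le hd).trans ?_
  have h1 : 2 * w * q + 1 ≤ 3 * w * q := by linarith
  have h2 : ((q:ℝ) + 1) ^ (d-1) ≤ (2 * q) ^ (d-1) := by
    gcongr
    linarith
  have h3 : (q:ℝ) ^ d = (q:ℝ) ^ (d-1) * q := by
    rw [← pow_succ]; congr 1; omega
  have h4 : (2:ℝ) ^ d = (2:ℝ) ^ (d-1) * 2 := by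
    rw [← pow_succ]; congr 1; omega
  calc (d:ℝ) * (2 * (2 * w * q + 1)) * ((q:ℝ) + 1) ^ (d-1)
      ≤ (d:ℝ) * (2 * (3 * w * q)) * (2 * q) ^ (d-1) := by gcongr
    _ = 3 * d * w * (2 ^ (d-1) * 2) * ((q:ℝ) ^ (d-1) * q) := by rw [mul_pow]; ring
    _ = 3 * d * w * 2 ^ d * (q:ℝ) ^ d := by rw [← h3, ← h4]
    _ ≤ 3 * d * w * 2 ^ d * (2 ^ d * N) := by gcongr
    _ = 3 * d * 4^d * w * N := by
        have : (4:ℝ)^d = 2^d * 2^d := by rw [← mul_pow]; norm_num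
        rw [this]; ring

/-- upper bound, asymptotic form -/
theorem upper_asymp {d k : ℕ} (hd : 1 ≤ d) (hk1 : 1 ≤ k) {D : Set (E d)}
    (hb : Bornology.IsBounded D) (hJ : volume (frontier D) = 0) (hv : volume D = 1)
    (hcone : InteriorCone D) {c' : ℝ} (hc' : C0 d k < c') :
    ∀ᶠ n : ℕ in atTop, minError D (smoothClass k D) n
      ≤ ENNReal.ofReal (c' * (n:ℝ) ^ (-((k:ℝ)/d))) := by
  set p : ℝ := (k:ℝ)/d with hp
  have hd0 : (0:ℝ) < d := by exact_mod_cast hd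
  have hp0 : 0 ≤ p := by positivity
  -- cone constants with `c ≤ 1`
  obtain ⟨r, hr, c, hc, hc1, hcn⟩ : ∃ r > 0, ∃ c > 0, c ≤ 1 ∧ ∀ x ∈ interior D, ∃ v : E d,
      ‖v‖ = 1 ∧ ∀ t, 0 < t → t ≤ r → Metric.closedBall (x + t • v) (c * t) ⊆ interior D := by
    obtain ⟨r, hr, c, hc, h⟩ := hcone
    refine ⟨r, hr, min c 1, lt_min hc zero_lt_one, min_le_right _ _, fun x hx => ?_⟩
    obtain ⟨v, hv, hball⟩ := h x hx
    refine ⟨v, hv, fun t ht htr => (Metric.closedBall_subset_closedBall ?_).trans (hball t ht htr)⟩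
    exact mul_le_mul_of_nonneg_right (min_le_left _ _) ht.le
  set C1 : ℝ := (d:ℝ)^k * k + k / c with hC1
  have hC10 : 0 < C1 := by
    have : (1:ℝ) ≤ k := by exact_mod_cast hk1
    positivity
  obtain ⟨c1, hc1a, hc1b⟩ := exists_between hc'
  -- choose `w`
  obtain ⟨w, hw, hw2, hwc⟩ : ∃ w : ℝ, 0 < w ∧ w < 1/2 ∧
      (1 + 3 * d * 4^d * w) ^ p * (c1 + (d:ℝ)^k * C1^k * (2 * d * w)) < c' := by
    have h1 : Tendsto (fun w : ℝ => (1 + 3 * d * 4^d * w) ^ p * (c1 + (d:ℝ)^k * C1^k * (2 * d * w)))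
        (𝓝 0) (𝓝 ((1 + 3 * d * 4^d * 0) ^ p * (c1 + (d:ℝ)^k * C1^k * (2 * d * 0)))) := by
      refine Tendsto.mul (Tendsto.rpow_const ?_ (Or.inl (by norm_num))) ?_
      · exact tendsto_const_nhds.add (tendsto_const_nhds.mul tendsto_id)
      · exact tendsto_const_nhds.add (tendsto_const_nhds.mul (tendsto_const_nhds.mul tendsto_id))
    have h2 : (1 + 3 * (d:ℝ) * 4^d * 0) ^ p * (c1 + (d:ℝ)^k * C1^k * (2 * d * 0)) < c' := by
      simpa using hc1b
    have h3 := h1.eventually (gt_mem_nhds h2)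
    have h4 : ∀ᶠ w : ℝ in 𝓝[>] 0, (1 + 3 * d * 4^d * w) ^ p
        * (c1 + (d:ℝ)^k * C1^k * (2 * d * w)) < c' := h3.filter_mono nhdsWithin_le_nhds
    have h5 : ∀ᶠ w : ℝ in 𝓝[>] 0, w < 1/2 :=
      (gt_mem_nhds (show (0:ℝ) < 1/2 by norm_num)).filter_mono nhdsWithin_le_nhds
    obtain ⟨w, ⟨h6, h7⟩, h8⟩ := ((h4.and h5).and self_mem_nhdsWithin).exists
    exact ⟨w, h8, h7, h6⟩
  obtain ⟨K, hK0, hK⟩ := chi_bound d k hw
  set K' : ℝ := (2 ^ k * K * (d:ℝ)^k) * ((d:ℝ)^k * k) with hK'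
  -- choose a bound `q0` on `q`
  have hinv : Tendsto (fun q : ℝ => q⁻¹) atTop (𝓝 0) := tendsto_inv_atTop_zero
  obtain ⟨q0, hq0⟩ : ∃ q0 : ℝ, ∀ q : ℝ, q0 ≤ q → (1 ≤ q ∧ (k:ℝ) ≤ w * q ∧
      (d:ℝ)^k * k * q⁻¹ ≤ 1 ∧ 2 * (k * q⁻¹ / c) ≤ 1 ∧
      (1 + 3 * d * 4^d * w) ^ p * ((1 + K' * q⁻¹) * c1 + (d:ℝ)^k * C1^k * (2 * d * w)) < c') := by
    have a1 : ∀ᶠ q : ℝ in atTop, 1 ≤ q := eventually_ge_atTop 1
    have a2 : ∀ᶠ q : ℝ in atTop, (k:ℝ) ≤ w * q := by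
      filter_upwards [eventually_ge_atTop (k / w)] with q hq
      rw [div_le_iff₀ hw] at hq
      linarith
    have a3 : ∀ᶠ q : ℝ in atTop, (d:ℝ)^k * k * q⁻¹ ≤ 1 := by
      have : Tendsto (fun q : ℝ => (d:ℝ)^k * k * q⁻¹) atTop (𝓝 ((d:ℝ)^k * k * 0)) :=
        tendsto_const_nhds.mul hinv
      rw [mul_zero] at this
      exact (this.eventually (gt_mem_nhds zero_lt_one)).mono (fun _ h => h.le)
    have a4 : ∀ᶠ q : ℝ in atTop, 2 * (k * q⁻¹ / c) ≤ 1 := by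
      have : Tendsto (fun q : ℝ => 2 * (k * q⁻¹ / c)) atTop (𝓝 (2 * (k * 0 / c))) :=
        tendsto_const_nhds.mul ((tendsto_const_nhds.mul hinv).div_const c)
      rw [mul_zero, zero_div, mul_zero] at this
      exact (this.eventually (gt_mem_nhds zero_lt_one)).mono (fun _ h => h.le)
    have a5 : ∀ᶠ q : ℝ in atTop, (1 + 3 * d * 4^d * w) ^ p
        * ((1 + K' * q⁻¹) * c1 + (d:ℝ)^k * C1^k * (2 * d * w)) < c' := by
      have : Tendsto (fun q : ℝ => (1 + 3 * d * 4^d * w) ^ p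
          * ((1 + K' * q⁻¹) * c1 + (d:ℝ)^k * C1^k * (2 * d * w))) atTop
          (𝓝 ((1 + 3 * d * 4^d * w) ^ p
          * ((1 + K' * 0) * c1 + (d:ℝ)^k * C1^k * (2 * d * w)))) := by
        refine tendsto_const_nhds.mul (Tendsto.add ?_ tendsto_const_nhds)
        exact (tendsto_const_nhds.add (tendsto_const_nhds.mul hinv)).mul_const c1
      refine this.eventually (gt_mem_nhds ?_)
      rw [mul_zero, add_zero, one_mul]
      exact hwc
    have := a1.and (a2.and (a3.and (a4.and a5)))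
    rw [eventually_atTop] at this
    exact this
  -- choose `N`
  obtain ⟨N, hN1, hN2, hN3⟩ : ∃ N : ℕ, 1 ≤ N ∧ q0 ≤ (N:ℝ) ^ ((d:ℝ)⁻¹) ∧ nrm d k N < c1 := by
    have h1 : Tendsto (fun N : ℕ => (N:ℝ) ^ ((d:ℝ)⁻¹)) atTop atTop :=
      (tendsto_rpow_atTop (by positivity)).comp tendsto_natCast_atTop_atTop
    have h2 := (C0_lt hd hk1 hc1a).and_eventually
      ((h1.eventually (eventually_ge_atTop q0)).and (eventually_ge_atTop 1))
    obtain ⟨N, h3, h4, h5⟩ := h2.exists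
    exact ⟨N, h5, h4, h3⟩
  have hN0 : (0:ℝ) < N := by exact_mod_cast hN1
  set q : ℕ := ⌈(N:ℝ) ^ ((d:ℝ)⁻¹)⌉₊ with hq
  have hq1 : (N:ℝ) ^ ((d:ℝ)⁻¹) ≤ q := Nat.le_ceil _
  have hqr := hq0 q (hN2.trans hq1)
  obtain ⟨b1, b2, b3, b4, b5⟩ := hqr
  have hq1' : 1 ≤ q := by exact_mod_cast b1
  have hqpos : (0:ℝ) < q := by linarith
  have hroot : ((N:ℝ) ^ ((d:ℝ)⁻¹)) ^ d = N := Real.rpow_inv_natCast_pow hN0.le (by omega)
  have hq2 : (q:ℝ)^d ≤ 2^d * N := by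
    have h1 : (q:ℝ) ≤ 2 * (N:ℝ) ^ ((d:ℝ)⁻¹) := by
      have h2 := Nat.ceil_lt_add_one (Real.rpow_nonneg hN0.le ((d:ℝ)⁻¹))
      have h3 : (1:ℝ) ≤ (N:ℝ) ^ ((d:ℝ)⁻¹) :=
        Real.one_le_rpow (by exact_mod_cast hN1) (by positivity)
      have h4 : (q:ℝ) < (N:ℝ) ^ ((d:ℝ)⁻¹) + 1 := h2
      linarith
    calc (q:ℝ)^d ≤ (2 * (N:ℝ) ^ ((d:ℝ)⁻¹))^d := by gcongr
      _ = 2^d * N := by rw [mul_pow, hroot]
  have hNq : (N:ℝ)^p ≤ (q:ℝ)^k := by
    have : (N:ℝ)^p = ((N:ℝ) ^ ((d:ℝ)⁻¹))^k := by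
      rw [← Real.rpow_natCast, ← Real.rpow_mul hN0.le]
      congr 1
      rw [hp]; ring
    rw [this]
    gcongr
  -- the point set
  obtain ⟨P, hP1, hP2⟩ : ∃ P : Finset (E d), P.card ≤ N ∧ r0 d k P < c1 * (N:ℝ)^(-p) := by
    refine exists_e0 ?_
    have h1 : e0 d k N * (N:ℝ)^p < c1 := hN3
    have h2 : (0:ℝ) < (N:ℝ)^p := Real.rpow_pos_of_pos hN0 p
    rw [Real.rpow_neg hN0.le, ← div_eq_mul_inv, lt_div_iff₀ h2]
    exact h1
  set κ0 : ℝ := (1 + 3 * d * 4^d * w) * N with hκ0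
  have hκ00 : 0 < κ0 := by positivity
  have hcount : (P.card : ℝ) + (layerGrid d q w).card ≤ κ0 := by
    have h1 := layer_count hd hk1 hw b2 hq2
    have h2 : (P.card : ℝ) ≤ N := by exact_mod_cast hP1
    rw [hκ0]; linarith
  set A : ℝ := (1 + K' * (q:ℝ)⁻¹) * r0 d k P with hA
  set M0 : ℝ := (d:ℝ)^k * (C1 * (q:ℝ)⁻¹)^k with hM0
  have hA0 : 0 ≤ A := mul_nonneg (by positivity) (r0_nonneg hd P)
  have hmain : κ0 ^ p * (A + M0 * (2 * d * w)) < c' := by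
    refine lt_of_le_of_lt ?_ b5
    rw [hκ0, Real.mul_rpow (by positivity) hN0.le, mul_assoc]
    refine mul_le_mul_of_nonneg_left ?_ (by positivity)
    rw [mul_add]
    refine add_le_add ?_ ?_
    · have h1 : (N:ℝ)^p * r0 d k P ≤ c1 := by
        have h2 : (0:ℝ) < (N:ℝ)^p := Real.rpow_pos_of_pos hN0 p
        rw [Real.rpow_neg hN0.le, ← div_eq_mul_inv, lt_div_iff₀ h2] at hP2
        linarith
      calc (N:ℝ)^p * A = (1 + K' * (q:ℝ)⁻¹) * ((N:ℝ)^p * r0 d k P) := by rw [hA]; ring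
        _ ≤ (1 + K' * (q:ℝ)⁻¹) * c1 := by gcongr
    · have h1 : (N:ℝ)^p * ((q:ℝ)⁻¹)^k ≤ 1 := by
        rw [inv_pow, ← div_eq_mul_inv, div_le_one (by positivity)]
        exact hNq
      calc (N:ℝ)^p * (M0 * (2 * d * w))
          = ((N:ℝ)^p * ((q:ℝ)⁻¹)^k) * ((d:ℝ)^k * C1^k * (2 * d * w)) := by
            rw [hM0, mul_pow]; ring
        _ ≤ 1 * ((d:ℝ)^k * C1^k * (2 * d * w)) := by gcongr
        _ = _ := one_mul _
  -- choose `κ > κ0` and `t > 0`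
  obtain ⟨κ, hκ, hκc⟩ : ∃ κ : ℝ, κ0 < κ ∧ κ ^ p * (A + M0 * (2 * d * w)) < c' := by
    have h1 : Tendsto (fun κ : ℝ => κ ^ p * (A + M0 * (2 * d * w))) (𝓝 κ0)
        (𝓝 (κ0 ^ p * (A + M0 * (2 * d * w)))) :=
      (Tendsto.rpow_const tendsto_id (Or.inl hκ00.ne')).mul_const _
    have h2 : ∀ᶠ κ : ℝ in 𝓝[>] κ0, κ ^ p * (A + M0 * (2 * d * w)) < c' :=
      (h1.eventually (gt_mem_nhds hmain)).filter_mono nhdsWithin_le_nhds
    obtain ⟨κ, h3, h4⟩ := (h2.and self_mem_nhdsWithin).exists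
    exact ⟨κ, h4, h3⟩
  have hκpos : 0 < κ := hκ00.trans hκ
  obtain ⟨t, ht, htc⟩ : ∃ t : ℝ, 0 < t ∧ κ ^ p * (A + M0 * (2 * d * w + t)) < c' := by
    have h1 : Tendsto (fun t : ℝ => κ ^ p * (A + M0 * (2 * d * w + t))) (𝓝 0)
        (𝓝 (κ ^ p * (A + M0 * (2 * d * w + 0)))) :=
      tendsto_const_nhds.mul (tendsto_const_nhds.add
        (tendsto_const_nhds.mul (tendsto_const_nhds.add tendsto_id)))
    rw [add_zero] at h1
    have h2 : ∀ᶠ t : ℝ in 𝓝[>] 0, κ ^ p * (A + M0 * (2 * d * w + t)) < c' :=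
      (h1.eventually (gt_mem_nhds hκc)).filter_mono nhdsWithin_le_nhds
    obtain ⟨t, h3, h4⟩ := (h2.and self_mem_nhdsWithin).exists
    exact ⟨t, h4, h3⟩
  -- large `n`
  have e1 : ∀ᶠ n : ℕ in atTop, tau D (side d κ n) < t :=
    (mu_tendsto hd hb hJ κ).eventually (gt_mem_nhds ht)
  have e2 : ∀ᶠ n : ℕ in atTop, tau D (3 * side d κ n) < (κ - κ0) / (q:ℝ)^d := by
    have h1 : Tendsto (fun n : ℕ => 3 * side d κ n) atTop (𝓝 0) := by
      have := (side_tendsto hd κ).const_mul 3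
      rwa [mul_zero] at this
    exact ((tau_tendsto hb hJ).comp h1).eventually
      (gt_mem_nhds (div_pos (by linarith) (by positivity)))
  have e3 : ∀ᶠ n : ℕ in atTop, k * (side d κ n * (q:ℝ)⁻¹) / c < r := by
    have h1 : Tendsto (fun n : ℕ => k * (side d κ n * (q:ℝ)⁻¹) / c) atTop
        (𝓝 (k * (0 * (q:ℝ)⁻¹) / c)) :=
      (((side_tendsto hd κ).mul_const _).const_mul _).div_const _
    rw [zero_mul, mul_zero, zero_div] at h1
    exact h1.eventually (gt_mem_nhds hr)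
  filter_upwards [e1, e2, e3, eventually_ge_atTop 1] with n e1 e2 e3 hn
  have hn0 : (0:ℝ) < n := by exact_mod_cast hn
  have hs := side_pos (d := d) hκpos hn
  have hsd : side d κ n ^ d = κ / n := side_pow hd hκpos n
  have hsk : side d κ n ^ k = κ ^ p * (n:ℝ) ^ (-p) := by
    rw [side_pow_k k hκpos n, Real.div_rpow hκpos.le hn0.le, Real.rpow_neg hn0.le]
    rfl
  set s := side d κ n with hsdef
  have hres := upper_estimate (n := n) hd hk1 hb hJ hv hc hc1 hcn hw hw2 hq1' b2 hK b3 hs e3.le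
    (by
      have h1 : 2 * (k * (s * (q:ℝ)⁻¹) / c) = s * (2 * (k * (q:ℝ)⁻¹ / c)) := by ring
      rw [h1]
      nlinarith) P
    (by
      have hρ : 0 < s * (q:ℝ)⁻¹ := mul_pos hs (inv_pos.2 hqpos)
      have hρs : s * (q:ℝ)⁻¹ ≤ s := by
        have : (q:ℝ)⁻¹ ≤ 1 := inv_le_one_of_one_le₀ b1
        nlinarith
      have h1 := bdIdx_card hb hs hρ hρs
      have h2 := core_card_le hs hb hJ hv
      set Zc : ℝ := ((core_finite hs hb).toFinset.card : ℝ) with hZc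
      set Bc : ℝ := ((bdIdx_finite hb s hρ).toFinset.card : ℝ) with hBc
      rw [hsd] at h2
      rw [mul_pow, hsd, inv_pow] at h1
      have h3 : Zc * κ ≤ n := by
        rw [← mul_div_assoc, div_le_one hn0] at h2
        exact h2
      have h4 : Bc * κ ≤ n * (κ - κ0) := by
        have h5 : Bc * (κ / n * ((q:ℝ)^d)⁻¹) ≤ (κ - κ0) / (q:ℝ)^d := h1.trans e2.le
        have h6 : Bc * (κ / n * ((q:ℝ)^d)⁻¹) = (Bc * κ / n) / (q:ℝ)^d := by ring
        rw [h6, div_le_div_iff_of_pos_right (by positivity), div_le_iff₀ hn0] at h5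
        linarith
      have hZc0 : 0 ≤ Zc := by positivity
      have h7 : Zc * ((P.card : ℝ) + (layerGrid d q w).card) ≤ Zc * κ0 := by gcongr
      have h8 : (Zc * κ0 + Bc) * κ ≤ n * κ := by nlinarith
      have h9 : Zc * κ0 + Bc ≤ n := le_of_mul_le_mul_right h8 hκpos
      exact (add_le_add_left h7 Bc).trans h9)
  refine hres.trans (ENNReal.ofReal_le_ofReal ?_)
  have h1 : s ^ k * ((1 + (2 ^ k * K * (d:ℝ)^k) * ((d:ℝ)^k * k * (q:ℝ)⁻¹)) * r0 d k P)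
        + (d:ℝ)^k * (((d:ℝ)^k * k + k / c) * (s * (q:ℝ)⁻¹))^k * (2 * d * w + tau D s)
      = (κ ^ p * (A + M0 * (2 * d * w + tau D s))) * (n:ℝ) ^ (-p) := by
    have h2 : (((d:ℝ)^k * k + k / c) * (s * (q:ℝ)⁻¹))^k = s ^ k * (C1 * (q:ℝ)⁻¹)^k := by
      rw [hC1, ← mul_pow]; congr 1; ring
    rw [h2, hsk, hA, hM0, hK']
    ring
  rw [h1]
  have h2 : κ ^ p * (A + M0 * (2 * d * w + tau D s)) ≤ c' := by
    refine le_trans ?_ htc.le
    have : 0 ≤ M0 := by positivity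
    gcongr
  exact mul_le_mul_of_nonneg_right h2 (Real.rpow_nonneg hn0.le _)

theorem minError_le_one {d k : ℕ} {D : Set (E d)} (hb : Bornology.IsBounded D)
    (hJ : volume (frontier D) = 0) (hv : volume D = 1) (n : ℕ) :
    minError D (smoothClass k D) n ≤ 1 := by
  have hDne : D.Nonempty := by
    rw [Set.nonempty_iff_ne_empty]
    rintro rfl
    simp at hv
  have := upper_radius (n := n) (B := 1) hDne
    (fun f hf => smoothClass_integrable (k := k) hb hJ hf)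
    (fun f hf g hg => smoothClass_half_sub hf hg) ∅ (by simp) (by simp) (fun f hf _ => by
      have h1 : ∫ x in D, f x = ∫ x in interior D, f x := setIntegral_congr_set (ae_interior hJ)
      rw [h1]
      have h2 : volume (interior D) < ⊤ := by rw [volume_interior hJ hv]; simp
      have h3 := norm_setIntegral_le_of_norm_le_const (μ := volume) (f := f) h2
        (fun x hx => (hf.2.1 x (interior_subset hx) : ‖f x‖ ≤ 1))
      rw [measureReal_def, volume_interior hJ hv] at h3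
      simp only [ENNReal.toReal_one, mul_one, Real.norm_eq_abs] at h3
      exact (le_abs_self _).trans h3)
  simpa using this

/-- the constant is an asymptotic lower bound for every Jordan measurable domain -/
theorem main_lower {d k : ℕ} (hd : 1 ≤ d) (hk1 : 1 ≤ k) {D : Set (E d)}
    (hb : Bornology.IsBounded D) (hJ : volume (frontier D) = 0) (hv : volume D = 1)
    (hC : 0 < C0 d k) {a : ℝ} (ha : a < C0 d k) :
    ∀ᶠ n : ℕ in atTop, a < scaledError k D n := by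
  have hfin : ∀ n, minError D (smoothClass k D) n ≠ ⊤ := fun n =>
    ((minError_le_one hb hJ hv n).trans_lt (by simp)).ne
  obtain ⟨c', h1, h2⟩ := exists_between (max_lt ha hC)
  obtain ⟨c, h3, h4⟩ := exists_between h2
  have h5 := lt_C0 hd h4
  obtain ⟨m0, hm0⟩ := eventually_atTop.1 (h5.and (eventually_ge_atTop 1))
  have hc'0 : 0 < c' := lt_of_le_of_lt (le_max_right _ _) h1
  have h6 := lower_asymp (k := k) hd hb hJ hv (hc'0.trans h3) h3 (m0 := max m0 1)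
    (le_max_right _ _) (fun m hm => by
      have h7 := (hm0 m ((le_max_left _ _).trans hm)).1
      have h8 : (0:ℝ) < m := by
        exact_mod_cast (show 0 < m from lt_of_lt_of_le zero_lt_one ((le_max_right _ _).trans hm))
      have h9 : (0:ℝ) < (m:ℝ)^((k:ℝ)/d) := Real.rpow_pos_of_pos h8 _
      rw [Real.rpow_neg h8.le, ← div_eq_mul_inv, div_le_iff₀ h9]
      exact h7.le)
  filter_upwards [h6, eventually_ge_atTop 1] with n hn hn1
  have hn0 : (0:ℝ) < n := by exact_mod_cast hn1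
  have h9 : (0:ℝ) < (n:ℝ)^((k:ℝ)/d) := Real.rpow_pos_of_pos hn0 _
  have h10 := (ENNReal.ofReal_le_iff_le_toReal (hfin n)).1 hn
  have h11 := mul_le_mul_of_nonneg_right h10 h9.le
  rw [mul_assoc, Real.rpow_neg hn0.le, inv_mul_cancel₀ h9.ne', mul_one] at h11
  exact (lt_of_le_of_lt (le_max_left _ _) h1).trans_le h11

/-- the limit exists and is the universal constant, under the interior cone condition -/
theorem main_limit {d k : ℕ} (hd : 1 ≤ d) (hk1 : 1 ≤ k) {D : Set (E d)}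
    (hb : Bornology.IsBounded D) (hJ : volume (frontier D) = 0) (hv : volume D = 1)
    (hcone : InteriorCone D) (hC : 0 < C0 d k) :
    Tendsto (scaledError k D) atTop (𝓝 (C0 d k)) := by
  rw [tendsto_order]
  refine ⟨fun a ha => main_lower hd hk1 hb hJ hv hC ha, ?_⟩
  intro a ha
  obtain ⟨c', h1, h2⟩ := exists_between ha
  have h3 := upper_asymp hd hk1 hb hJ hv hcone h1
  filter_upwards [h3, eventually_ge_atTop 1] with n hn hn1
  have hn0 : (0:ℝ) < n := by exact_mod_cast hn1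
  have h9 : (0:ℝ) < (n:ℝ)^((k:ℝ)/d) := Real.rpow_pos_of_pos hn0 _
  have hc'0 : 0 < c' := hC.trans h1
  have h10 := ENNReal.toReal_le_of_le_ofReal (by positivity) hn
  have h11 := mul_le_mul_of_nonneg_right h10 h9.le
  rw [mul_assoc, Real.rpow_neg hn0.le, inv_mul_cancel₀ h9.ne', mul_one] at h11
  exact h11.trans_lt h2

/-- positivity of the constant, given one regular domain -/
theorem C0_pos_of {d k : ℕ} (hd : 1 ≤ d) (hk1 : 1 ≤ k) {D : Set (E d)}
    (hb : Bornology.IsBounded D) (hJ : volume (frontier D) = 0) (hv : volume D = 1)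
    (hcone : InteriorCone D) : 0 < C0 d k := by
  obtain ⟨c, hc, h1⟩ := lower_pos (k := k) hd hb hJ hv
  by_contra hcon
  have h2 : C0 d k < c := lt_of_le_of_lt (not_lt.1 hcon) hc
  obtain ⟨c', h3, h4⟩ := exists_between h2
  have h5 := upper_asymp hd hk1 hb hJ hv hcone h3
  obtain ⟨n, ⟨h6, h7⟩, hn⟩ := ((h1.and h5).and (eventually_ge_atTop 1)).exists
  have hn0 : (0:ℝ) < n := by exact_mod_cast hn
  have h8 := h6.trans h7
  have h9 : (0:ℝ) < (n:ℝ)^(-((k:ℝ)/d)) := Real.rpow_pos_of_pos hn0 _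
  have h10 : c' * (n:ℝ)^(-((k:ℝ)/d)) < c * (n:ℝ)^(-((k:ℝ)/d)) := mul_lt_mul_of_pos_right h4 h9
  have h11 := (ENNReal.ofReal_lt_ofReal_iff (by positivity)).2 h10
  exact absurd h8 (not_le.2 h11)

end Pool.Agent.Helper228.CkInt
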