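import Pool.Agent.Helper228.CkInt.L

open scoped ENNReal NNReal Topology
open MeasureTheory Filter Set

namespace Pool.Agent.Helper228.CkInt

/-- bounded convex sets with nonempty interior satisfy the interior cone condition -/
theorem interiorCone_of_convex {d : ℕ} (hd : 1 ≤ d) {D : Set (E d)} (hc : Convex ℝ D)
    (hb : Bornology.IsBounded D) (hne : (interior D).Nonempty) : InteriorCone D := by
  obtain ⟨y0, hy0⟩ := hne
  obtain ⟨δ, hδ, hball⟩ := Metric.nhds_basis_closedBall.mem_iff.1 (isOpen_interior.mem_nhds hy0)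
  obtain ⟨R, hR0, hR⟩ : ∃ R : ℝ, 0 < R ∧ D ⊆ Metric.closedBall y0 R := by
    obtain ⟨R, hR⟩ := hb.subset_closedBall y0
    exact ⟨max R 1, by positivity, hR.trans (Metric.closedBall_subset_closedBall (le_max_left _ _))⟩
  have hci : Convex ℝ (interior D) := hc.interior
  refine ⟨δ/4, by positivity, min 1 (δ/R), by positivity, fun x hx => ?_⟩
  have hcx : min 1 (δ/R) ≤ 1 := min_le_left _ _
  by_cases hxy : ‖y0 - x‖ < δ/2
  · refine ⟨Pi.single ⟨0, hd⟩ 1, by rw [Pi.norm_single]; simp, fun t ht htr z hz => ?_⟩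
    apply hball
    rw [Metric.mem_closedBall] at hz ⊢
    have h1 := dist_triangle z (x + t • (Pi.single ⟨0, hd⟩ 1 : E d)) y0
    have h2 : dist (x + t • (Pi.single ⟨0, hd⟩ 1 : E d)) y0 ≤ dist x y0 + t := by
      have h3 := dist_triangle (x + t • (Pi.single ⟨0, hd⟩ 1 : E d)) x y0
      have h4 : dist (x + t • (Pi.single ⟨0, hd⟩ 1 : E d)) x = t := by
        rw [dist_eq_norm, add_sub_cancel_left, norm_smul, Pi.norm_single]
        simp [ht.le]
      linarith
    rw [← dist_eq_norm, dist_comm] at hxy
    have h5 : min 1 (δ/R) * t ≤ 1 * t := mul_le_mul_of_nonneg_right hcx ht.le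
    linarith
  · push Not at hxy
    have hn0 : 0 < ‖y0 - x‖ := by linarith
    refine ⟨‖y0 - x‖⁻¹ • (y0 - x), ?_, fun t ht htr z hz => ?_⟩
    · rw [norm_smul, norm_inv, norm_norm, inv_mul_cancel₀ hn0.ne']
    · set θ : ℝ := t / ‖y0 - x‖ with hθ
      have hθ0 : 0 < θ := by positivity
      have hθ1 : θ ≤ 1 := by rw [hθ, div_le_one hn0]; linarith
      set b : E d := y0 + θ⁻¹ • (z - (x + t • ‖y0 - x‖⁻¹ • (y0 - x))) with hb'
      have hbm : b ∈ interior D := by
        apply hball
        rw [Metric.mem_closedBall, dist_eq_norm, hb', add_sub_cancel_left, norm_smul, norm_inv,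
          Real.norm_of_nonneg hθ0.le, inv_mul_le_iff₀ hθ0]
        rw [Metric.mem_closedBall, dist_eq_norm] at hz
        refine hz.trans ?_
        have h1 : ‖y0 - x‖ ≤ R := by
          have := hR (interior_subset hx)
          rwa [Metric.mem_closedBall, dist_comm, dist_eq_norm] at this
        have h2 : min 1 (δ/R) ≤ δ / R := min_le_right _ _
        have h3 : δ / R ≤ δ / ‖y0 - x‖ := by gcongr
        calc min 1 (δ/R) * t ≤ (δ / ‖y0 - x‖) * t := by
              exact mul_le_mul_of_nonneg_right (h2.trans h3) ht.le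
          _ = θ * δ := by rw [hθ]; ring
      have hz2 : z = (1 - θ) • x + θ • b := by
        rw [hb', smul_add, smul_smul, mul_inv_cancel₀ hθ0.ne', one_smul, smul_smul]
        have h4 : t * ‖y0 - x‖⁻¹ = θ := by rw [hθ]; rfl
        rw [h4, sub_smul, one_smul, smul_sub]
        abel
      rw [hz2]
      exact hci hx hbm (by linarith) hθ0.le (by ring)

/-- the open unit cube satisfies the interior cone condition -/
theorem interiorCone_cube {d : ℕ} (hd : 1 ≤ d) : InteriorCone (cube d) := by
  refine interiorCone_of_convex hd ?_ ?_ ?_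
  · rw [cube_eq]; exact convex_pi (fun i _ => convex_Ioo 0 1)
  · exact (Metric.isBounded_Icc (0 : E d) 1).subset (cube_subset_Icc d)
  · rw [(isOpen_cube d).interior_eq]
    exact ⟨fun _ => 1/2, fun i => by norm_num⟩

theorem cube_bounded (d : ℕ) : Bornology.IsBounded (cube d) :=
  (Metric.isBounded_Icc (0 : E d) 1).subset (cube_subset_Icc d)

theorem cube_frontier_sub (d : ℕ) : volume (Icc (0 : E d) 1 \ cube d) = 0 := by
  have h1 : volume (Icc (0 : E d) 1) = 1 := by
    rw [Real.volume_Icc_pi]; simp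
  rw [measure_sdiff (cube_subset_Icc d) (isOpen_cube d).measurableSet.nullMeasurableSet
    (by rw [volume_cube]; simp), h1, volume_cube]
  simp

theorem cube_frontier (d : ℕ) : volume (frontier (cube d)) = 0 := by
  refine measure_mono_null ?_ (cube_frontier_sub d)
  intro x hx
  refine ⟨?_, ?_⟩
  · exact (closure_minimal (cube_subset_Icc d) isClosed_Icc) hx.1
  · have := hx.2
    rwa [(isOpen_cube d).interior_eq] at this

end Pool.Agent.Helper228.CkInt
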