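import Pool.Agent.Helper228.CkInt.Q
import Pool.Agent.Helper228.CkInt.J

open scoped ENNReal NNReal Topology
open MeasureTheory Filter Set

namespace Pool.Agent.Helper228.CkInt

/-- positions of the slits -/
noncomputable def bs (a : ℝ) (i : ℕ) : ℝ := ((i:ℝ)+1)^(-a)

theorem bs_pos (a : ℝ) (i : ℕ) : 0 < bs a i := Real.rpow_pos_of_pos (by positivity) _

theorem bs_zero (a : ℝ) : bs a 0 = 1 := by simp [bs]

theorem bs_le_one {a : ℝ} (ha : 0 < a) (i : ℕ) : bs a i ≤ 1 := by
  unfold bs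
  exact Real.rpow_le_one_of_one_le_of_nonpos (by have : (0:ℝ) ≤ i := Nat.cast_nonneg i
                                                 linarith) (by linarith)

theorem bs_anti {a : ℝ} (ha : 0 < a) {i j : ℕ} (h : i ≤ j) : bs a j ≤ bs a i := by
  unfold bs
  have h1 : (i:ℝ) ≤ j := by exact_mod_cast h
  exact Real.rpow_le_rpow_of_nonpos (by positivity) (by linarith) (by linarith)

theorem bs_tendsto {a : ℝ} (ha : 0 < a) : Tendsto (bs a) atTop (𝓝 0) := by
  have h1 : Tendsto (fun x : ℝ => x ^ (-a)) atTop (𝓝 0) := tendsto_rpow_neg_atTop ha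
  have h2 : Tendsto (fun i : ℕ => (i:ℝ) + 1) atTop atTop :=
    tendsto_atTop_add_const_right _ _ tendsto_natCast_atTop_atTop
  exact h1.comp h2

theorem bs_diff {a : ℝ} (ha : 0 < a) (i : ℕ) :
    a * ((i:ℝ)+2)^(-a-1) ≤ bs a i - bs a (i+1) := by
  unfold bs
  have h1 : (0:ℝ) < (i:ℝ)+1 := by positivity
  have h2 : (0:ℝ) < (i:ℝ)+2 := by positivity
  have e : ((i:ℝ)+1) = ((i:ℝ)+2) * (((i:ℝ)+1)/((i:ℝ)+2)) := by field_simp
  have h3 : (((i:ℝ)+1)/((i:ℝ)+2))^(-a) ≥ 1 + a / ((i:ℝ)+2) := by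
    have h4 : (0:ℝ) < ((i:ℝ)+1)/((i:ℝ)+2) := by positivity
    rw [Real.rpow_def_of_pos h4]
    have h5 := Real.add_one_le_exp (Real.log (((i:ℝ)+1)/((i:ℝ)+2)) * -a)
    have h6 := Real.log_le_sub_one_of_pos h4
    have h7 : ((i:ℝ)+1)/((i:ℝ)+2) - 1 = -(1 / ((i:ℝ)+2)) := by field_simp; ring
    rw [h7] at h6
    have h8 : a * Real.log (((i:ℝ)+1)/((i:ℝ)+2)) ≤ a * (-(1 / ((i:ℝ)+2))) :=
      mul_le_mul_of_nonneg_left h6 ha.le
    have h9 : a / ((i:ℝ)+2) = a * (1 / ((i:ℝ)+2)) := by ring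
    rw [h9]
    linarith
  have h10 : ((i:ℝ)+1)^(-a) = ((i:ℝ)+2)^(-a) * (((i:ℝ)+1)/((i:ℝ)+2))^(-a) := by
    rw [← Real.mul_rpow h2.le (by positivity), ← e]
  have h11 : (((i+1:ℕ):ℝ)+1) = (i:ℝ)+2 := by push_cast; ring
  have h12 : ((i:ℝ)+2)^(-a-1) = ((i:ℝ)+2)^(-a) * ((i:ℝ)+2)⁻¹ := by
    rw [sub_eq_add_neg, Real.rpow_add h2, Real.rpow_neg_one]
  rw [h11, h10, h12]
  have h13 : 0 < ((i:ℝ)+2)^(-a) := Real.rpow_pos_of_pos h2 _
  have h14 := mul_le_mul_of_nonneg_left h3.le h13.le
  have h15 : ((i:ℝ)+2)^(-a) * (1 + a / ((i:ℝ)+2))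
      = ((i:ℝ)+2)^(-a) + a * (((i:ℝ)+2)^(-a) * ((i:ℝ)+2)⁻¹) := by
    rw [div_eq_mul_inv]; ring
  linarith

/-- the unit cube with countably many slits -/
def slit (d : ℕ) (i0 : Fin d) (a : ℝ) : Set (E d) :=
  {x | x ∈ cube d ∧ ∀ i : ℕ, x i0 ≠ bs a i}

theorem slit_open {d : ℕ} (i0 : Fin d) {a : ℝ} (ha : 0 < a) : IsOpen (slit d i0 a) := by
  have h1 : IsClosed (insert (0:ℝ) (range (bs a))) := (bs_tendsto ha).isCompact_insert_range.isClosed
  have h2 : slit d i0 a = cube d ∩ (fun x : E d => x i0) ⁻¹' (insert (0:ℝ) (range (bs a)))ᶜ := by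
    ext x
    simp only [slit, Set.mem_ofPred_eq, mem_inter_iff, mem_preimage, mem_compl_iff, mem_insert_iff,
      mem_range, not_or, not_exists]
    constructor
    · rintro ⟨h3, h4⟩
      exact ⟨h3, (h3 i0).1.ne', fun i h => h4 i h.symm⟩
    · rintro ⟨h3, _, h4⟩
      exact ⟨h3, fun i h => h4 i h.symm⟩
  rw [h2]
  exact (isOpen_cube d).inter (h1.isOpen_compl.preimage (continuous_apply i0))

theorem slit_null {d : ℕ} (i0 : Fin d) (a : ℝ) :
    volume (⋃ i : ℕ, {x : E d | x i0 = bs a i}) = 0 := by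
  rw [measure_iUnion_null_iff]
  intro i
  exact Measure.pi_hyperplane (fun _ : Fin d => (volume : Measure ℝ)) i0 (bs a i)

theorem slit_volume {d : ℕ} (i0 : Fin d) (a : ℝ) : volume (slit d i0 a) = 1 := by
  have h1 : slit d i0 a = cube d \ ⋃ i : ℕ, {x : E d | x i0 = bs a i} := by
    ext x
    simp only [slit, Set.mem_ofPred_eq, Set.mem_sdiff, mem_iUnion, not_exists]
  rw [h1, measure_sdiff_null (slit_null i0 a), volume_cube]

theorem slit_frontier {d : ℕ} (i0 : Fin d) {a : ℝ} (ha : 0 < a) :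
    volume (frontier (slit d i0 a)) = 0 := by
  have h1 : frontier (slit d i0 a) ⊆ (Icc (0 : E d) 1 \ cube d)
      ∪ ⋃ i : ℕ, {x : E d | x i0 = bs a i} := by
    intro x hx
    have h2 : x ∈ Icc (0 : E d) 1 :=
      (closure_minimal (Subset.trans (show slit d i0 a ⊆ cube d from fun y hy => hy.1)
        (cube_subset_Icc d)) isClosed_Icc) hx.1
    have h3 : x ∉ slit d i0 a := by
      have := hx.2
      rwa [(slit_open i0 ha).interior_eq] at this
    by_cases hc : x ∈ cube d
    · right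
      by_contra hcon
      simp only [mem_iUnion, Set.mem_ofPred_eq, not_exists] at hcon
      exact h3 ⟨hc, hcon⟩
    · left; exact ⟨h2, hc⟩
  exact measure_mono_null h1 (measure_union_null (cube_frontier_sub d) (slit_null i0 a))

/-- a slab between consecutive slits -/
def slab (d : ℕ) (i0 : Fin d) (a : ℝ) (m : ℕ) : Set (E d) :=
  {x | x ∈ cube d ∧ bs a (m+1) < x i0 ∧ x i0 < bs a m}

theorem slab_open {d : ℕ} (i0 : Fin d) (a : ℝ) (m : ℕ) : IsOpen (slab d i0 a m) := by
  have : slab d i0 a m = cube d ∩ (fun x : E d => x i0) ⁻¹' (Ioo (bs a (m+1)) (bs a m)) := by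
    ext x
    simp only [slab, Set.mem_ofPred_eq, mem_inter_iff, mem_preimage, mem_Ioo]
  rw [this]
  exact (isOpen_cube d).inter (isOpen_Ioo.preimage (continuous_apply i0))

theorem slab_unique {d : ℕ} {i0 : Fin d} {a : ℝ} (ha : 0 < a) {m m' : ℕ} {x : E d}
    (h : x ∈ slab d i0 a m) (h' : x ∈ slab d i0 a m') : m = m' := by
  by_contra hne
  rcases lt_or_gt_of_ne hne with hlt | hlt
  · have := bs_anti ha (show m + 1 ≤ m' by omega)
    linarith [h.2.1, h'.2.2]
  · have := bs_anti ha (show m' + 1 ≤ m by omega)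
    linarith [h'.2.1, h.2.2]

theorem slab_cover {d : ℕ} {i0 : Fin d} {a : ℝ} (ha : 0 < a) {x : E d} (hx : x ∈ slit d i0 a) :
    ∃ m, x ∈ slab d i0 a m := by
  classical
  have hx0 := (hx.1 i0).1
  have hx1 := (hx.1 i0).2
  have hex : ∃ i, bs a i < x i0 := by
    have := (bs_tendsto ha).eventually (gt_mem_nhds hx0)
    exact this.exists
  set i := Nat.find hex with hi
  have h1 : bs a i < x i0 := Nat.find_spec hex
  have h0 : i ≠ 0 := by
    intro h
    rw [h, bs_zero] at h1
    linarith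
  obtain ⟨m, hm⟩ := Nat.exists_eq_succ_of_ne_zero h0
  refine ⟨m, hx.1, ?_, ?_⟩
  · rw [hm] at h1; exact h1
  · have h2 : ¬ bs a m < x i0 := Nat.find_min hex (by omega)
    exact lt_of_le_of_ne (not_lt.1 h2) (hx.2 m)

theorem slab_sub {d : ℕ} {i0 : Fin d} {a : ℝ} (ha : 0 < a) (m : ℕ) :
    slab d i0 a m ⊆ slit d i0 a := by
  intro x hx
  refine ⟨hx.1, fun i hi => ?_⟩
  rcases le_or_gt i m with h | h
  · have := bs_anti ha h
    linarith [hx.2.2]
  · have := bs_anti ha (show m + 1 ≤ i from h)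
    linarith [hx.2.1]

theorem slab_volume {d : ℕ} {i0 : Fin d} {a : ℝ} (ha : 0 < a) (m : ℕ) :
    volume (slab d i0 a m) = ENNReal.ofReal (bs a m - bs a (m+1)) := by
  classical
  have h1 : slab d i0 a m = Set.pi univ (fun j => Ioo (if j = i0 then bs a (m+1) else 0)
      (if j = i0 then bs a m else 1)) := by
    ext x
    simp only [slab, Set.mem_ofPred_eq, Set.mem_pi, mem_univ, true_imp_iff, mem_Ioo, cube]
    constructor
    · rintro ⟨h2, h3, h4⟩ j
      by_cases hj : j = i0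
      · subst hj; simp [h3, h4]
      · simp only [hj, if_false]; exact h2 j
    · intro h2
      have h3 := h2 i0
      simp only [if_true] at h3
      refine ⟨fun j => ?_, h3.1, h3.2⟩
      by_cases hj : j = i0
      · subst hj
        exact ⟨(bs_pos a _).trans h3.1, h3.2.trans_le (bs_le_one ha m)⟩
      · have := h2 j
        simp only [hj, if_false] at this
        exact this
  rw [h1, Real.volume_pi_Ioo]
  rw [Finset.prod_eq_single i0]
  · simp
  · intro j _ hj
    simp [hj]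
  · simp

/-- lower bound for the error on the slit cube -/
theorem slit_lower {d k n : ℕ} {i0 : Fin d} {a : ℝ} (ha : 0 < a) (hn : 1 ≤ n) :
    ENNReal.ofReal (a * ((n:ℝ) * (3 * n)^(-a-1)))
      ≤ minError (slit d i0 a) (smoothClass k (slit d i0 a)) n := by
  classical
  refine lower_radius (fun x => ?_)
  have hcov : ∀ i, ∃ m, (x i : E d) ∈ slab d i0 a m := fun i => slab_cover ha (x i).2
  choose g hg using hcov
  set H : Finset ℕ := Finset.range (2 * n) \ Finset.univ.image g with hH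
  have hHc : n ≤ H.card := by
    have h1 := Finset.le_card_sdiff (Finset.univ.image g) (Finset.range (2 * n))
    have h2 : (Finset.univ.image g).card ≤ n := by
      simpa using Finset.card_image_le (s := (Finset.univ : Finset (Fin n))) (f := g)
    rw [Finset.card_range, ← hH] at h1
    omega
  set V : Set (E d) := ⋃ m ∈ H, slab d i0 a m with hV
  have hVo : IsOpen V := isOpen_biUnion (fun m _ => slab_open i0 a m)
  have hVs : V ⊆ slit d i0 a := iUnion₂_subset (fun m _ => slab_sub ha m)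
  have hint : interior (slit d i0 a) = slit d i0 a := (slit_open i0 ha).interior_eq
  set f : E d → ℝ := V.indicator (fun _ => 1) with hf
  have hloc : ∀ y ∈ slit d i0 a, ∃ c : ℝ, |c| ≤ 1 ∧ f =ᶠ[𝓝 y] fun _ => c := by
    intro y hy
    obtain ⟨m, hm⟩ := slab_cover ha hy
    by_cases hmH : m ∈ H
    · refine ⟨1, by norm_num, ?_⟩
      filter_upwards [(slab_open i0 a m).mem_nhds hm] with z hz
      rw [hf, Set.indicator_of_mem]
      exact Set.mem_iUnion₂.2 ⟨m, hmH, hz⟩
    · refine ⟨0, by norm_num, ?_⟩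
      filter_upwards [(slab_open i0 a m).mem_nhds hm] with z hz
      rw [hf, Set.indicator_of_notMem]
      intro hcon
      obtain ⟨m', hm', hz'⟩ := Set.mem_iUnion₂.1 hcon
      exact hmH (slab_unique ha hz hz' ▸ hm')
  have hfF : f ∈ smoothClass k (slit d i0 a) := by
    refine ⟨?_, fun y hy => ?_, fun m _ j y hy => ?_⟩
    · rw [hint]
      intro y hy
      obtain ⟨c, _, h⟩ := hloc y hy
      exact (contDiffAt_const.congr_of_eventuallyEq h).contDiffWithinAt
    · obtain ⟨c, h1, h⟩ := hloc y hy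
      rw [h.eq_of_nhds]; exact h1
    · rw [hint] at hy
      obtain ⟨c, h1, h⟩ := hloc y hy
      rw [(h.iteratedFDeriv ℝ m).eq_of_nhds]
      rcases Nat.eq_zero_or_pos m with rfl | hm
      · simpa using h1
      · rw [iteratedFDeriv_const_of_ne (by omega)]
        simp
  refine ⟨f, hfF, smoothClass_neg hfF, fun i => ?_, ?_⟩
  · rw [hf, Set.indicator_of_notMem]
    intro hcon
    obtain ⟨m, hm, hz⟩ := Set.mem_iUnion₂.1 hcon
    have := slab_unique ha hz (hg i)
    rw [hH, Finset.mem_sdiff] at hm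
    exact hm.2 (this ▸ Finset.mem_image_of_mem g (Finset.mem_univ i))
  · have h1 : ∫ y in slit d i0 a, f y = (volume V).toReal := by
      rw [hf, setIntegral_indicator hVo.measurableSet, inter_eq_self_of_subset_right hVs,
        setIntegral_const, smul_eq_mul, mul_one, measureReal_def]
    rw [h1]
    have h2 : volume V = ∑ m ∈ H, ENNReal.ofReal (bs a m - bs a (m+1)) := by
      rw [hV, measure_biUnion_finset]
      · exact Finset.sum_congr rfl (fun m _ => slab_volume ha m)
      · intro m _ m' _ hmm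
        rw [Function.onFun, Set.disjoint_left]
        intro z hz hz'
        exact hmm (slab_unique ha hz hz')
      · exact fun m _ => (slab_open i0 a m).measurableSet
    have hnn : ∀ m ∈ H, 0 ≤ bs a m - bs a (m+1) := fun m _ => by
      linarith [bs_anti ha (Nat.le_succ m)]
    rw [h2, ← ENNReal.ofReal_sum_of_nonneg hnn, ENNReal.toReal_ofReal (Finset.sum_nonneg hnn)]
    have h3 : ∀ m ∈ H, a * (3 * (n:ℝ))^(-a-1) ≤ bs a m - bs a (m+1) := by
      intro m hm
      refine le_trans ?_ (bs_diff ha m)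
      refine mul_le_mul_of_nonneg_left ?_ ha.le
      rw [hH, Finset.mem_sdiff, Finset.mem_range] at hm
      have h4 : ((m:ℝ) + 2) ≤ 3 * n := by
        have : m + 2 ≤ 3 * n := by omega
        exact_mod_cast this
      exact Real.rpow_le_rpow_of_nonpos (by positivity) h4 (by linarith)
    calc a * ((n:ℝ) * (3 * n)^(-a-1)) = (n:ℝ) * (a * (3 * (n:ℝ))^(-a-1)) := by ring
      _ ≤ (H.card : ℝ) * (a * (3 * (n:ℝ))^(-a-1)) := by
          have : (n:ℝ) ≤ H.card := by exact_mod_cast hHc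
          gcongr
      _ = ∑ m ∈ H, a * (3 * (n:ℝ))^(-a-1) := by rw [Finset.sum_const, nsmul_eq_mul]
      _ ≤ _ := Finset.sum_le_sum h3

theorem le_one_of_unit {d k : ℕ} {D : Set (E d)} (hb : Bornology.IsBounded D)
    (hJ : volume (frontier D) = 0) (hv : volume D = 1) (n : ℕ) :
    minError D (smoothClass k D) n ≤ 1 := by
  have hDne : D.Nonempty := by
    rw [Set.nonempty_iff_ne_empty]
    rintro rfl
    simp at hv
  have := upper_radius (n := n) (B := 1) hDne
    (fun f hf => smoothClass_integrable (k := k) hb hJ hf)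
    (fun f hf g hg => smoothClass_half_sub hf hg) ∅ (by simp) (by simp) (fun f hf _ => by
      have h1 : ∫ x in D, f x = ∫ x in interior D, f x := setIntegral_congr_set (ae_interior hJ)
      rw [h1]
      have h2 : volume (interior D) < ⊤ := by rw [volume_interior hJ hv]; simp
      have h3 := norm_setIntegral_le_of_norm_le_const (μ := volume) (f := f) h2
        (fun x hx => (hf.2.1 x (interior_subset hx) : ‖f x‖ ≤ 1))
      rw [measureReal_def, volume_interior hJ hv] at h3
      simp only [ENNReal.toReal_one, mul_one, Real.norm_eq_abs] at h3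
      exact (le_abs_self _).trans h3)
  simpa using this

/-- from a power lower bound with a small exponent to divergence of the scaled errors -/
theorem top_of_lower {d k : ℕ} (hd : 1 ≤ d) (hk1 : 1 ≤ k) {D : Set (E d)}
    (hb : Bornology.IsBounded D) (hJ : volume (frontier D) = 0) (hv : volume D = 1)
    {K : ℝ} (hK : 0 < K)
    (h : ∀ n : ℕ, 1 ≤ n → ENNReal.ofReal (K * ((1/(2*d)) * ((n:ℝ) * (3 * n)^(-(1/(2*d) : ℝ)-1))))
      ≤ minError D (smoothClass k D) n) :
    Tendsto (scaledError k D) atTop atTop := by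
  have hd0 : (0:ℝ) < d := by exact_mod_cast hd
  set a : ℝ := 1/(2*d) with ha'
  have ha : 0 < a := by positivity
  have hk0 : (1:ℝ) ≤ k := by exact_mod_cast hk1
  set e : ℝ := (k:ℝ)/d - a with he
  have he0 : 0 < e := by
    have : (k:ℝ)/d - a = (2 * k - 1) / (2 * d) := by rw [ha']; field_simp
    rw [he, this]
    have : 0 < 2 * (k:ℝ) - 1 := by linarith
    positivity
  have h1 : Tendsto (fun n : ℕ => K * (a * 3^(-a-1)) * (n:ℝ)^e) atTop atTop := by
    refine Tendsto.const_mul_atTop (by positivity) ?_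
    exact (tendsto_rpow_atTop he0).comp tendsto_natCast_atTop_atTop
  refine tendsto_atTop_mono' _ ?_ h1
  filter_upwards [eventually_ge_atTop 1] with n hn
  have hn0 : (0:ℝ) < n := by exact_mod_cast hn
  have hfin : minError D (smoothClass k D) n ≠ ⊤ :=
    ((le_one_of_unit hb hJ hv n).trans_lt (by simp)).ne
  have h3 := (ENNReal.ofReal_le_iff_le_toReal hfin).1 (h n hn)
  have h5 : (n:ℝ) * (3 * (n:ℝ))^(-a-1) = 3^(-a-1) * (n:ℝ)^(-a) := by
    rw [Real.mul_rpow (by norm_num) hn0.le, sub_eq_add_neg (-a) 1, Real.rpow_add hn0,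
      Real.rpow_neg_one]
    field_simp
  have h6 : (n:ℝ)^e = (n:ℝ)^(-a) * (n:ℝ)^((k:ℝ)/d) := by
    rw [← Real.rpow_add hn0, he]; congr 1; ring
  have h4 : K * (a * 3^(-a-1)) * (n:ℝ)^e
      = (K * (a * ((n:ℝ) * (3 * n)^(-a-1)))) * (n:ℝ) ^ ((k:ℝ)/d) := by
    rw [h5, h6]; ring
  show K * (a * 3^(-a-1)) * (n:ℝ)^e ≤ (minError D (smoothClass k D) n).toReal * (n:ℝ)^((k:ℝ)/d)
  rw [h4]
  exact mul_le_mul_of_nonneg_right h3 (Real.rpow_nonneg hn0.le _)

/-- on the slit cube the scaled errors tend to infinity -/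
theorem slit_top {d k : ℕ} (i0 : Fin d) (hk1 : 1 ≤ k) :
    Tendsto (scaledError k (slit d i0 (1/(2*d)))) atTop atTop := by
  have hd : 1 ≤ d := by have := i0.2; omega
  have hd0 : (0:ℝ) < d := by exact_mod_cast hd
  have ha : (0:ℝ) < 1/(2*d) := by positivity
  refine top_of_lower hd hk1 ((cube_bounded d).subset (fun x hx => hx.1))
    (slit_frontier i0 ha) (slit_volume i0 _) zero_lt_one (fun n hn => ?_)
  rw [one_mul]
  exact slit_lower ha hn

end Pool.Agent.Helper228.CkInt
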