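import Pool.Agent.Helper228.CkInt.S

open scoped ENNReal NNReal Topology
open MeasureTheory Filter Set

namespace Pool.Agent.Helper228.CkInt

/-- the comb: cube with countably many slits reaching half way -/
def comb (d : ℕ) (i0 i1 : Fin d) (a : ℝ) : Set (E d) :=
  slit d i0 a ∪ {x | x ∈ cube d ∧ 1/2 < x i1}

theorem comb_top_open {d : ℕ} (i1 : Fin d) : IsOpen {x : E d | x ∈ cube d ∧ 1/2 < x i1} := by
  have : {x : E d | x ∈ cube d ∧ 1/2 < x i1} = cube d ∩ (fun x : E d => x i1) ⁻¹' (Ioi (1/2)) := rfl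
  rw [this]
  exact (isOpen_cube d).inter (isOpen_Ioi.preimage (continuous_apply i1))

theorem comb_open {d : ℕ} (i0 i1 : Fin d) {a : ℝ} (ha : 0 < a) : IsOpen (comb d i0 i1 a) :=
  (slit_open i0 ha).union (comb_top_open i1)

theorem comb_sub_cube {d : ℕ} (i0 i1 : Fin d) (a : ℝ) : comb d i0 i1 a ⊆ cube d := by
  rintro x (h | h)
  · exact h.1
  · exact h.1

theorem comb_volume {d : ℕ} (i0 i1 : Fin d) (a : ℝ) : volume (comb d i0 i1 a) = 1 := by
  refine le_antisymm ?_ ?_
  · exact (measure_mono (comb_sub_cube i0 i1 a)).trans (volume_cube d).le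
  · exact (slit_volume i0 a).ge.trans (measure_mono subset_union_left)

theorem comb_frontier {d : ℕ} (i0 i1 : Fin d) {a : ℝ} (ha : 0 < a) :
    volume (frontier (comb d i0 i1 a)) = 0 := by
  have h1 : frontier (comb d i0 i1 a) ⊆ (Icc (0 : E d) 1 \ cube d)
      ∪ ⋃ i : ℕ, {x : E d | x i0 = bs a i} := by
    intro x hx
    have h2 : x ∈ Icc (0 : E d) 1 :=
      (closure_minimal (Subset.trans (comb_sub_cube i0 i1 a)
        (cube_subset_Icc d)) isClosed_Icc) hx.1
    have h3 : x ∉ comb d i0 i1 a := by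
      have := hx.2
      rwa [(comb_open i0 i1 ha).interior_eq] at this
    by_cases hc : x ∈ cube d
    · right
      by_contra hcon
      simp only [mem_iUnion, Set.mem_ofPred_eq, not_exists] at hcon
      exact h3 (Or.inl ⟨hc, hcon⟩)
    · left; exact ⟨h2, hc⟩
  exact measure_mono_null h1 (measure_union_null (cube_frontier_sub d) (slit_null i0 a))

theorem comb_connected {d : ℕ} {i0 i1 : Fin d} (hne : i0 ≠ i1) (a : ℝ) :
    IsConnected (comb d i0 i1 a) := by
  set T : Set (E d) := {x : E d | x ∈ cube d ∧ 1/2 < x i1} with hT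
  have hTc : Convex ℝ T := by
    have h1 : Convex ℝ (cube d) := by rw [cube_eq]; exact convex_pi (fun i _ => convex_Ioo 0 1)
    have h2 : Convex ℝ ((fun x : E d => x i1) ⁻¹' (Ioi (1/2))) :=
      (convex_Ioi (1/2 : ℝ)).linear_preimage (LinearMap.proj i1 : E d →ₗ[ℝ] ℝ)
    exact h1.inter h2
  have hx0 : (fun _ => 3/4 : E d) ∈ T := ⟨fun i => by norm_num, by norm_num⟩
  refine ⟨⟨_, Or.inr hx0⟩, isPreconnected_of_forall (fun _ => 3/4 : E d) (fun y hy => ?_)⟩
  -- lift the point `y`
  set y' : E d := Function.update y i1 (max (y i1) (3/4)) with hy'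
  have hyc : y ∈ cube d := comb_sub_cube i0 i1 a hy
  have hy'T : y' ∈ T := by
    refine ⟨fun i => ?_, ?_⟩
    · by_cases hi : i = i1
      · subst hi
        rw [hy', Function.update_self]
        exact ⟨lt_max_of_lt_left (hyc i).1, max_lt (hyc i).2 (by norm_num)⟩
      · rw [hy', Function.update_of_ne hi]; exact hyc i
    · rw [hy', Function.update_self]
      exact lt_max_of_lt_right (by norm_num)
  refine ⟨segment ℝ y y' ∪ T, ?_, Or.inr hx0, Or.inl (left_mem_segment ℝ y y'), ?_⟩
  · refine union_subset ?_ subset_union_right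
    intro z hz
    have hzc : z ∈ cube d := by
      have h1 : Convex ℝ (cube d) := by rw [cube_eq]; exact convex_pi (fun i _ => convex_Ioo 0 1)
      exact h1.segment_subset hyc hy'T.1 hz
    have hz0 : z i0 = y i0 := by
      obtain ⟨s, t, _, _, hst, rfl⟩ := hz
      simp only [Pi.add_apply, Pi.smul_apply, smul_eq_mul, hy', Function.update_of_ne hne]
      rw [← add_mul, hst, one_mul]
    have hz1 : y i1 ≤ z i1 := by
      obtain ⟨s, t, hs, ht, hst, rfl⟩ := hz
      simp only [Pi.add_apply, Pi.smul_apply, smul_eq_mul, hy', Function.update_self]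
      have h3 : t * y i1 ≤ t * max (y i1) (3/4) :=
        mul_le_mul_of_nonneg_left (le_max_left (y i1) (3/4)) ht
      have h4 : y i1 = s * y i1 + t * y i1 := by rw [← add_mul, hst, one_mul]
      linarith
    rcases hy with h | h
    · left
      exact ⟨hzc, fun i => by rw [hz0]; exact h.2 i⟩
    · right
      exact ⟨hzc, h.2.trans_le hz1⟩
  · exact ((convex_segment y y').isPreconnected).union' ⟨y', right_mem_segment ℝ y y', hy'T⟩
      hTc.isPreconnected

/-- profile of the test functions on the teeth of the comb -/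
noncomputable def eta (t : ℝ) : ℝ := Real.smoothTransition (3 - 8 * t)

theorem eta_one {t : ℝ} (h : t ≤ 1/4) : eta t = 1 :=
  Real.smoothTransition.one_of_one_le (by linarith)

theorem eta_zero {t : ℝ} (h : 3/8 ≤ t) : eta t = 0 :=
  Real.smoothTransition.zero_of_nonpos (by linarith)

theorem eta_contDiff (d : ℕ) (i1 : Fin d) (n : ℕ) : ContDiff ℝ n (fun x : E d => eta (x i1)) := by
  unfold eta
  refine Real.smoothTransition.contDiff.comp ?_
  exact contDiff_const.sub (contDiff_const.mul (contDiff_apply ℝ ℝ i1))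

theorem eta_bound (d k : ℕ) (i1 : Fin d) : ∃ K : ℝ, 1 ≤ K ∧ ∀ m ≤ k, ∀ y ∈ Icc (0 : E d) 1,
    ‖iteratedFDeriv ℝ m (fun x : E d => eta (x i1)) y‖ ≤ K := by
  have h2 : ∀ m : ℕ, ∃ C : ℝ, ∀ y ∈ Icc (0 : E d) 1,
      ‖iteratedFDeriv ℝ m (fun x : E d => eta (x i1)) y‖ ≤ C := by
    intro m
    have h3 : Continuous (iteratedFDeriv ℝ m (fun x : E d => eta (x i1))) :=
      (eta_contDiff d i1 m).continuous_iteratedFDeriv le_rfl
    exact isCompact_Icc.exists_bound_of_continuousOn h3.continuousOn
  choose C hC using h2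
  refine ⟨1 + ∑ i ∈ Finset.range (k+1), |C i|, ?_, fun i hi y hy => ?_⟩
  · have : 0 ≤ ∑ i ∈ Finset.range (k+1), |C i| := Finset.sum_nonneg (fun i _ => abs_nonneg _)
    linarith
  · have h4 : |C i| ≤ ∑ i ∈ Finset.range (k+1), |C i| :=
      Finset.single_le_sum (f := fun i => |C i|) (fun i _ => abs_nonneg _)
        (Finset.mem_range.2 (by omega))
    have h5 := (hC i y hy).trans (le_abs_self _)
    linarith

/-- lower part of a tooth -/
theorem tooth_volume {d : ℕ} {i0 i1 : Fin d} (hne : i0 ≠ i1) {a : ℝ} (ha : 0 < a) (m : ℕ) :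
    volume (slab d i0 a m ∩ {x | x i1 < 1/4}) = ENNReal.ofReal ((bs a m - bs a (m+1)) / 4) := by
  classical
  have h1 : slab d i0 a m ∩ {x | x i1 < 1/4} = Set.pi univ (fun j => Ioo
      (if j = i0 then bs a (m+1) else 0)
      (if j = i0 then bs a m else if j = i1 then 1/4 else 1)) := by
    ext x
    simp only [slab, Set.mem_ofPred_eq, Set.mem_pi, mem_univ, true_imp_iff, mem_Ioo, cube,
      mem_inter_iff]
    constructor
    · rintro ⟨⟨h2, h3, h4⟩, h5⟩ j
      by_cases hj : j = i0
      · subst hj; simp [h3, h4]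
      · simp only [hj, if_false]
        by_cases hj1 : j = i1
        · subst hj1; simp only [if_true]; exact ⟨(h2 j).1, h5⟩
        · simp only [hj1, if_false]; exact h2 j
    · intro h2
      have h3 := h2 i0
      have h5 := h2 i1
      simp only [if_true] at h3
      simp only [hne.symm, if_false, if_true] at h5
      refine ⟨⟨fun j => ?_, h3.1, h3.2⟩, h5.2⟩
      by_cases hj : j = i0
      · subst hj
        exact ⟨(bs_pos a _).trans h3.1, h3.2.trans_le (bs_le_one ha m)⟩
      · have := h2 j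
        simp only [hj, if_false] at this
        by_cases hj1 : j = i1
        · subst hj1
          simp only [if_true] at this
          exact ⟨this.1, by linarith [this.2]⟩
        · simp only [hj1, if_false] at this
          exact this
  rw [h1, Real.volume_pi_Ioo]
  have hnn : 0 ≤ bs a m - bs a (m+1) := by linarith [bs_anti ha (Nat.le_succ m)]
  rw [← Finset.mul_prod_erase Finset.univ _ (Finset.mem_univ i0),
    ← Finset.mul_prod_erase (Finset.univ.erase i0) _
      (Finset.mem_erase.2 ⟨hne.symm, Finset.mem_univ i1⟩)]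
  rw [Finset.prod_eq_one]
  · simp only [if_true, hne.symm, if_false, mul_one, sub_zero]
    rw [← ENNReal.ofReal_mul hnn]
    congr 1; ring
  · intro j hj
    rw [Finset.mem_erase, Finset.mem_erase] at hj
    simp [hj.1, hj.2.1]

/-- lower bound for the error on the comb -/
theorem comb_lower {d k : ℕ} {i0 i1 : Fin d} (hne : i0 ≠ i1) {a : ℝ} (ha : 0 < a) :
    ∃ K : ℝ, 0 < K ∧ ∀ n : ℕ, 1 ≤ n → ENNReal.ofReal (K * (a * ((n:ℝ) * (3 * n)^(-a-1))))
      ≤ minError (comb d i0 i1 a) (smoothClass k (comb d i0 i1 a)) n := by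
  classical
  obtain ⟨K, hK1, hK⟩ := eta_bound d k i1
  have hK0 : 0 < K := by linarith
  refine ⟨K⁻¹ / 4, by positivity, fun n hn => ?_⟩
  refine lower_radius (fun x => ?_)
  have hcov : ∀ i, ∃ m, ∀ m', (x i : E d) ∈ slab d i0 a m' → m' = m := by
    intro i
    by_cases h : ∃ m, (x i : E d) ∈ slab d i0 a m
    · obtain ⟨m, hm⟩ := h
      exact ⟨m, fun m' hm' => slab_unique ha hm' hm⟩
    · exact ⟨0, fun m' hm' => absurd ⟨m', hm'⟩ h⟩
  choose g hg using hcov
  set H : Finset ℕ := Finset.range (2 * n) \ Finset.univ.image g with hH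
  have hHc : n ≤ H.card := by
    have h1 := Finset.le_card_sdiff (Finset.univ.image g) (Finset.range (2 * n))
    have h2 : (Finset.univ.image g).card ≤ n := by
      simpa using Finset.card_image_le (s := (Finset.univ : Finset (Fin n))) (f := g)
    rw [Finset.card_range, ← hH] at h1
    omega
  set V : Set (E d) := ⋃ m ∈ H, slab d i0 a m with hV
  set V' : Set (E d) := ⋃ m ∈ H, (slab d i0 a m ∩ {x | x i1 < 1/4}) with hV'
  have hVo : IsOpen V := isOpen_biUnion (fun m _ => slab_open i0 a m)
  have hhalf : IsOpen {x : E d | x i1 < 1/4} := isOpen_Iio.preimage (continuous_apply i1)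
  have hV'o : IsOpen V' := isOpen_biUnion (fun m _ => (slab_open i0 a m).inter hhalf)
  have hVs : V ⊆ slit d i0 a := iUnion₂_subset (fun m _ => slab_sub ha m)
  have hV'V : V' ⊆ V := iUnion₂_mono (fun m _ => inter_subset_left)
  have hint : interior (comb d i0 i1 a) = comb d i0 i1 a := (comb_open i0 i1 ha).interior_eq
  set F : E d → ℝ := fun y => K⁻¹ * eta (y i1) with hF
  have hFc : ContDiff ℝ k F := contDiff_const.mul (eta_contDiff d i1 k)
  have hFb : ∀ m ≤ k, ∀ j : Fin m → Fin d, ∀ y ∈ Icc (0 : E d) 1,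
      |iteratedFDeriv ℝ m F y (fun i => Pi.single (j i) 1)| ≤ 1 := by
    intro m hm j y hy
    have h6 : iteratedFDeriv ℝ m F y
        = K⁻¹ • iteratedFDeriv ℝ m (fun x : E d => eta (x i1)) y :=
      iteratedFDeriv_const_smul_apply (𝕜 := ℝ) (i := m) (a := K⁻¹) (x := y)
        (eta_contDiff d i1 m).contDiffAt
    rw [h6, _root_.smul_apply, smul_eq_mul, abs_mul, abs_of_pos (inv_pos.2 hK0),
      inv_mul_le_iff₀ hK0, mul_one]
    exact (apply_single_le _ j).trans (hK m hm y hy)
  set f : E d → ℝ := V.indicator F with hf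
  have hloc : ∀ y ∈ comb d i0 i1 a, (f =ᶠ[𝓝 y] F) ∨ (f =ᶠ[𝓝 y] fun _ => 0) := by
    intro y hy
    by_cases hy1 : 3/8 < y i1
    · right
      have h1 : {x : E d | 3/8 < x i1} ∈ 𝓝 y :=
        (isOpen_Ioi.preimage (continuous_apply i1)).mem_nhds hy1
      filter_upwards [h1] with z hz
      have h2 : F z = 0 := by
        simp only [hF]
        rw [eta_zero (le_of_lt hz), mul_zero]
      by_cases hzV : z ∈ V
      · rw [hf, Set.indicator_of_mem hzV, h2]
      · rw [hf, Set.indicator_of_notMem hzV]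
    · have hys : y ∈ slit d i0 a := by
        rcases hy with h | h
        · exact h
        · exfalso; linarith [h.2, not_lt.1 hy1]
      obtain ⟨m, hm⟩ := slab_cover ha hys
      by_cases hmH : m ∈ H
      · left
        filter_upwards [(slab_open i0 a m).mem_nhds hm] with z hz
        rw [hf, Set.indicator_of_mem]
        exact Set.mem_iUnion₂.2 ⟨m, hmH, hz⟩
      · right
        filter_upwards [(slab_open i0 a m).mem_nhds hm] with z hz
        rw [hf, Set.indicator_of_notMem]
        intro hcon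
        obtain ⟨m', hm', hz'⟩ := Set.mem_iUnion₂.1 hcon
        exact hmH (slab_unique ha hz hz' ▸ hm')
  have hcI : comb d i0 i1 a ⊆ Icc (0 : E d) 1 := (comb_sub_cube i0 i1 a).trans (cube_subset_Icc d)
  have hfb : ∀ m ≤ k, ∀ j : Fin m → Fin d, ∀ y ∈ comb d i0 i1 a,
      |iteratedFDeriv ℝ m f y (fun i => Pi.single (j i) 1)| ≤ 1 := by
    intro m hm j y hy
    rcases hloc y hy with h | h
    · rw [(h.iteratedFDeriv ℝ m).eq_of_nhds]
      exact hFb m hm j y (hcI hy)
    · rw [(h.iteratedFDeriv ℝ m).eq_of_nhds]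
      have : iteratedFDeriv ℝ m (fun _ => 0 : E d → ℝ) = 0 := iteratedFDeriv_fun_zero
      rw [this]; simp
  have hfF : f ∈ smoothClass k (comb d i0 i1 a) := by
    refine ⟨?_, fun y hy => ?_, fun m hm j y hy => ?_⟩
    · rw [hint]
      intro y hy
      rcases hloc y hy with h | h
      · exact (hFc.contDiffAt.congr_of_eventuallyEq h).contDiffWithinAt
      · exact (contDiffAt_const.congr_of_eventuallyEq h).contDiffWithinAt
    · have := hfb 0 (Nat.zero_le k) (fun i => i.elim0) y hy
      simpa using this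
    · rw [hint] at hy
      exact hfb m hm j y hy
  refine ⟨f, hfF, smoothClass_neg hfF, fun i => ?_, ?_⟩
  · rw [hf, Set.indicator_of_notMem]
    intro hcon
    obtain ⟨m, hm, hz⟩ := Set.mem_iUnion₂.1 hcon
    have := hg i m hz
    rw [hH, Finset.mem_sdiff] at hm
    exact hm.2 (this ▸ Finset.mem_image_of_mem g (Finset.mem_univ i))
  · have hfi : IntegrableOn f (comb d i0 i1 a) :=
      smoothClass_integrable ((cube_bounded d).subset (comb_sub_cube i0 i1 a))
        (comb_frontier i0 i1 ha) hfF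
    have h0 : ∫ y in comb d i0 i1 a, V'.indicator (fun _ => K⁻¹) y ≤ ∫ y in comb d i0 i1 a, f y := by
      refine setIntegral_mono_on ?_ hfi (comb_open i0 i1 ha).measurableSet (fun y _ => ?_)
      · refine Integrable.integrableOn ?_
        rw [integrable_indicator_iff hV'o.measurableSet]
        refine integrableOn_const (lt_of_le_of_lt (measure_mono
          ((hV'V.trans hVs).trans (fun y hy => hy.1 : slit d i0 a ⊆ cube d))) ?_).ne
        rw [volume_cube]; simp
      · by_cases hy : y ∈ V'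
        · rw [Set.indicator_of_mem hy, hf, Set.indicator_of_mem (hV'V hy)]
          obtain ⟨m, _, hz⟩ := Set.mem_iUnion₂.1 hy
          have : y i1 < 1/4 := hz.2
          simp only [hF]
          rw [eta_one this.le, mul_one]
        · rw [Set.indicator_of_notMem hy, hf]
          refine Set.indicator_nonneg (fun z _ => ?_) y
          exact mul_nonneg (inv_nonneg.2 hK0.le) (Real.smoothTransition.nonneg _)
    refine le_trans ?_ h0
    have h1 : ∫ y in comb d i0 i1 a, V'.indicator (fun _ => K⁻¹) y = (volume V').toReal * K⁻¹ := by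
      have hV'c : V' ⊆ comb d i0 i1 a := (hV'V.trans hVs).trans subset_union_left
      rw [setIntegral_indicator hV'o.measurableSet, inter_eq_self_of_subset_right hV'c,
        setIntegral_const, smul_eq_mul, measureReal_def]
    rw [h1]
    have h2 : volume V' = ∑ m ∈ H, ENNReal.ofReal ((bs a m - bs a (m+1)) / 4) := by
      rw [hV', measure_biUnion_finset]
      · exact Finset.sum_congr rfl (fun m _ => tooth_volume hne ha m)
      · intro m _ m' _ hmm
        rw [Function.onFun, Set.disjoint_left]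
        intro z hz hz'
        exact hmm (slab_unique ha hz.1 hz'.1)
      · exact fun m _ => ((slab_open i0 a m).inter hhalf).measurableSet
    have hnn : ∀ m ∈ H, 0 ≤ (bs a m - bs a (m+1)) / 4 := fun m _ => by
      linarith [bs_anti ha (Nat.le_succ m)]
    rw [h2, ← ENNReal.ofReal_sum_of_nonneg hnn, ENNReal.toReal_ofReal (Finset.sum_nonneg hnn)]
    have h3 : ∀ m ∈ H, a * (3 * (n:ℝ))^(-a-1) / 4 ≤ (bs a m - bs a (m+1)) / 4 := by
      intro m hm
      refine div_le_div_of_nonneg_right ?_ (by norm_num)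
      refine le_trans ?_ (bs_diff ha m)
      refine mul_le_mul_of_nonneg_left ?_ ha.le
      rw [hH, Finset.mem_sdiff, Finset.mem_range] at hm
      have h4 : ((m:ℝ) + 2) ≤ 3 * n := by
        have : m + 2 ≤ 3 * n := by omega
        exact_mod_cast this
      exact Real.rpow_le_rpow_of_nonpos (by positivity) h4 (by linarith)
    calc K⁻¹ / 4 * (a * ((n:ℝ) * (3 * n)^(-a-1)))
        = ((n:ℝ) * (a * (3 * (n:ℝ))^(-a-1) / 4)) * K⁻¹ := by ring
      _ ≤ ((H.card : ℝ) * (a * (3 * (n:ℝ))^(-a-1) / 4)) * K⁻¹ := by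
          have : (n:ℝ) ≤ H.card := by exact_mod_cast hHc
          gcongr
      _ = (∑ m ∈ H, a * (3 * (n:ℝ))^(-a-1) / 4) * K⁻¹ := by rw [Finset.sum_const, nsmul_eq_mul]
      _ ≤ _ := mul_le_mul_of_nonneg_right (Finset.sum_le_sum h3) (inv_nonneg.2 hK0.le)

/-- on the comb the scaled errors tend to infinity -/
theorem comb_top {d k : ℕ} {i0 i1 : Fin d} (hne : i0 ≠ i1) (hk1 : 1 ≤ k) :
    Tendsto (scaledError k (comb d i0 i1 (1/(2*d)))) atTop atTop := by
  have hd : 1 ≤ d := by have := i0.2; omega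
  have hd0 : (0:ℝ) < d := by exact_mod_cast hd
  have ha : (0:ℝ) < 1/(2*d) := by positivity
  obtain ⟨K, hK, h⟩ := comb_lower (k := k) hne ha
  exact top_of_lower hd hk1 ((cube_bounded d).subset (comb_sub_cube i0 i1 _))
    (comb_frontier i0 i1 ha) (comb_volume i0 i1 _) hK h

end Pool.Agent.Helper228.CkInt
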